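import Pool.Agent.LibPC60.RowDefs

/-!
[PC60 A1] the characters chi. Plan:
`zpow_add₀`, `mul_zpow`, `Finset.prod_mul_distrib`, `Finset.prod_ne_zero_iff`; `ord_chi`: `Place.ord_mul`, `Place.ord_zpow` and
induction over the finite set of factors (all factors are nonzero). `chi_wt_inr`: `Finset.prod_eq_single (fac j)`, `Pi.single_eq_same`, `Pi.single_eq_of_ne`.
-/

open scoped Classical
open MvPolynomial

set_option linter.unusedSectionVars false

namespace Pool.Agent.LibPC60

open Pool.Agent.LibBH2 Pool.Agent.LibQC8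

variable {k J S : Type} [Field k] {c N : ℕ} [Fintype S] {K : Type} [Field K] [Algebra k K]

/-- [A1] -/
theorem chi_add (l : K) (m : S → K) (hl : l ≠ 0) (hm : ∀ t, m t ≠ 0) (D E : Deg S) :
    chi l m (D + E) = chi l m D * chi l m E := by
  unfold chi
  have h1 : ∀ t, m t ^ (D + E).2 t = m t ^ D.2 t * m t ^ E.2 t := fun t => by
    rw [Prod.snd_add, Pi.add_apply, zpow_add₀ (hm t)]
  rw [Finset.prod_congr rfl fun t _ => h1 t, Finset.prod_mul_distrib, Prod.fst_add,
    zpow_add₀ hl]
  ring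
theorem chi_zero (l : K) (m : S → K) : chi l m (0 : Deg S) = 1 := by
  unfold chi
  simp
theorem chi_ne (l : K) (m : S → K) (hl : l ≠ 0) (hm : ∀ t, m t ≠ 0) (D : Deg S) :
    chi l m D ≠ 0 := by
  unfold chi
  exact mul_ne_zero (zpow_ne_zero _ hl)
    (Finset.prod_ne_zero_iff.2 fun t _ => zpow_ne_zero _ (hm t))
theorem chi_mul (l l' : K) (m m' : S → K) (D : Deg S) :
    chi (l * l') (fun t => m t * m' t) D = chi l m D * chi l' m' D := by
  unfold chi
  rw [mul_zpow, Finset.prod_congr rfl fun t _ => mul_zpow (m t) (m' t) (D.2 t),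
    Finset.prod_mul_distrib]
  ring
theorem ord_chi (v : Place k K) (l : K) (m : S → K) (hl : l ≠ 0) (hm : ∀ t, m t ≠ 0) (D : Deg S) :
    v.ord (chi l m D) = D.1 * v.ord l + ∑ t, D.2 t * v.ord (m t) := by
  have hp : ∀ A : Finset S, v.ord (∏ t ∈ A, m t ^ D.2 t) = ∑ t ∈ A, D.2 t * v.ord (m t) := by
    intro A
    induction A using Finset.induction_on with
    | empty => simp
    | insert a A ha ih =>
      rw [Finset.prod_insert ha, Finset.sum_insert ha, v.ord_mul _ _ (zpow_ne_zero _ (hm a))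
        (Finset.prod_ne_zero_iff.2 fun t _ => zpow_ne_zero _ (hm t)), ih, Place.ord_zpow]
  unfold chi
  rw [v.ord_mul _ _ (zpow_ne_zero _ hl)
    (Finset.prod_ne_zero_iff.2 fun t _ => zpow_ne_zero _ (hm t)), hp, Place.ord_zpow]
theorem chi_wt_inr {I : Type} (fac : J → S) (α : I → S → ℤ) (l : K) (m : S → K) (j : J) :
    chi l m (wt fac α (Sum.inr j)) = m (fac j) := by
  unfold chi wt
  simp only [Sum.elim_inr, zpow_zero, one_mul]
  rw [Finset.prod_eq_single (fac j)]
  · simp
  · intro b _ hb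
    rw [Pi.single_eq_of_ne hb, zpow_zero]
  · intro h
    exact absurd (Finset.mem_univ _) h
theorem chi_wt_inl {I : Type} (fac : J → S) (α : I → S → ℤ) (l : K) (m : S → K) (i : I) :
    chi l m (wt fac α (Sum.inl i)) = l * chi 1 m (wt fac α (Sum.inl i)) := by
  unfold chi wt
  simp

end Pool.Agent.LibPC60
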