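import Pool.Agent.LibPC60.A1

/-!
[PC60 A2] scaling of weighted homogeneous polynomials. Plan:
write `P` as the sum of its monomials (`MvPolynomial.aeval_def`, `eval₂_eq'`, or induction with `IsWeightedHomogeneous`: for `d` in the support
`Finsupp.weight w d = D`). For one monomial: `∏ (chi (w i) * z i) ^ d i = chi (∑ d i • w i) * ∏ z i ^ d i` by `chi_add`, `chi_zero` (chi is a
homomorphism `Multiplicative (Deg S) →* K`). The second statement: the same with the homomorphism `d ↦ ∏ t, m t ^ d t` of `S → ℤ`
(or: from the first one, applied to the weights `(0, Pi.single (fac j) 1)`).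
-/

open scoped Classical
open MvPolynomial

set_option linter.unusedSectionVars false

namespace Pool.Agent.LibPC60

open Pool.Agent.LibBH2 Pool.Agent.LibQC8

variable {k J S : Type} [Field k] {c N : ℕ} [Fintype S] {K : Type} [Field K] [Algebra k K]

omit [Fintype S] in
/-- scaling by a character -/
private theorem A2_gen {ι A : Type} [AddCommMonoid A] (χ : A → K) (h0 : χ 0 = 1)
    (hadd : ∀ a b, χ (a + b) = χ a * χ b) (w : ι → A) (P : MvPolynomial ι k) (D : A)
    (hP : IsWeightedHomogeneous w P D) (z : ι → K) :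
    aeval (fun i => χ (w i) * z i) P = χ D * aeval z P := by
  have hpow : ∀ (n : ℕ) (a : A), χ (n • a) = χ a ^ n := by
    intro n a
    induction n with
    | zero => rw [zero_smul, pow_zero, h0]
    | succ n ih => rw [succ_nsmul, hadd, ih, pow_succ]
  have hsum : ∀ (s : Finset ι) (d : ι → ℕ), χ (∑ i ∈ s, d i • w i) = ∏ i ∈ s, χ (w i) ^ d i := by
    intro s d
    induction s using Finset.induction_on with
    | empty => simp [h0]
    | insert a s ha ih => rw [Finset.sum_insert ha, Finset.prod_insert ha, hadd, ih, hpow]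
  rw [aeval_def, aeval_def, eval₂_eq, eval₂_eq, Finset.mul_sum]
  apply Finset.sum_congr rfl
  intro d hd
  have h1 : Finsupp.weight w d = D := hP (MvPolynomial.mem_support_iff.1 hd)
  have h2 : Finsupp.weight w d = ∑ i ∈ d.support, d i • w i := by
    rw [Finsupp.weight_apply]
    rfl
  have h3 : χ D = ∏ i ∈ d.support, χ (w i) ^ d i := by
    rw [← h1, h2, hsum]
  rw [h3]
  simp only [mul_pow]
  rw [Finset.prod_mul_distrib]
  ring

/-- [A2] scaling of (weighted) homogeneous polynomials -/
theorem aeval_scale {ι : Type} (w : ι → Deg S) (P : MvPolynomial ι k) (D : Deg S)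
    (hP : IsWeightedHomogeneous w P D) (l : K) (m : S → K) (hl : l ≠ 0) (hm : ∀ t, m t ≠ 0)
    (z : ι → K) : aeval (fun i => chi l m (w i) * z i) P = chi l m D * aeval z P :=
  A2_gen (fun E => chi l m E) (chi_zero l m) (fun D E => chi_add l m hl hm D E) w P D hP z
/-- base polynomials -/
theorem aeval_scale_base (fac : J → S) (e : MvPolynomial J k) (d : S → ℤ)
    (he : IsWeightedHomogeneous (fun j => (Pi.single (fac j) 1 : S → ℤ)) e d)
    (m : S → K) (hm : ∀ t, m t ≠ 0) (y : J → K) :
    aeval (fun j => m (fac j) * y j) e = (∏ t, m t ^ d t) * aeval y e := by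
  have h1 := A2_gen (K := K) (fun E : S → ℤ => ∏ t, m t ^ E t) (by simp)
    (fun a b => by
      simp only [Pi.add_apply]
      rw [← Finset.prod_mul_distrib]
      exact Finset.prod_congr rfl fun t _ => zpow_add₀ (hm t) _ _)
    (fun j => (Pi.single (fac j) 1 : S → ℤ)) e d he y
  have h2 : ∀ j, (∏ t, m t ^ ((Pi.single (fac j) 1 : S → ℤ) t)) = m (fac j) := by
    intro j
    rw [Finset.prod_eq_single (fac j)]
    · rw [Pi.single_eq_same, zpow_one]
    · intro t _ ht
      rw [Pi.single_eq_of_ne ht, zpow_zero]
    · intro h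
      exact absurd (Finset.mem_univ _) h
  simp only [h2] at h1
  exact h1

end Pool.Agent.LibPC60
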