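import Pool.Agent.LibPC60.RowDefs

/-!
[PC60 A3] values of polynomials at a place. Plan:
induction on `P` (`MvPolynomial.induction_on`) with `Place.val_const`, `Place.val_add`, `Place.val_mul` (Pool/Agent/LibBH2/Place.lean). Note `aeval z₀ P : k`
with `algebraMap k k = id`.
-/

open scoped Classical
open MvPolynomial

set_option linter.unusedSectionVars false

namespace Pool.Agent.LibPC60

open Pool.Agent.LibBH2 Pool.Agent.LibQC8

variable {k J S : Type} [Field k] {c N : ℕ} [Fintype S] {K : Type} [Field K] [Algebra k K]

/-- [A3] values of polynomials -/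
theorem zer_aeval {ι : Type} (v : Place k K) (z : ι → K) (z₀ : ι → k)
    (h : ∀ i, v.Zer (z i - algebraMap k K (z₀ i))) (P : MvPolynomial ι k) :
    v.Zer (aeval z P - algebraMap k K (aeval z₀ P)) := by
  induction P using MvPolynomial.induction_on with
  | C a =>
    have h1 := Place.val_const (v := v) a
    simpa using h1
  | add p q hp hq =>
    have h1 := Place.val_add hp hq
    simpa using h1
  | mul_X p i hp =>
    have h1 := Place.val_mul hp (h i)
    simpa using h1

end Pool.Agent.LibPC60
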