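import Pool.Agent.LibPC60.RowDefs

/-!
[PC60 B1] primitive vectors. Plan:
choose `i₀` with `x i₀ ≠ 0` and `v.ord (x i₀)` minimal among the `i` with `x i ≠ 0` (`Finset.exists_min_image`). Then `(x i₀)⁻¹ * x i` is regular (`v.Reg`)
for all `i`; its value exists by `Pool.Agent.LibEnd77.Val8.exists_val`; for `i₀` the quotient is `1`, take the value `1`.
-/

open scoped Classical
open MvPolynomial

set_option linter.unusedSectionVars false

namespace Pool.Agent.LibPC60

open Pool.Agent.LibBH2 Pool.Agent.LibQC8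

variable {k J S : Type} [Field k] [IsAlgClosed k] {c N : ℕ} [Fintype J] [Fintype S]
  {K : Type} [Field K] [Algebra k K]

/-- [B1] a nonzero vector can be made regular and primitive, with a coordinate equal to one -/
theorem exists_prim (hK : IsFunctionField k K) {ι : Type} [Fintype ι] (v : Place k K) (x : ι → K)
    (hx : ∃ i, x i ≠ 0) :
    ∃ (i₀ : ι) (x₀ : ι → k), x i₀ ≠ 0 ∧ x₀ i₀ = 1 ∧
      ∀ i, v.Zer ((x i₀)⁻¹ * x i - algebraMap k K (x₀ i)) := by
  obtain ⟨i₁, hi₁⟩ := hx
  obtain ⟨i₀, hi₀, hmin⟩ := Finset.exists_min_image (Finset.univ.filter fun i => x i ≠ 0)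
    (fun i => v.ord (x i)) ⟨i₁, by simpa using hi₁⟩
  have h0 : x i₀ ≠ 0 := (Finset.mem_filter.1 hi₀).2
  have hreg : ∀ i, v.Reg ((x i₀)⁻¹ * x i) := by
    intro i
    by_cases hi : x i = 0
    · exact Or.inl (by rw [hi, mul_zero])
    · have h1 := hmin i (Finset.mem_filter.2 ⟨Finset.mem_univ _, hi⟩)
      refine Or.inr ?_
      rw [v.ord_mul _ _ (inv_ne_zero h0) hi, Place.ord_inv]
      linarith
  have hval : ∀ i, ∃ c : k, v.Zer ((x i₀)⁻¹ * x i - algebraMap k K c) := fun i =>
    Pool.Agent.LibEnd77.Val8.exists_val hK v (hreg i)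
  choose y hy using hval
  refine ⟨i₀, Function.update y i₀ 1, h0, Function.update_self _ _ _, fun i => ?_⟩
  by_cases hi : i = i₀
  · subst hi
    rw [Function.update_self, map_one, inv_mul_cancel₀ h0, sub_self]
    exact Or.inl rfl
  · rw [Function.update_of_ne hi]
    exact hy i

end Pool.Agent.LibPC60
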