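import Pool.Agent.LibPC60.A2
import Pool.Agent.LibPC60.A3
import Pool.Agent.LibPC60.B1

/-!
[PC60 B2] normalisation of the base coordinates. Plan:
for every `t : S` apply `exists_prim` to the coordinates `{j // X.fac j = t}` (`y.y_ne t`): this gives `m t = (y j₀)⁻¹` and the values. The equations: for `e ∈
X.E`
take `d` from `X.homE e`, `aeval_scale_base` gives `aeval (fun j => m (fac j) * y j) e = 0`, and `zer_aeval` with `Place.zer_const_iff` gives `aeval y₀ e = 0`.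
-/

open scoped Classical
open MvPolynomial

set_option linter.unusedSectionVars false

namespace Pool.Agent.LibPC60

open Pool.Agent.LibBH2 Pool.Agent.LibQC8

variable {k J S : Type} [Field k] [IsAlgClosed k] {c N : ℕ} [Fintype J] [Fintype S]
  {K : Type} [Field K] [Algebra k K]

/-- [B2] normalisation of the base coordinates -/
theorem exists_normY (X : Fam k J S c N) (hK : IsFunctionField k K) (v : Place k K)
    (y : BPt X K) : ∃ (m : S → K) (y₀ : BPt X k), (∀ t, m t ≠ 0) ∧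
      ∀ j, v.Zer (m (X.fac j) * y.y j - algebraMap k K (y₀.y j)) := by
  have hex : ∀ t : S, ∃ (i₀ : {j // X.fac j = t}) (x₀ : {j // X.fac j = t} → k),
      y.y i₀.1 ≠ 0 ∧ x₀ i₀ = 1 ∧ ∀ i : {j // X.fac j = t},
        v.Zer ((y.y i₀.1)⁻¹ * y.y i.1 - algebraMap k K (x₀ i)) := by
    intro t
    obtain ⟨j, hj, hj0⟩ := y.y_ne t
    exact exists_prim hK v (fun j : {j // X.fac j = t} => y.y j.1) ⟨⟨j, hj⟩, hj0⟩
  choose i₀ x₀ h1 h2 h3 using hex
  have hm : ∀ t, (y.y (i₀ t).1)⁻¹ ≠ 0 := fun t => inv_ne_zero (h1 t)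
  have hcast : ∀ (t : S) (q : {j // X.fac j = t}), x₀ (X.fac q.1) ⟨q.1, rfl⟩ = x₀ t q := by
    rintro t ⟨j, rfl⟩
    rfl
  have hval : ∀ j, v.Zer ((y.y (i₀ (X.fac j)).1)⁻¹ * y.y j -
      algebraMap k K (x₀ (X.fac j) ⟨j, rfl⟩)) := fun j => h3 (X.fac j) ⟨j, rfl⟩
  refine ⟨fun t => (y.y (i₀ t).1)⁻¹, ⟨fun j => x₀ (X.fac j) ⟨j, rfl⟩, ?_, ?_⟩, hm, hval⟩
  · intro t
    refine ⟨(i₀ t).1, (i₀ t).2, ?_⟩
    rw [hcast t (i₀ t), h2 t]
    exact one_ne_zero
  · intro e he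
    obtain ⟨d, hd⟩ := X.homE e he
    have h4 := aeval_scale_base X.fac e d hd (fun t => (y.y (i₀ t).1)⁻¹) hm y.y
    rw [y.hE e he, mul_zero] at h4
    have h5 := zer_aeval v (fun j => (y.y (i₀ (X.fac j)).1)⁻¹ * y.y j)
      (fun j => x₀ (X.fac j) ⟨j, rfl⟩) hval e
    rw [h4, zero_sub] at h5
    have h6 := h5.neg
    rw [neg_neg] at h6
    exact (v.zer_const_iff _).1 h6

end Pool.Agent.LibPC60
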