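import Pool.Agent.LibPC60.A2
import Pool.Agent.LibPC60.A3
import Pool.Agent.LibPC60.B1

/-!
[PC60 B3] normalisation of the fibre coordinates. Plan:
apply `exists_prim` to `x i = chi 1 m (wt X.fac X.α (inl i)) * u.z (inl i)` (nonzero for some `i` by `u.x_ne`, `chi_ne`): this gives `l = (x i₀)⁻¹` and the
values `x₀`. Point `p`: coordinates
`Sum.elim x₀ y₀.y`; `Sp.val` by `chi_wt_inl`, `chi_wt_inr`. The equations `hΛ`, `hF` of `p`: `aeval_scale` with `X.homΛ j`, `X.homF` gives that the value of the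
polynomial at the scaled coordinates is zero,
then `zer_aeval` and `Place.zer_const_iff`.
-/

open scoped Classical
open MvPolynomial

set_option linter.unusedSectionVars false

namespace Pool.Agent.LibPC60

open Pool.Agent.LibBH2 Pool.Agent.LibQC8

variable {k J S : Type} [Field k] [IsAlgClosed k] {c N : ℕ} [Fintype J] [Fintype S]
  {K : Type} [Field K] [Algebra k K]

/-- [B3] normalisation of the fibre coordinates, for a given normalisation of the base
coordinates -/
theorem exists_normX (X : Fam k J S c N) (hK : IsFunctionField k K) (v : Place k K) (u : Pt X K)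
    (m : S → K) (hm : ∀ t, m t ≠ 0) (y₀ : BPt X k)
    (hy : ∀ j, v.Zer (m (X.fac j) * u.z (Sum.inr j) - algebraMap k K (y₀.y j))) :
    ∃ (l : K) (p : Pt X k), (∀ j, p.z (Sum.inr j) = y₀.y j) ∧ Sp v u p l m := by
  have hex := exists_prim hK v
    (fun i : Fin (c + N) => chi 1 m (wt X.fac X.α (Sum.inl i)) * u.z (Sum.inl i)) (by
      obtain ⟨i, hi⟩ := u.x_ne
      exact ⟨i, mul_ne_zero (chi_ne 1 m one_ne_zero hm _) hi⟩)
  obtain ⟨i₀, x₀, h1, h2, h3⟩ := hex
  set l : K := (chi 1 m (wt X.fac X.α (Sum.inl i₀)) * u.z (Sum.inl i₀))⁻¹ with hl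
  have hl0 : l ≠ 0 := inv_ne_zero h1
  have hval : ∀ i, v.Zer (chi l m (wt X.fac X.α i) * u.z i -
      algebraMap k K ((Sum.elim x₀ y₀.y : Fin (c + N) ⊕ J → k) i)) := by
    rintro (i | j)
    · rw [chi_wt_inl, mul_assoc]
      exact h3 i
    · rw [chi_wt_inr]
      exact hy j
  have key : ∀ (P : MvPolynomial (Fin (c + N) ⊕ J) k) (D : Deg S),
      IsWeightedHomogeneous (wt X.fac X.α) P D → aeval u.z P = 0 →
      aeval (Sum.elim x₀ y₀.y : Fin (c + N) ⊕ J → k) P = 0 := by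
    intro P D hP h0
    have h4 := aeval_scale (wt X.fac X.α) P D hP l m hl0 hm u.z
    rw [h0, mul_zero] at h4
    have h5 := zer_aeval v (fun i => chi l m (wt X.fac X.α i) * u.z i)
      (Sum.elim x₀ y₀.y : Fin (c + N) ⊕ J → k) hval P
    rw [h4, zero_sub] at h5
    have h6 := h5.neg
    rw [neg_neg] at h6
    exact (v.zer_const_iff _).1 h6
  refine ⟨l, ⟨Sum.elim x₀ y₀.y, ?_, ?_, ?_, ?_, ?_⟩, ?_, ⟨hl0, hm, hval⟩⟩
  · refine ⟨i₀, ?_⟩
    rw [Sum.elim_inl, h2]
    exact one_ne_zero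
  · intro t
    obtain ⟨j, hj, hj0⟩ := y₀.y_ne t
    exact ⟨j, hj, by rw [Sum.elim_inr]; exact hj0⟩
  · intro e he
    exact y₀.hE e he
  · intro j
    exact key _ _ (X.homΛ j) (u.hΛ j)
  · exact key _ _ X.homF u.hF
  · intro j
    rfl

end Pool.Agent.LibPC60
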