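import Pool.Agent.LibPC60.B2
import Pool.Agent.LibPC60.B3

/-!
[PC60 B4] a K-point has a value at every place. Plan:
`exists_normY` for the base point `⟨fun j => u.z (inr j), u.y_ne, u.hE⟩`, then `exists_normX`.
-/

open scoped Classical
open MvPolynomial

set_option linter.unusedSectionVars false

namespace Pool.Agent.LibPC60

open Pool.Agent.LibBH2 Pool.Agent.LibQC8

variable {k J S : Type} [Field k] [IsAlgClosed k] {c N : ℕ} [Fintype J] [Fintype S]
  {K : Type} [Field K] [Algebra k K]

/-- [B4] a `K`-point has a value at every place -/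
theorem exists_sp (X : Fam k J S c N) (hK : IsFunctionField k K) (v : Place k K) (u : Pt X K) :
    ∃ p l m, Sp v u p l m := by
  obtain ⟨m, y₀, hm, hy⟩ := exists_normY X hK v
    (⟨fun j => u.z (Sum.inr j), u.y_ne, u.hE⟩ : BPt X K)
  obtain ⟨l, p, _, hp⟩ := exists_normX X hK v u m hm y₀ hy
  exact ⟨p, l, m, hp⟩

end Pool.Agent.LibPC60
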