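import Pool.Agent.LibPC60.A1

/-!
[PC60 B5] uniqueness of the value of a K-point at a place. Plan:
for every `t : S` take `j` with `fac j = t`, `p.z (inr j) ≠ 0`: `m t * u.z (inr j)` has a nonzero value, so order `0` (`Place.ord_eq_zero_of_val`), and `m' t *
u.z (inr j)` has the value `p'.z (inr j)`; so
`m' t / m t` has the value `μ t = p'.z (inr j) / p.z (inr j)` and is regular; by symmetry (a `j'` with `p'.z (inr j') ≠ 0`) `m t / m' t` is regular, so `v.ord
(m t) = v.ord (m' t)` and `μ t ≠ 0`. Then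
`chi 1 m' D / chi 1 m D` has the value `chi 1 μ D` (product of values, `Place.val_mul`, `val_inv`). The same with the fibre coordinates gives `l' / l` with
value `λ ≠ 0`. So `p'.z i = chi λ μ (wt i) * p.z i`
for all `i` (`Place.val_unique`), `Eqv X p p'`, `Quot.sound`; and the orders agree by `ord_chi`.
-/

open scoped Classical
open MvPolynomial

set_option linter.unusedSectionVars false

namespace Pool.Agent.LibPC60

open Pool.Agent.LibBH2 Pool.Agent.LibQC8

variable {k J S : Type} [Field k] [IsAlgClosed k] {c N : ℕ} [Fintype J] [Fintype S]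
  {K : Type} [Field K] [Algebra k K]

private theorem b5_val_zpow {v : Place k K} {f : K} {a : k} (h : v.Zer (f - algebraMap k K a))
    (ha : a ≠ 0) (n : ℤ) : v.Zer (f ^ n - algebraMap k K (a ^ n)) := by
  cases n with
  | ofNat n => simpa using Place.val_pow h n
  | negSucc n =>
    rw [zpow_negSucc, zpow_negSucc]
    exact Place.val_inv (Place.val_pow h (n + 1)) (pow_ne_zero _ ha)

private theorem b5_val_prod {v : Place k K} {f : S → K} {a : S → k}
    (h : ∀ t, v.Zer (f t - algebraMap k K (a t))) (A : Finset S) :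
    v.Zer (∏ t ∈ A, f t - algebraMap k K (∏ t ∈ A, a t)) := by
  induction A using Finset.induction_on with
  | empty => simpa using Place.val_const (v := v) (1 : k)
  | insert t A ht ih =>
    rw [Finset.prod_insert ht, Finset.prod_insert ht]
    exact Place.val_mul (h t) ih

private theorem b5_val_chi {v : Place k K} {l : K} {m : S → K} {a : k} {b : S → k}
    (hl : v.Zer (l - algebraMap k K a)) (ha : a ≠ 0)
    (hm : ∀ t, v.Zer (m t - algebraMap k K (b t))) (hb : ∀ t, b t ≠ 0) (D : Deg S) :
    v.Zer (chi l m D - algebraMap k K (chi a b D)) := by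
  unfold chi
  exact Place.val_mul (b5_val_zpow hl ha _)
    (b5_val_prod (f := fun t => m t ^ D.2 t) (a := fun t => b t ^ D.2 t)
      (fun t => b5_val_zpow (hm t) (hb t) _) Finset.univ)

/-- the quotient of two scalars has a value -/
private theorem b5_ratio {v : Place k K} {x y w : K} {a b : k} (hx : x ≠ 0)
    (h : v.Zer (x * w - algebraMap k K a)) (h' : v.Zer (y * w - algebraMap k K b)) (ha : a ≠ 0) :
    v.Zer (y / x - algebraMap k K (b * a⁻¹)) := by
  have hxw : x * w ≠ 0 := Place.ne_zero_of_val h ha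
  have hw : w ≠ 0 := right_ne_zero_of_mul hxw
  have h1 := Place.val_mul h' (Place.val_inv h ha)
  have e : y * w * (x * w)⁻¹ = y / x := by field_simp
  rwa [e] at h1

/-- the quotient of two scalars has a nonzero value -/
private theorem b5_ratio2 {v : Place k K} {x y w w' : K} {a b a' b' : k} (hx : x ≠ 0) (hy : y ≠ 0)
    (h : v.Zer (x * w - algebraMap k K a)) (h' : v.Zer (y * w - algebraMap k K b)) (ha : a ≠ 0)
    (g : v.Zer (x * w' - algebraMap k K a')) (g' : v.Zer (y * w' - algebraMap k K b'))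
    (hb : b' ≠ 0) :
    ∃ r : k, r ≠ 0 ∧ v.Zer (y / x - algebraMap k K r) := by
  have h1 := b5_ratio hx h h' ha
  have h2 := b5_ratio hy g' g hb
  refine ⟨b * a⁻¹, ?_, h1⟩
  have h3 := Place.val_mul h1 h2
  have e : y / x * (x / y) = 1 := by field_simp
  rw [e] at h3
  have h4 : v.Zer ((1 : K) - algebraMap k K 1) := by
    rw [map_one, sub_self]
    exact Place.zer_zero v
  have h5 := Place.val_unique h3 h4
  intro h0
  rw [h0, zero_mul] at h5
  exact one_ne_zero h5.symm

/-- [B5] uniqueness of the value and of the orders -/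
theorem sp_unique (X : Fam k J S c N) (v : Place k K) (u : Pt X K) {p p' : Pt X k} {l l' : K}
    {m m' : S → K} (h : Sp v u p l m) (h' : Sp v u p' l' m') :
    pt p = pt p' ∧ ∀ D : Deg S, v.ord (chi l m D) = v.ord (chi l' m' D) := by
  have hm : ∀ t, ∃ r : k, r ≠ 0 ∧ v.Zer (m' t / m t - algebraMap k K r) := by
    intro t
    obtain ⟨j, hj, hpj⟩ := p.y_ne t
    obtain ⟨j', hj', hpj'⟩ := p'.y_ne t
    have a1 := h.val (Sum.inr j)
    have a2 := h'.val (Sum.inr j)
    have a3 := h.val (Sum.inr j')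
    have a4 := h'.val (Sum.inr j')
    rw [chi_wt_inr, hj] at a1 a2
    rw [chi_wt_inr, hj'] at a3 a4
    exact b5_ratio2 (h.m_ne t) (h'.m_ne t) a1 a2 hpj a3 a4 hpj'
  choose μ hμ0 hμ using hm
  have hquo : ∀ D : Deg S, chi 1 m' D = chi 1 (fun t => m' t / m t) D * chi 1 m D := by
    intro D
    have := chi_mul (1 : K) 1 (fun t => m' t / m t) m D
    rw [← this]
    congr 1
    · simp
    · funext t
      have := h.m_ne t
      field_simp
  have hone : v.Zer ((1 : K) - algebraMap k K 1) := by
    have := Place.val_const (v := v) (1 : k)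
    rwa [map_one, sub_self] at this ⊢
  have hchi : ∀ D : Deg S, v.Zer (chi 1 (fun t => m' t / m t) D - algebraMap k K (chi 1 μ D)) :=
    fun D => b5_val_chi hone one_ne_zero hμ hμ0 D
  have hchi0 : ∀ D : Deg S, chi (1 : k) μ D ≠ 0 := fun D => chi_ne 1 μ one_ne_zero hμ0 D
  have hl : ∃ r : k, r ≠ 0 ∧ v.Zer (l' / l - algebraMap k K r) := by
    have key : ∀ i : Fin (c + N),
        v.Zer (l * (chi 1 m (wt X.fac X.α (Sum.inl i)) * u.z (Sum.inl i))
          - algebraMap k K (p.z (Sum.inl i))) ∧
        v.Zer (l' * (chi 1 m (wt X.fac X.α (Sum.inl i)) * u.z (Sum.inl i))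
          - algebraMap k K (p'.z (Sum.inl i) * (chi 1 μ (wt X.fac X.α (Sum.inl i)))⁻¹)) := by
      intro i
      have a1 := h.val (Sum.inl i)
      have a2 := h'.val (Sum.inl i)
      rw [chi_wt_inl] at a1 a2
      refine ⟨by rwa [mul_assoc] at a1, ?_⟩
      have a3 := Place.val_mul a2 (Place.val_inv (hchi (wt X.fac X.α (Sum.inl i)))
        (hchi0 (wt X.fac X.α (Sum.inl i))))
      have hne : chi 1 (fun t => m' t / m t) (wt X.fac X.α (Sum.inl i)) ≠ 0 :=
        Place.ne_zero_of_val (hchi (wt X.fac X.α (Sum.inl i)))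
          (hchi0 (wt X.fac X.α (Sum.inl i)))
      have e : l' * chi 1 m' (wt X.fac X.α (Sum.inl i)) * u.z (Sum.inl i) *
          (chi 1 (fun t => m' t / m t) (wt X.fac X.α (Sum.inl i)))⁻¹ =
          l' * (chi 1 m (wt X.fac X.α (Sum.inl i)) * u.z (Sum.inl i)) := by
        rw [hquo (wt X.fac X.α (Sum.inl i))]
        field_simp
      rwa [e] at a3
    obtain ⟨i, hi⟩ := p.x_ne
    obtain ⟨i', hi'⟩ := p'.x_ne
    exact b5_ratio2 h.l_ne h'.l_ne (key i).1 (key i).2 hi (key i').1 (key i').2
      (mul_ne_zero hi' (inv_ne_zero (hchi0 _)))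
  obtain ⟨lam, hlam0, hlam⟩ := hl
  have hquo2 : ∀ D : Deg S, chi l' m' D = chi (l' / l) (fun t => m' t / m t) D * chi l m D := by
    intro D
    rw [← chi_mul]
    congr 1
    · have := h.l_ne
      field_simp
    · funext t
      have := h.m_ne t
      field_simp
  have hval : ∀ D : Deg S, v.Zer (chi (l' / l) (fun t => m' t / m t) D
      - algebraMap k K (chi lam μ D)) := fun D => b5_val_chi hlam hlam0 hμ hμ0 D
  have hval0 : ∀ D : Deg S, chi lam μ D ≠ 0 := fun D => chi_ne lam μ hlam0 hμ0 D
  constructor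
  · unfold pt
    congr 1
    apply Quot.sound
    refine ⟨lam, μ, hlam0, hμ0, fun i => ?_⟩
    have a1 := h'.val i
    have a2 := Place.val_mul (hval (wt X.fac X.α i)) (h.val i)
    rw [hquo2, mul_assoc] at a1
    exact Place.val_unique a1 a2
  · intro D
    have hne1 : chi (l' / l) (fun t => m' t / m t) D ≠ 0 := Place.ne_zero_of_val (hval D) (hval0 D)
    have hne2 : chi l m D ≠ 0 := chi_ne l m h.l_ne h.m_ne D
    rw [hquo2 D, v.ord_mul _ _ hne1 hne2, Place.ord_eq_zero_of_val (hval D) (hval0 D), zero_add]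

end Pool.Agent.LibPC60
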