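import Pool.Agent.LibPC60.B4
import Pool.Agent.LibPC60.B5

/-!
[PC60 B6] orders vanish almost everywhere. Plan:
the set of the places `v` at which some nonzero coordinate `u.z i` has `v.ord ≠ 0` is finite: `(Pool.Agent.LibEnd77.Val8.sum_formula hK _).1`, finite union over
the index set `Fin (c + N) ⊕ J`.
Outside of it all coordinates are regular (`v.Reg`), with values by `exists_val`, and the nonzero coordinates have nonzero values; so `Sp v u p' 1 (fun _ => 1)`
for a `p'` (equations: `zer_aeval`; or: take `exists_sp` at `v` and compare).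
Then `sp_unique` gives `v.ord (chi (l v) (m v) D) = v.ord (chi 1 1 D) = 0` (`chi 1 1 D = 1`).
-/

open scoped Classical
open MvPolynomial

set_option linter.unusedSectionVars false

namespace Pool.Agent.LibPC60

open Pool.Agent.LibBH2 Pool.Agent.LibQC8

variable {k J S : Type} [Field k] [IsAlgClosed k] {c N : ℕ} [Fintype J] [Fintype S]
  {K : Type} [Field K] [Algebra k K]

/-- [B6] the orders of a multidegree vanish at almost all places -/
theorem finite_ord (X : Fam k J S c N) (hK : IsFunctionField k K) (u : Pt X K)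
    (p : Place k K → Pt X k) (l : Place k K → K) (m : Place k K → S → K)
    (h : ∀ v, Sp v u (p v) (l v) (m v)) (D : Deg S) :
    {v : Place k K | v.ord (chi (l v) (m v) D) ≠ 0}.Finite := by
  have hfin : Set.Finite (⋃ i : Fin (c + N) ⊕ J, {v : Place k K | v.ord (u.z i) ≠ 0}) :=
    Set.finite_iUnion fun i => (Pool.Agent.LibEnd77.Val8.sum_formula hK (u.z i)).1
  refine hfin.subset fun v hv => ?_
  by_contra hnot
  rw [Set.mem_iUnion] at hnot
  push Not at hnot
  have h0 : ∀ i, v.ord (u.z i) = 0 := by
    intro i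
    by_contra h1
    exact hnot i h1
  obtain ⟨hl, hm, hval⟩ := h v
  have key : ∀ i, (p v).z i ≠ 0 → v.ord (chi (l v) (m v) (wt X.fac X.α i)) = 0 := by
    intro i hi
    have h1 := Place.ord_eq_zero_of_val (hval i) hi
    have h2 := Place.ne_zero_of_val (hval i) hi
    have h3 : u.z i ≠ 0 := right_ne_zero_of_mul h2
    rw [v.ord_mul _ _ (left_ne_zero_of_mul h2) h3, h0 i, add_zero] at h1
    exact h1
  have hmo : ∀ t, v.ord (m v t) = 0 := by
    intro t
    obtain ⟨j, hj, hj0⟩ := (p v).y_ne t
    have h1 := key (Sum.inr j) hj0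
    rw [chi_wt_inr, hj] at h1
    exact h1
  have hlo : v.ord (l v) = 0 := by
    obtain ⟨i, hi⟩ := (p v).x_ne
    have h1 := key (Sum.inl i) hi
    rw [ord_chi v _ _ hl hm, Finset.sum_eq_zero fun t _ => by rw [hmo t, mul_zero], add_zero] at h1
    have h2 : (wt X.fac X.α (Sum.inl i)).1 = 1 := rfl
    rw [h2, one_mul] at h1
    exact h1
  refine hv ?_
  show v.ord (chi (l v) (m v) D) = 0
  rw [ord_chi v _ _ hl hm, Finset.sum_eq_zero fun t _ => by rw [hmo t, mul_zero], add_zero, hlo,
    mul_zero]

end Pool.Agent.LibPC60
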