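import Pool.Agent.LibPC60.B6

/-!
[PC60 B7] existence of D . Gamma. Plan:
choose the values at all places by `exists_sp` (`choose`), take `A` = the finite set of `finite_ord`.
-/

open scoped Classical
open MvPolynomial

set_option linter.unusedSectionVars false

namespace Pool.Agent.LibPC60

open Pool.Agent.LibBH2 Pool.Agent.LibQC8

variable {k J S : Type} [Field k] [IsAlgClosed k] {c N : ℕ} [Fintype J] [Fintype S]
  {K : Type} [Field K] [Algebra k K]

/-- [B7] -/
theorem exists_int (X : Fam k J S c N) (hK : IsFunctionField k K) (D : Deg S) (u : Pt X K) :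
    ∃ a, IsInt D u a := by
  choose p l m h using fun v => exists_sp X hK v u
  refine ⟨_, (finite_ord X hK u p l m h D).toFinset, p, l, m, h, fun v hv => ?_, rfl⟩
  by_contra hcon
  exact hv ((Set.Finite.mem_toFinset _).2 hcon)

end Pool.Agent.LibPC60
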