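import Pool.Agent.LibPC60.RowDefs

/-!
[PC60 B8] the divisor of a function is zero in CH. Plan:
`Submodule.subset_span` applied to the definition `IsDiv` (witness `K, u, f, A, p`), `(Submodule.Quotient.mk_eq_zero _).2`, and `cl` commutes with finite sums
and multiples (`Submodule.mkQ`, `map_sum`, `map_smul`).
-/

open scoped Classical
open MvPolynomial

set_option linter.unusedSectionVars false

namespace Pool.Agent.LibPC60

open Pool.Agent.LibBH2 Pool.Agent.LibQC8

variable {k J S : Type} [Field k] [IsAlgClosed k] {c N : ℕ} [Fintype J] [Fintype S]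
  {K : Type} [Field K] [Algebra k K]

/-- [B8] the divisor of a function -/
theorem div_rel (X : Fam k J S c N) (hK : IsFunctionField k K) (u : Pt X K)
    (p : Place k K → Pt X k) (h : ∀ v, ∃ l m, Sp v u (p v) l m) (f : K) (hf : f ≠ 0)
    (A : Finset (Place k K)) (hA : ∀ v, v.ord f ≠ 0 → v ∈ A) :
    ∑ v ∈ A, (v.ord f : ℚ) • cl (pt (p v)) = 0 := by
  have hmem : (∑ v ∈ A, (v.ord f : ℚ) • pt (p v)) ∈ Rat X :=
    Submodule.subset_span ⟨K, inferInstance, inferInstance, u, f, A, p, hK, hf, hA,
      fun v _ => h v, rfl⟩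
  have h1 : (Rat X).mkQ (∑ v ∈ A, (v.ord f : ℚ) • pt (p v)) = 0 := by
    rw [Submodule.mkQ_apply]
    exact (Submodule.Quotient.mk_eq_zero _).2 hmem
  rw [map_sum] at h1
  rw [← h1]
  refine Finset.sum_congr rfl fun v _ => ?_
  rw [map_smul]
  rfl

end Pool.Agent.LibPC60
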