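import Pool.Agent.LibPC60.B8
import Pool.Agent.LibPC60.B4

/-!
[PC60 B9] families of tuples over a curve with a function. Plan:
let `A` be the finite set of places with `v.ord f ≠ 0` (`sum_formula`). Choose values at the places of `A` from `h0`, `h1`, and arbitrary values elsewhere
(`exists_sp`). For every `n` `div_rel`; sum over `n` and exchange:
`∑_v ord_v(f) • (∑_n cl (pt (p v n))) = 0`, i.e. `P • a + Q • a' = 0` with `P = ∑_{ord > 0} ord`, `Q = ∑_{ord < 0} ord`, `P + Q = 0` (`Val8.sum_formula`), `P >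
0` by `Val8.exists_zero hK hf`. So `P • (a - a') = 0` in a `ℚ`-vector space.
-/

open scoped Classical
open MvPolynomial

set_option linter.unusedSectionVars false

namespace Pool.Agent.LibPC60

open Pool.Agent.LibBH2 Pool.Agent.LibQC8

variable {k J S : Type} [Field k] [IsAlgClosed k] {c N : ℕ} [Fintype J] [Fintype S]
  {K : Type} [Field K] [Algebra k K]

/-- [B9] families of `M`-tuples of points over a curve with a function `f` -/
theorem genM (X : Fam k J S c N) (hK : IsFunctionField k K) (M : ℕ) (u : Fin M → Pt X K) (f : K)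
    (hf : Transcendental k f) (a a' : CH X)
    (h0 : ∀ v : Place k K, 0 < v.ord f → ∃ p : Fin M → Pt X k,
      (∀ n, ∃ l m, Sp v (u n) (p n) l m) ∧ ∑ n, cl (pt (p n)) = a)
    (h1 : ∀ v : Place k K, v.ord f < 0 → ∃ p : Fin M → Pt X k,
      (∀ n, ∃ l m, Sp v (u n) (p n) l m) ∧ ∑ n, cl (pt (p n)) = a') : a = a' := by
  have hf0 : f ≠ 0 := Pool.Agent.LibEnd77.Val8.ne_zero_of_transcendental hf
  obtain ⟨hfin, hsum⟩ := Pool.Agent.LibEnd77.Val8.sum_formula hK f
  have hex : ∀ v : Place k K, ∃ p : Fin M → Pt X k, (∀ n, ∃ l m, Sp v (u n) (p n) l m) ∧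
      (v.ord f ≠ 0 → ∑ n, cl (pt (p n)) = if 0 < v.ord f then a else a') := by
    intro v
    by_cases hv : 0 < v.ord f
    · obtain ⟨p, hp, hp'⟩ := h0 v hv
      exact ⟨p, hp, fun _ => by rw [if_pos hv]; exact hp'⟩
    · by_cases hv' : v.ord f < 0
      · obtain ⟨p, hp, hp'⟩ := h1 v hv'
        exact ⟨p, hp, fun _ => by rw [if_neg hv]; exact hp'⟩
      · choose p l m h using fun n => exists_sp X hK v (u n)
        exact ⟨p, fun n => ⟨l n, m n, h n⟩, fun h => absurd (by omega) h⟩
  choose p hp hp' using hex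
  have hA : ∀ v : Place k K, v.ord f ≠ 0 → v ∈ hfin.toFinset := fun v hv =>
    (Set.Finite.mem_toFinset _).2 hv
  have h2 : ∑ v ∈ hfin.toFinset, (v.ord f : ℚ) • (if 0 < v.ord f then a else a') = 0 := by
    have h3 : ∑ n : Fin M, ∑ v ∈ hfin.toFinset, (v.ord f : ℚ) • cl (pt (p v n)) = 0 :=
      Finset.sum_eq_zero fun n _ =>
        div_rel X hK (u n) (fun v => p v n) (fun v => hp v n) f hf0 hfin.toFinset hA
    rw [Finset.sum_comm] at h3
    rw [← h3]
    refine Finset.sum_congr rfl fun v hv => ?_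
    rw [← hp' v ((Set.Finite.mem_toFinset _).1 hv), Finset.smul_sum]
  have h4 : ∑ v ∈ hfin.toFinset, (v.ord f : ℚ) = 0 := by
    have h5 : ∑ v ∈ hfin.toFinset, v.ord f = 0 := by
      refine Eq.trans ?_ hsum
      rw [finsum_eq_sum_of_support_subset _ (s := hfin.toFinset)
        (fun v hv => Finset.mem_coe.2 (hA v hv))]
    have h6 := congrArg (Int.cast : ℤ → ℚ) h5
    push_cast at h6
    exact h6
  have h7 : (∑ v ∈ hfin.toFinset with 0 < v.ord f, (v.ord f : ℚ)) • (a - a') = 0 := by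
    have h8 : ∀ v : Place k K, (v.ord f : ℚ) • (if 0 < v.ord f then a else a') =
        (if 0 < v.ord f then (v.ord f : ℚ) • (a - a') else 0) + (v.ord f : ℚ) • a' := by
      intro v
      split_ifs with hv
      · rw [smul_sub]; abel
      · rw [zero_add]
    rw [Finset.sum_congr rfl fun v _ => h8 v, Finset.sum_add_distrib, ← Finset.sum_smul, h4,
      zero_smul, add_zero, ← Finset.sum_filter, ← Finset.sum_smul] at h2
    exact h2
  have h9 : 0 < ∑ v ∈ hfin.toFinset with 0 < v.ord f, (v.ord f : ℚ) := by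
    obtain ⟨v, hv⟩ := Pool.Agent.LibEnd77.Val8.exists_zero hK hf
    refine Finset.sum_pos (fun w hw => ?_) ⟨v, Finset.mem_filter.2 ⟨hA v (by omega), hv⟩⟩
    exact_mod_cast (Finset.mem_filter.1 hw).2
  have h10 := (smul_eq_zero.1 h7).resolve_left h9.ne'
  exact sub_eq_zero.1 h10

end Pool.Agent.LibPC60
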