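import Pool.Agent.LibPC60.RowDefs

/-!
[PC60 C1] weighted homogeneity of a determinant. Plan:
`Matrix.det_apply`; `IsWeightedHomogeneous.sum`, `.prod` (Mathlib/RingTheory/MvPolynomial/WeightedHomogeneous.lean), the sign is a constant; `∑ i, (r (σ i) + q
i) = ∑ r + ∑ q` by `Equiv.sum_comp`.
-/

open scoped Classical
open MvPolynomial

set_option linter.unusedSectionVars false

namespace Pool.Agent.LibPC60

open Pool.Agent.LibBH2 Pool.Agent.LibQC8

variable {k J S : Type} [Field k] {c N : ℕ}

/-- [C1] weighted homogeneity of a determinant -/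
theorem det_hom {ι σ M : Type} [Fintype ι] [AddCommGroup M] (w : σ → M)
    (A : Matrix ι ι (MvPolynomial σ k)) (r q : ι → M)
    (h : ∀ i j, IsWeightedHomogeneous w (A i j) (r i + q j)) :
    IsWeightedHomogeneous w A.det (∑ i, r i + ∑ i, q i) := by
  rw [Matrix.det_apply]
  rw [← mem_weightedHomogeneousSubmodule]
  refine Submodule.sum_mem _ fun τ _ => ?_
  have h1 : IsWeightedHomogeneous w (∏ i, A (τ i) i) (∑ i, (r (τ i) + q i)) :=
    IsWeightedHomogeneous.prod _ _ _ fun i _ => h (τ i) i
  rw [Finset.sum_add_distrib, Equiv.sum_comp τ r] at h1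
  rw [← mem_weightedHomogeneousSubmodule] at h1
  rcases Int.units_eq_one_or (Equiv.Perm.sign τ) with h2 | h2
  · rw [h2, one_smul]
    exact h1
  · rw [h2, Units.neg_smul, one_smul]
    exact Submodule.neg_mem _ h1

end Pool.Agent.LibPC60
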