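import Pool.Agent.LibPC60.RowDefs

/-!
[PC60 C7] Euler formulas. Plan:
`X.F` has `N = 3`: with the `ℕ`-valued weight `inl ↦ 1`, `inr ↦ 0` (first component of the weights `wt`) `X.F` is weighted homogeneous of degree `3` and `pderiv
(inl i) X.F` of degree `2` (`IsWeightedHomogeneous.pderiv`); these are ALL the facts needed:
`IsWeightedHomogeneous.sum_weight_X_mul_pderiv` needs `Fintype` of the variables, `J` has no `Fintype` here: prove the Euler formula by monomials, or for a
polynomial in finitely many variables. `G2_symm`: `pderiv` commute (`MvPolynomial` derivations, check on `X i`),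
`Finset.sum_comm`.
-/

open scoped Classical
open MvPolynomial

set_option linter.unusedSectionVars false

namespace Pool.Agent.LibPC60

open Pool.Agent.LibBH2 Pool.Agent.LibQC8

variable {k J S : Type} [Field k] {c N : ℕ} {K : Type} [Field K] [Algebra k K]

private theorem C7_wt (X : Fam k J S c N) (d : (Fin (c + N) ⊕ J) →₀ ℕ)
    (hd : coeff d X.F ≠ 0) : ∑ i, d (Sum.inl i) = N := by
  have h := congrArg Prod.fst (X.homF hd)
  rw [Finsupp.weight_apply, Finsupp.sum, Prod.fst_sum] at h
  have h1 : ∑ s ∈ d.support, (d s • wt X.fac X.α s).1 =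
      ∑ s ∈ Finset.univ.map ⟨Sum.inl, Sum.inl_injective⟩, (d s • wt X.fac X.α s).1 := by
    rw [Finset.sum_subset (Finset.subset_union_left (s₂ := Finset.univ.map
      ⟨(Sum.inl : Fin (c + N) → Fin (c + N) ⊕ J), Sum.inl_injective⟩))]
    · symm
      refine Finset.sum_subset Finset.subset_union_right fun s _ hs => ?_
      cases s with
      | inl i => exact absurd (Finset.mem_map.2 ⟨i, Finset.mem_univ _, rfl⟩) hs
      | inr j => simp [wt]
    · intro s _ hs
      rw [Finsupp.notMem_support_iff.1 hs, zero_smul]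
      rfl
  rw [h1, Finset.sum_map] at h
  have h2 : ∀ i : Fin (c + N), (d ((⟨Sum.inl, Sum.inl_injective⟩ :
      Fin (c + N) ↪ Fin (c + N) ⊕ J) i) • wt X.fac X.α ((⟨Sum.inl, Sum.inl_injective⟩ :
      Fin (c + N) ↪ Fin (c + N) ⊕ J) i)).1 = ((d (Sum.inl i) : ℕ) : ℤ) := by
    intro i
    simp [wt]
  rw [Finset.sum_congr rfl fun i _ => h2 i] at h
  change _ = ((N : ℕ) : ℤ) at h
  exact_mod_cast h

private theorem C7_euler (X : Fam k J S c N) :
    ∑ i, MvPolynomial.X (Sum.inl i) * pderiv (Sum.inl i) X.F = N • X.F := by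
  have key : ∀ i : Fin (c + N) ⊕ J, MvPolynomial.X i * pderiv i X.F =
      ∑ d ∈ X.F.support, d i • monomial d (coeff d X.F) := by
    intro i
    conv_lhs => rw [← X.F.support_sum_monomial_coeff]
    rw [map_sum, Finset.mul_sum]
    exact Finset.sum_congr rfl fun d _ => X_mul_pderiv_monomial
  rw [Finset.sum_congr rfl fun i _ => key (Sum.inl i), Finset.sum_comm]
  conv_rhs => rw [← X.F.support_sum_monomial_coeff]
  rw [Finset.smul_sum]
  refine Finset.sum_congr rfl fun d hd => ?_
  rw [← Finset.sum_smul, C7_wt X d (mem_support_iff.1 hd)]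

private theorem C7_comm (P : MvPolynomial (Fin (c + N) ⊕ J) k) (i j : Fin (c + N) ⊕ J) :
    pderiv i (pderiv j P) = pderiv j (pderiv i P) := by
  have h : (⁅(pderiv i : Derivation k (MvPolynomial (Fin (c + N) ⊕ J) k) _), pderiv j⁆ :
      Derivation k (MvPolynomial (Fin (c + N) ⊕ J) k) (MvPolynomial (Fin (c + N) ⊕ J) k)) = 0 := by
    refine MvPolynomial.derivation_ext fun l => ?_
    have h1 : ∀ a b e : Fin (c + N) ⊕ J,
        pderiv a (pderiv b (MvPolynomial.X (R := k) e)) = 0 := by
      intro a b e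
      rw [pderiv_X, Pi.single_apply]
      split_ifs
      · exact Derivation.map_one_eq_zero _
      · exact map_zero _
    rw [Derivation.commutator_apply, h1, h1, sub_zero]
    rfl
  have h' := congrArg (fun D => D P) h
  simp only [Derivation.commutator_apply, Derivation.coe_zero, Pi.zero_apply] at h'
  exact sub_eq_zero.1 h'

private theorem C7_euler2 (X : Fam k J S c 3) (i' : Fin (c + 3)) :
    ∑ i, MvPolynomial.X (Sum.inl i) * pderiv (Sum.inl i) (pderiv (Sum.inl i') X.F) =
      2 * pderiv (Sum.inl i') X.F := by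
  have h := congrArg (pderiv (Sum.inl i')) (C7_euler X)
  rw [map_sum, map_nsmul] at h
  have h1 : ∀ i : Fin (c + 3), pderiv (Sum.inl i')
      (MvPolynomial.X (Sum.inl i) * pderiv (Sum.inl i) X.F) =
      MvPolynomial.X (Sum.inl i) * pderiv (Sum.inl i) (pderiv (Sum.inl i') X.F) +
        (if i = i' then pderiv (Sum.inl i') X.F else 0) := by
    intro i
    rw [pderiv_mul, pderiv_X, C7_comm]
    by_cases h : i = i'
    · subst h
      simp [add_comm]
    · have h' : (Sum.inl i : Fin (c + 3) ⊕ J) ≠ Sum.inl i' := fun e => h (Sum.inl_injective e)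
      simp [Pi.single_apply, h, h', Ne.symm h']
  rw [Finset.sum_congr rfl fun i _ => h1 i, Finset.sum_add_distrib,
    Finset.sum_ite_eq' Finset.univ i', if_pos (Finset.mem_univ _)] at h
  have h2 : (3 : ℕ) • pderiv (Sum.inl i') X.F =
      2 * pderiv (Sum.inl i') X.F + pderiv (Sum.inl i') X.F := by
    rw [nsmul_eq_mul]
    push_cast
    ring
  rw [h2] at h
  exact add_right_cancel h

/-- [C7] Euler formulas for cubics -/
theorem euler1 (X : Fam k J S c 3) (y : J → K) (x : Fin (c + 3) → K) :
    G1 X y x x = 3 * aeval (Sum.elim x y) X.F := by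
  have h := congrArg (aeval (Sum.elim x y)) (C7_euler X)
  rw [map_sum, map_nsmul] at h
  unfold G1
  simp only [map_mul, aeval_X, Sum.elim_inl, nsmul_eq_mul] at h
  rw [h]
  norm_num
theorem euler2 (X : Fam k J S c 3) (y : J → K) (x q : Fin (c + 3) → K) :
    G2 X y x x q = 2 * G1 X y x q := by
  unfold G2 G1
  rw [Finset.sum_comm, Finset.mul_sum]
  refine Finset.sum_congr rfl fun i' _ => ?_
  have h := congrArg (aeval (Sum.elim x y)) (C7_euler2 X i')
  rw [map_sum] at h
  simp only [map_mul, aeval_X, Sum.elim_inl, map_ofNat] at h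
  rw [mul_left_comm, ← h, Finset.mul_sum]
  exact Finset.sum_congr rfl fun i _ => by ring
theorem G2_symm (X : Fam k J S c N) (y : J → K) (x q q' : Fin (c + N) → K) :
    G2 X y x q q' = G2 X y x q' q := by
  unfold G2
  rw [Finset.sum_comm]
  refine Finset.sum_congr rfl fun i _ => Finset.sum_congr rfl fun i' _ => ?_
  rw [C7_comm, mul_comm (q i')]

end Pool.Agent.LibPC60
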