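import Pool.Agent.LibPC60.C4
import Pool.Agent.LibPC60.C7

/-!
[PC60 C10] independence of the gradients. Plan:
contrapositive: a relation `∑ μ_j ∇Λ_j + ν ∇F = 0`, `(μ, ν) ≠ 0`, gives the nonzero vector `(ν x, 2 μ)` (if `ν ≠ 0`; `x = u.z ∘ inl ≠ 0`) or `(0, μ)` (if `ν =
0`) in the kernel of the matrix of values of `HM X`: Hess(x) x = 2 ∇F (`euler2` for `q` = unit vectors, or the Euler formula),
`∑_i ∂_iΛ_j x_i = Λ_j(x) = 0` (`lam_lin`, `u.hΛ`). So the determinant `aeval u.z (HH X)` is zero (`Matrix.exists_mulVec_eq_zero_iff`, `RingHom.map_det`).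
-/

open scoped Classical
open MvPolynomial

set_option linter.unusedSectionVars false

namespace Pool.Agent.LibPC60

open Pool.Agent.LibBH2 Pool.Agent.LibQC8

variable {k J S : Type} [Field k] {c N : ℕ} {K : Type} [Field K] [Algebra k K]

/-- [C10] if the bordered Hessian does not vanish, then the gradients of the `Λ_j` and of `F` are
linearly independent -/
theorem indep_of_HH (X : Fam k J S c 3) (u : Pt X K) (h : aeval u.z (HH X) ≠ 0) :
    LinearIndependent K (Sum.elim (fun (j : Fin c) (i : Fin (c + 3)) =>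
      aeval u.z (pderiv (Sum.inl i) (X.Λ j)))
      (fun (_ : Unit) (i : Fin (c + 3)) => aeval u.z (pderiv (Sum.inl i) X.F))) := by
  have hz : u.z = Sum.elim (fun i => u.z (Sum.inl i)) (fun j => u.z (Sum.inr j)) := by
    funext i
    rcases i with i | j <;> rfl
  have hdet : aeval u.z (HH X) = ((HM X).map (aeval u.z)).det := by
    unfold HH
    exact AlgHom.map_det (aeval u.z) (HM X)
  have key : ∀ v : Fin (c + 3) ⊕ Fin c → K, ((HM X).map (aeval u.z)).mulVec v = 0 → v = 0 := by
    intro v hv
    by_contra hne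
    exact h (hdet.trans (Matrix.exists_mulVec_eq_zero_iff.1 ⟨v, hne, hv⟩))
  -- the Euler formula for the second derivatives
  have hess : ∀ i, ∑ i', u.z (Sum.inl i') *
      aeval u.z (pderiv (Sum.inl i) (pderiv (Sum.inl i') X.F)) =
      2 * aeval u.z (pderiv (Sum.inl i) X.F) := by
    intro i
    have h1 := euler2 (K := K) X (fun j => u.z (Sum.inr j)) (fun i => u.z (Sum.inl i))
      (Pi.single i 1)
    rw [G2_symm] at h1
    unfold G1 G2 at h1
    rw [← hz] at h1
    simpa [Pi.single_apply, Finset.sum_ite_eq, ite_mul, Finset.sum_const_zero] using h1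
  have lin : ∀ j, ∑ i, u.z (Sum.inl i) * aeval u.z (pderiv (Sum.inl i) (X.Λ j)) = 0 := by
    intro j
    have h1 := lam_lin (K := K) X j (fun i => u.z (Sum.inl i)) (fun i => u.z (Sum.inl i))
      (fun j => u.z (Sum.inr j))
    rw [← hz, u.hΛ j] at h1
    exact h1.symm
  have ker : ∀ (a : K) (b : Fin c → K),
      (∀ i, ∑ j, b j * aeval u.z (pderiv (Sum.inl i) (X.Λ j)) +
        a * (2 * aeval u.z (pderiv (Sum.inl i) X.F)) = 0) →
      Sum.elim (fun i => a * u.z (Sum.inl i)) b = (0 : Fin (c + 3) ⊕ Fin c → K) := by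
    intro a b hab
    apply key
    funext r
    rcases r with i | j
    · have h1 : ∑ x : Fin (c + 3), aeval u.z (pderiv (Sum.inl i) (pderiv (Sum.inl x) X.F)) *
          (a * u.z (Sum.inl x)) = a * (2 * aeval u.z (pderiv (Sum.inl i) X.F)) := by
        rw [← hess i, Finset.mul_sum]
        exact Finset.sum_congr rfl fun x _ => by ring
      have h2 : ∑ x : Fin c, aeval u.z (pderiv (Sum.inl i) (X.Λ x)) * b x =
          ∑ j, b j * aeval u.z (pderiv (Sum.inl i) (X.Λ j)) :=
        Finset.sum_congr rfl fun x _ => mul_comm _ _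
      have h3 := hab i
      simp only [Matrix.mulVec, dotProduct, Fintype.sum_sum_type, Matrix.map_apply, HM,
        Matrix.fromBlocks_apply₁₁, Matrix.fromBlocks_apply₁₂, Sum.elim_inl, Sum.elim_inr,
        Pi.zero_apply]
      rw [h1, h2, add_comm]
      exact h3
    · have h1 : ∑ x : Fin (c + 3), aeval u.z (pderiv (Sum.inl x) (X.Λ j)) *
          (a * u.z (Sum.inl x)) = 0 := by
        rw [← mul_zero a, ← lin j, Finset.mul_sum]
        exact Finset.sum_congr rfl fun x _ => by ring
      simp only [Matrix.mulVec, dotProduct, Fintype.sum_sum_type, Matrix.map_apply, HM,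
        Matrix.fromBlocks_apply₂₁, Matrix.fromBlocks_apply₂₂, Sum.elim_inl, Sum.elim_inr,
        Pi.zero_apply, Matrix.zero_apply, map_zero, zero_mul, Finset.sum_const_zero, add_zero]
      exact h1
  rw [Fintype.linearIndependent_iff]
  intro g hg
  have hrel : ∀ i, ∑ j, g (Sum.inl j) * aeval u.z (pderiv (Sum.inl i) (X.Λ j)) +
      g (Sum.inr ()) * aeval u.z (pderiv (Sum.inl i) X.F) = 0 := by
    intro i
    have := congrFun hg i
    simpa [Fintype.sum_sum_type, Finset.sum_apply] using this
  have hν : g (Sum.inr ()) = 0 := by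
    have h1 := ker (g (Sum.inr ())) (fun j => 2 * g (Sum.inl j)) (by
      intro i
      have h2 := hrel i
      have h3 : ∑ j, 2 * g (Sum.inl j) * aeval u.z (pderiv (Sum.inl i) (X.Λ j)) =
          2 * ∑ j, g (Sum.inl j) * aeval u.z (pderiv (Sum.inl i) (X.Λ j)) := by
        rw [Finset.mul_sum]
        exact Finset.sum_congr rfl fun x _ => by ring
      rw [h3]
      linear_combination 2 * h2)
    obtain ⟨i, hi⟩ := u.x_ne
    have h2 := congrFun h1 (Sum.inl i)
    simp only [Sum.elim_inl, Pi.zero_apply] at h2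
    exact (mul_eq_zero.1 h2).resolve_right hi
  have hμ : (fun j => g (Sum.inl j)) = (0 : Fin c → K) := by
    have h1 := ker 0 (fun j => g (Sum.inl j)) (by
      intro i
      have h2 := hrel i
      rw [hν, zero_mul] at h2
      rw [zero_mul]
      exact h2)
    funext j
    have h2 := congrFun h1 (Sum.inr j)
    simpa using h2
  intro r
  rcases r with j | x
  · exact congrFun hμ j
  · cases x
    exact hν

end Pool.Agent.LibPC60
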