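import Pool.Agent.LibPC60.RowDefs

/-!
[PC60 C11] Pluecker coordinates of a line. Plan:
let `B a b` be the matrix in the statement. Choose vectors `w_j : C → K` (`j : R`) such that `w_j, x, r` is a basis of `C → K` (`x, r` independent, `card C =
card R + 2`), and let `P` be the `C × (R ⊕ Fin 2)` matrix with these columns (invertible). Then `B a b * P` (reindexed by `f`)
is block triangular: the rows of `A` times `x`, `r` are zero; so `det (B a b) * det P = det (A w) * (x a * r b - x b * r a)` with `A w` the `R × R` matrix `∑_i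
A j i w_j' i` (`Matrix.det_fromBlocks_zero₁₂`, `Matrix.det_fin_two`). `det (A w) ≠ 0`: a combination of the `w_j` killed by `A` lies in the
kernel of `A`, which is two-dimensional (rank of `A` is `card R`), hence spanned by `x, r`, contradiction. `κ = det P / det (A w)`.
-/

open scoped Classical
open MvPolynomial

set_option linter.unusedSectionVars false

namespace Pool.Agent.LibPC60

open Pool.Agent.LibBH2 Pool.Agent.LibQC8

variable {k J S : Type} [Field k] {c N : ℕ} {K : Type} [Field K] [Algebra k K]

/-- [C11] Plücker coordinates of a line and the minors of its equations -/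
theorem plucker {R C : Type} [Fintype R] [Fintype C] (A : R → (C → K))
    (hA : LinearIndependent K A) (x r : C → K) (hx : ∀ j, ∑ i, A j i * x i = 0)
    (hr : ∀ j, ∑ i, A j i * r i = 0) (hxr : LinearIndependent K ![x, r])
    (f : (R ⊕ Fin 2) ≃ C) :
    ∃ κ : K, κ ≠ 0 ∧ ∀ a b, x a * r b - x b * r a = κ * Matrix.det
      (Matrix.of fun (i j : R ⊕ Fin 2) =>
        (Sum.elim A ![Pi.single a 1, Pi.single b 1] i : C → K) (f j)) := by
  have hinj : Function.Injective (Fintype.linearCombination K A) :=
    linearIndependent_iff_injective_fintypeLinearCombination.1 hA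
  obtain ⟨h, hh⟩ := LinearMap.exists_leftInverse_of_injective (Fintype.linearCombination K A)
    (LinearMap.ker_eq_bot.2 hinj)
  obtain ⟨w, hw⟩ : ∃ w : R → C → K, w = fun j i => h (Pi.single i 1) j := ⟨_, rfl⟩
  have hAw : ∀ l j, ∑ i, A l i * w j i = if l = j then 1 else 0 := by
    intro l j
    have h1 : h (A l) = Pi.single l 1 := by
      have h2 : Fintype.linearCombination K A (Pi.single l 1) = A l := by
        rw [Fintype.linearCombination_apply_single, one_smul]
      rw [← h2, ← LinearMap.comp_apply, hh, LinearMap.id_apply]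
    have h3 : h (A l) = ∑ i, A l i • h (Pi.single i 1) := by
      conv_lhs => rw [pi_eq_sum_univ' (A l)]
      rw [map_sum]
      refine Finset.sum_congr rfl fun i _ => ?_
      rw [map_smul]
    have h4 := congrFun (h3.symm.trans h1) j
    rw [Finset.sum_apply, Pi.single_apply] at h4
    rw [hw]
    simp only [Pi.smul_apply, smul_eq_mul] at h4
    rw [h4]
    simp only [eq_comm]
  obtain ⟨P, hP⟩ : ∃ P : Matrix (R ⊕ Fin 2) (R ⊕ Fin 2) K,
    P = Matrix.of fun i j => (Sum.elim w ![x, r] j : C → K) (f i) := ⟨_, rfl⟩
  have hprod : ∀ (u v : C → K), ∑ t : R ⊕ Fin 2, u (f t) * v (f t) = ∑ i, u i * v i :=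
    fun u v => Equiv.sum_comp f fun i => u i * v i
  have hdet : P.det ≠ 0 := by
    intro h0
    obtain ⟨v, hv, hv0⟩ := Matrix.exists_mulVec_eq_zero_iff.2 h0
    have h1 : ∀ i : C, ∑ j : R, w j i * v (Sum.inl j) +
        (x i * v (Sum.inr 0) + r i * v (Sum.inr 1)) = 0 := by
      intro i
      have h2 := congrFun hv0 (f.symm i)
      rw [Matrix.mulVec, dotProduct, Fintype.sum_sum_type, hP] at h2
      simpa using h2
    have h3 : ∀ l, v (Sum.inl l) = 0 := by
      intro l
      have h4 : ∑ i, A l i * (∑ j : R, w j i * v (Sum.inl j) +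
          (x i * v (Sum.inr 0) + r i * v (Sum.inr 1))) = 0 :=
        Finset.sum_eq_zero fun i _ => by rw [h1 i, mul_zero]
      have h5 : ∑ i, A l i * (∑ j : R, w j i * v (Sum.inl j) +
          (x i * v (Sum.inr 0) + r i * v (Sum.inr 1))) =
          ∑ j : R, (∑ i, A l i * w j i) * v (Sum.inl j) +
          ((∑ i, A l i * x i) * v (Sum.inr 0) + (∑ i, A l i * r i) * v (Sum.inr 1)) := by
        simp only [mul_add, Finset.mul_sum, Finset.sum_mul, Finset.sum_add_distrib]
        rw [Finset.sum_comm]
        simp only [mul_assoc]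
      rw [h5, hx, hr] at h4
      simp only [hAw, zero_mul, add_zero, ite_mul, one_mul, Finset.sum_ite_eq,
        Finset.mem_univ, if_true] at h4
      exact h4
    have h6 : v (Sum.inr 0) • x + v (Sum.inr 1) • r = 0 := by
      funext i
      have h7 := h1 i
      rw [Finset.sum_eq_zero fun j _ => by rw [h3 j, mul_zero], zero_add] at h7
      rw [Pi.add_apply, Pi.smul_apply, Pi.smul_apply, smul_eq_mul, smul_eq_mul, Pi.zero_apply,
        mul_comm _ (x i), mul_comm _ (r i)]
      exact h7
    have h8 := LinearIndependent.pair_iff.1 hxr _ _ h6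
    refine hv ?_
    funext t
    rcases t with l | t
    · exact h3 l
    · fin_cases t
      · exact h8.1
      · exact h8.2
  refine ⟨P.det, hdet, fun a b => ?_⟩
  have hBP : (Matrix.of fun (i j : R ⊕ Fin 2) =>
      (Sum.elim A ![Pi.single a 1, Pi.single b 1] i : C → K) (f j)) * P =
      Matrix.fromBlocks 1 0 (Matrix.of fun i j => w j (![a, b] i))
        !![x a, r a; x b, r b] := by
    ext i j
    rw [Matrix.mul_apply, hP]
    simp only [Matrix.of_apply]
    rw [hprod (Sum.elim A ![Pi.single a 1, Pi.single b 1] i) (Sum.elim w ![x, r] j)]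
    rcases i with i | i
    · rcases j with j | j
      · rw [Matrix.fromBlocks_apply₁₁, Matrix.one_apply]
        exact hAw i j
      · rw [Matrix.fromBlocks_apply₁₂, Matrix.zero_apply]
        fin_cases j
        · exact hx i
        · exact hr i
    · rcases j with j | j
      · rw [Matrix.fromBlocks_apply₂₁]
        fin_cases i <;> simp [Pi.single_apply]
      · rw [Matrix.fromBlocks_apply₂₂]
        fin_cases i <;> fin_cases j <;> simp [Pi.single_apply]
  have h9 := congrArg Matrix.det hBP
  rw [Matrix.det_mul, Matrix.det_fromBlocks_zero₁₂, Matrix.det_one, one_mul,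
    Matrix.det_fin_two] at h9
  rw [mul_comm P.det, h9]
  simp
  ring

end Pool.Agent.LibPC60
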