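import Pool.Agent.LibPC60.C4
import Pool.Agent.LibPC60.C10
import Pool.Agent.LibPC60.C11

/-!
[PC60 C12] tau are the Pluecker coordinates of the tangent line. Plan:
`plucker` with `R = Fin c ⊕ Unit`, `A` = the family of `indep_of_HH`, `x = u.z ∘ inl`, `r`; `f = e.trans finSumFinEquiv` for the obvious `e : (Fin c ⊕ Unit) ⊕
Fin 2 ≃ Fin c ⊕ Fin 3`. The matrix of values of `TM X a b` is the reindexed matrix (`Matrix.det_submatrix_equiv_self`; `RingHom.map_det`).
Hypotheses: `∑ ∂_iΛ_j x_i = Λ_j(x) = 0` (`lam_lin`, `u.hΛ`), `G1 x x = 3 F(x) = 0` (`euler1`), for `r` from `hr` (`lam_lin`) and `hr'`.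
-/

open scoped Classical
open MvPolynomial

set_option linter.unusedSectionVars false

namespace Pool.Agent.LibPC60

open Pool.Agent.LibBH2 Pool.Agent.LibQC8

variable {k J S : Type} [Field k] {c N : ℕ} {K : Type} [Field K] [Algebra k K]

private def pc12_e3 : Unit ⊕ Fin 2 ≃ Fin 3 where
  toFun := Sum.elim (fun _ => 0) ![1, 2]
  invFun := ![Sum.inl (), Sum.inr 0, Sum.inr 1]
  left_inv := by
    rintro (⟨⟩ | i)
    · rfl
    · fin_cases i <;> rfl
  right_inv := by
    intro i
    fin_cases i <;> rfl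

/-- [C12] if the bordered Hessian does not vanish, the `tau a b` are the Plücker coordinates of the
tangent line -/
theorem tau_plucker (X : Fam k J S c 3) (u : Pt X K) (h : aeval u.z (HH X) ≠ 0)
    (r : Fin (c + 3) → K)
    (hr : ∀ j, aeval (Sum.elim r (fun j => u.z (Sum.inr j))) (X.Λ j) = 0)
    (hr' : G1 X (fun j => u.z (Sum.inr j)) (fun i => u.z (Sum.inl i)) r = 0)
    (hi : LinearIndependent K ![fun i => u.z (Sum.inl i), r]) :
    ∃ κ : K, κ ≠ 0 ∧ ∀ a b, u.z (Sum.inl a) * r b - u.z (Sum.inl b) * r a =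
      κ * aeval u.z (tau X a b) := by
  have hz : Sum.elim (fun i => u.z (Sum.inl i)) (fun j => u.z (Sum.inr j)) = u.z := by
    funext s
    rcases s with s | s <;> rfl
  let e : (Fin c ⊕ Unit) ⊕ Fin 2 ≃ Fin c ⊕ Fin 3 :=
    (Equiv.sumAssoc _ _ _).trans (Equiv.sumCongr (Equiv.refl _) pc12_e3)
  obtain ⟨κ, hκ, hP⟩ := plucker _ (indep_of_HH X u h) (fun i => u.z (Sum.inl i)) r
    (by
      rintro (j | j)
      · have h1 := lam_lin X j (fun i => u.z (Sum.inl i)) (fun i => u.z (Sum.inl i))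
          (fun j => u.z (Sum.inr j))
        rw [hz, u.hΛ j] at h1
        rw [h1]
        exact Finset.sum_congr rfl fun i _ => mul_comm _ _
      · have h1 := euler1 X (fun j => u.z (Sum.inr j)) (fun i => u.z (Sum.inl i))
        unfold G1 at h1
        rw [hz, u.hF, mul_zero] at h1
        rw [← h1]
        exact Finset.sum_congr rfl fun i _ => mul_comm _ _)
    (by
      rintro (j | j)
      · have h1 := lam_lin X j r (fun i => u.z (Sum.inl i)) (fun j => u.z (Sum.inr j))
        rw [hz, hr j] at h1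
        rw [h1]
        exact Finset.sum_congr rfl fun i _ => mul_comm _ _
      · unfold G1 at hr'
        rw [hz] at hr'
        rw [← hr']
        exact Finset.sum_congr rfl fun i _ => mul_comm _ _) hi (e.trans finSumFinEquiv)
  refine ⟨κ, hκ, fun a b => ?_⟩
  rw [hP a b]
  congr 1
  unfold tau
  rw [AlgHom.map_det, ← Matrix.det_submatrix_equiv_self e]
  have hM : (((aeval u.z : MvPolynomial (Fin (c + 3) ⊕ J) k →ₐ[k] K).mapMatrix
        (TM X a b)).submatrix e e) =
      Matrix.of fun (i j : (Fin c ⊕ Unit) ⊕ Fin 2) =>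
        (Sum.elim (Sum.elim (fun (j : Fin c) (i : Fin (c + 3)) =>
      aeval u.z (pderiv (Sum.inl i) (X.Λ j)))
      (fun (_ : Unit) (i : Fin (c + 3)) => aeval u.z (pderiv (Sum.inl i) X.F)))
          ![Pi.single a 1, Pi.single b 1] i : Fin (c + 3) → K) ((e.trans finSumFinEquiv) j) := by
    ext i j
    rw [Matrix.submatrix_apply, AlgHom.mapMatrix_apply, Matrix.map_apply, Matrix.of_apply]
    rcases i with (i | i) | i
    · rfl
    · rfl
    · fin_cases i
      · change aeval u.z (if finSumFinEquiv (e j) = a then (1 : MvPolynomial (Fin (c + 3) ⊕ J) k)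
          else 0) = (Pi.single a 1 : Fin (c + 3) → K) (finSumFinEquiv (e j))
        rw [Pi.single_apply]
        split_ifs <;> simp
      · change aeval u.z (if finSumFinEquiv (e j) = b then (1 : MvPolynomial (Fin (c + 3) ⊕ J) k)
          else 0) = (Pi.single b 1 : Fin (c + 3) → K) (finSumFinEquiv (e j))
        rw [Pi.single_apply]
        split_ifs <;> simp
  rw [hM]
  have key : ∀ (i1 i2 : DecidableEq ((Fin c ⊕ Unit) ⊕ Fin 2)) (d1 d2 : DecidableEq (Fin (c + 3)))
      (A : Fin c ⊕ Unit → (Fin (c + 3) → K)) (f : (Fin c ⊕ Unit) ⊕ Fin 2 → Fin (c + 3)),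
      @Matrix.det _ i1 _ K _ (Matrix.of fun (i j : (Fin c ⊕ Unit) ⊕ Fin 2) =>
        (Sum.elim A ![@Pi.single (Fin (c + 3)) (fun _ => K) _ d1 a 1,
          @Pi.single (Fin (c + 3)) (fun _ => K) _ d1 b 1] i : Fin (c + 3) → K) (f j)) =
      @Matrix.det _ i2 _ K _ (Matrix.of fun (i j : (Fin c ⊕ Unit) ⊕ Fin 2) =>
        (Sum.elim A ![@Pi.single (Fin (c + 3)) (fun _ => K) _ d2 a 1,
          @Pi.single (Fin (c + 3)) (fun _ => K) _ d2 b 1] i : Fin (c + 3) → K) (f j)) := by
    intro i1 i2 d1 d2 A f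
    rw [Subsingleton.elim i2 i1, Subsingleton.elim d2 d1]
  exact key _ _ _ _ _ _

end Pool.Agent.LibPC60
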