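import Pool.Agent.LibPC60.C12

/-!
[PC60 C13] a second point on the tangent line. Plan:
the kernel of the `c + 1` linear forms of `indep_of_HH` on `Fin (c+3) → K` has dimension `2` (at least two is enough: rank-nullity), so it contains a `q` which
is not a multiple of `x = u.z ∘ inl`. `tau_ne`: for this `q`, `tau_plucker` gives `x_a q_b - x_b q_a = κ τ_ab`, and some `x_a q_b - x_b q_a ≠ 0` as
`x, q` are linearly independent.
-/

open scoped Classical
open MvPolynomial

set_option linter.unusedSectionVars false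

namespace Pool.Agent.LibPC60

open Pool.Agent.LibBH2 Pool.Agent.LibQC8

variable {k J S : Type} [Field k] {c N : ℕ} {K : Type} [Field K] [Algebra k K]

/-- [C13] a second point on the tangent line; some `tau` does not vanish -/
theorem exists_tangent (X : Fam k J S c 3) (u : Pt X K) (h : aeval u.z (HH X) ≠ 0) :
    ∃ q : Fin (c + 3) → K,
      (∀ j, aeval (Sum.elim q (fun j => u.z (Sum.inr j))) (X.Λ j) = 0) ∧
      G1 X (fun j => u.z (Sum.inr j)) (fun i => u.z (Sum.inl i)) q = 0 ∧
      LinearIndependent K ![fun i => u.z (Sum.inl i), q] := by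
  classical
  set x : Fin (c + 3) → K := fun i => u.z (Sum.inl i) with hxdef
  set y : J → K := fun j => u.z (Sum.inr j) with hydef
  have hz : Sum.elim x y = u.z := by
    funext i
    cases i <;> rfl
  have hx0 : x ≠ 0 := by
    obtain ⟨i, hi⟩ := u.x_ne
    intro h0
    exact hi (congrFun h0 i)
  -- the linear map
  let A : Fin c ⊕ Unit → (Fin (c + 3) → K) :=
    Sum.elim (fun (j : Fin c) (i : Fin (c + 3)) => aeval u.z (pderiv (Sum.inl i) (X.Λ j)))
      (fun (_ : Unit) (i : Fin (c + 3)) => aeval u.z (pderiv (Sum.inl i) X.F))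
  let M : (Fin (c + 3) → K) →ₗ[K] (Fin c ⊕ Unit → K) := (Matrix.of A).mulVecLin
  have hrank : Module.finrank K (LinearMap.range M) ≤ c + 1 := by
    have h1 := Submodule.finrank_le (LinearMap.range M)
    simpa using h1
  have hker : 2 ≤ Module.finrank K (LinearMap.ker M) := by
    have h1 := LinearMap.finrank_range_add_finrank_ker M
    rw [Module.finrank_fin_fun] at h1
    omega
  have hq : ∃ q ∈ LinearMap.ker M, q ∉ Submodule.span K {x} := by
    by_contra hcon
    push Not at hcon
    have h1 : LinearMap.ker M ≤ Submodule.span K {x} := fun q hq => hcon q hq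
    have h2 := Submodule.finrank_mono h1
    have h3 := finrank_span_singleton (K := K) hx0
    omega
  obtain ⟨q, hqk, hqs⟩ := hq
  have hq1 : M q = 0 := hqk
  have hq2 : ∀ r : Fin c ⊕ Unit, ∑ i, A r i * q i = 0 := by
    intro r
    have h1 := congrFun hq1 r
    simpa [M, Matrix.mulVec, dotProduct] using h1
  refine ⟨q, ?_, ?_, ?_⟩
  · intro j
    rw [lam_lin X j q x y]
    rw [← hq2 (Sum.inl j)]
    refine Finset.sum_congr rfl fun i _ => ?_
    rw [hz, mul_comm]
    rfl
  · unfold G1
    rw [← hq2 (Sum.inr ())]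
    refine Finset.sum_congr rfl fun i _ => ?_
    rw [hz, mul_comm]
    rfl
  · rw [LinearIndependent.pair_iff]
    intro s t hst
    by_cases ht : t = 0
    · subst ht
      rw [zero_smul, add_zero] at hst
      exact ⟨(smul_eq_zero.1 hst).resolve_right hx0, rfl⟩
    · exfalso
      apply hqs
      rw [Submodule.mem_span_singleton]
      refine ⟨-(t⁻¹ * s), ?_⟩
      have h1 : t • q = -(s • x) := by
        exact eq_neg_of_add_eq_zero_right hst
      have h2 : q = t⁻¹ • (t • q) := by
        rw [smul_smul, inv_mul_cancel₀ ht, one_smul]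
      rw [h2, h1, smul_neg, smul_smul, neg_smul]
theorem tau_ne (X : Fam k J S c 3) (u : Pt X K) (h : aeval u.z (HH X) ≠ 0) :
    ∃ a b, aeval u.z (tau X a b) ≠ 0 := by
  obtain ⟨q, hq1, hq2, hq3⟩ := exists_tangent X u h
  obtain ⟨κ, hκ, hpl⟩ := tau_plucker X u h q hq1 hq2 hq3
  by_contra hcon
  push Not at hcon
  have h0 : ∀ a b, u.z (Sum.inl a) * q b - u.z (Sum.inl b) * q a = 0 := by
    intro a b
    rw [hpl a b, hcon a b, mul_zero]
  obtain ⟨i, hi⟩ := u.x_ne
  rw [LinearIndependent.pair_iff] at hq3
  have h1 := hq3 (q i) (-(u.z (Sum.inl i))) (by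
    funext b
    have h2 := h0 i b
    simp only [Pi.add_apply, Pi.smul_apply, smul_eq_mul, Pi.zero_apply]
    linear_combination -h2)
  exact hi (neg_eq_zero.1 h1.2)

end Pool.Agent.LibPC60
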