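import Pool.Agent.LibPC60.C6
import Pool.Agent.LibPC60.C7
import Pool.Agent.LibPC60.C13

/-!
[PC60 C14] tangent line and residual point. Plan:
`q` from `exists_tangent`, `g₃ = F(q)`, `g₂ = G2 x q q / 2`. By `taylor`: `F(s x + t q) = t² (s g₂ + t g₃)`. If `g₂ = 0`: `TriW` with `e = x, f = q`, `α = 1`,
`β = 0`, `a = - g₃` (left alternative). Otherwise `r = g₃ x - g₂ q` (a `Pt X K`: `Λ_j(r) = 0` by `lam_lin`, `F(r) = 0`, nonzero),
`TriW` with `α = (1, 1, g₃)`, `β = (0, 0, -g₂)`, `a = -1`: `∏ = (-t)(-t)(-g₂ s - g₃ t)`. `tau_plucker` for the vector `r` (`G1` is linear in the second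
argument).
-/

open scoped Classical
open MvPolynomial

set_option linter.unusedSectionVars false

namespace Pool.Agent.LibPC60

open Pool.Agent.LibBH2 Pool.Agent.LibQC8

variable {k J S : Type} [Field k] {c N : ℕ} {K : Type} [Field K] [Algebra k K]

private theorem sumElim_eta {X : Fam k J S c N} (u : Pt X K) :
    Sum.elim (fun i => u.z (Sum.inl i)) (fun j => u.z (Sum.inr j)) = u.z := by
  funext i
  rcases i with i | i <;> rfl

private theorem lam_comb (X : Fam k J S c N) (j : Fin c) (y : J → K) (e f : Fin (c + N) → K)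
    (s t : K) (he : aeval (Sum.elim e y) (X.Λ j) = 0) (hf : aeval (Sum.elim f y) (X.Λ j) = 0) :
    aeval (Sum.elim (s • e + t • f) y) (X.Λ j) = 0 := by
  rw [lam_lin X j (s • e + t • f) 0 y]
  rw [lam_lin X j e 0 y] at he
  rw [lam_lin X j f 0 y] at hf
  have : ∑ i, (s • e + t • f) i * aeval (Sum.elim 0 y) (pderiv (Sum.inl i) (X.Λ j)) =
      s * ∑ i, e i * aeval (Sum.elim 0 y) (pderiv (Sum.inl i) (X.Λ j)) +
        t * ∑ i, f i * aeval (Sum.elim 0 y) (pderiv (Sum.inl i) (X.Λ j)) := by
    rw [Finset.mul_sum, Finset.mul_sum, ← Finset.sum_add_distrib]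
    refine Finset.sum_congr rfl fun i _ => ?_
    simp only [Pi.add_apply, Pi.smul_apply, smul_eq_mul]
    ring
  rw [this, he, hf]
  ring

private theorem G1_comb (X : Fam k J S c N) (y : J → K) (x e f : Fin (c + N) → K) (s t : K) :
    G1 X y x (s • e + t • f) = s * G1 X y x e + t * G1 X y x f := by
  unfold G1
  rw [Finset.mul_sum, Finset.mul_sum, ← Finset.sum_add_distrib]
  refine Finset.sum_congr rfl fun i _ => ?_
  simp only [Pi.add_apply, Pi.smul_apply, smul_eq_mul]
  ring

/-- [C14] tangent line and residual point over any field -/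
theorem residual [CharZero k] (X : Fam k J S c 3) (u : Pt X K) (h : aeval u.z (HH X) ≠ 0) :
    Tri X (fun j => u.z (Sum.inr j)) (fun _ i => u.z (Sum.inl i)) ∨
    ∃ (r : Pt X K) (κ : K), κ ≠ 0 ∧ (∀ j, r.z (Sum.inr j) = u.z (Sum.inr j)) ∧
      Tri X (fun j => u.z (Sum.inr j)) ![fun i => u.z (Sum.inl i), fun i => u.z (Sum.inl i),
        fun i => r.z (Sum.inl i)] ∧
      ∀ a b, u.z (Sum.inl a) * r.z (Sum.inl b) - u.z (Sum.inl b) * r.z (Sum.inl a) =
        κ * aeval u.z (tau X a b) := by
  have : CharZero K := charZero_of_injective_algebraMap (algebraMap k K).injective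
  obtain ⟨q, hqΛ, hqG, hqi⟩ := exists_tangent X u h
  set x : Fin (c + 3) → K := fun i => u.z (Sum.inl i) with hx
  set y : J → K := fun j => u.z (Sum.inr j) with hy
  have heta : Sum.elim x y = u.z := sumElim_eta u
  have hFx : aeval (Sum.elim x y) X.F = 0 := by rw [heta]; exact u.hF
  have hΛx : ∀ j, aeval (Sum.elim x y) (X.Λ j) = 0 := fun j => by rw [heta]; exact u.hΛ j
  obtain ⟨g2, hg2⟩ : ∃ g2 : K, G2 X y x q q = 2 * g2 := ⟨G2 X y x q q / 2, by
    field_simp⟩
  obtain ⟨g3, hg3⟩ : ∃ g3 : K, aeval (Sum.elim q y) X.F = g3 := ⟨_, rfl⟩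
  have hT : ∀ s t : K, aeval (Sum.elim (s • x + t • q) y) X.F = t ^ 2 * (s * g2 + t * g3) := by
    intro s t
    have h2 : (2 : K) ≠ 0 := two_ne_zero
    apply mul_left_cancel₀ h2
    rw [taylor X y x q s t, hFx, hqG, hg2, hg3]
    ring
  by_cases hg : g2 = 0
  · left
    refine ⟨x, q, hqi, hΛx, hqΛ, fun _ => 1, fun _ => 0, -g3, ?_, ?_⟩
    · intro n
      refine ⟨Or.inl one_ne_zero, ?_⟩
      simp
    · intro s t
      rw [hT, hg]
      simp only [Finset.prod_const, Finset.card_univ, Fintype.card_fin]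
      ring
  · right
    have hind := LinearIndependent.pair_iff.mp hqi
    set r : Fin (c + 3) → K := g3 • x + (-g2) • q with hr
    have hrF : aeval (Sum.elim r y) X.F = 0 := by
      rw [hr, hT]
      ring
    have hrΛ : ∀ j, aeval (Sum.elim r y) (X.Λ j) = 0 := fun j =>
      lam_comb X j y x q g3 (-g2) (hΛx j) (hqΛ j)
    have hrG : G1 X y x r = 0 := by
      rw [hr, G1_comb, hqG, euler1 X y x, hFx]
      ring
    have hri : LinearIndependent K ![x, r] := by
      rw [LinearIndependent.pair_iff]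
      intro s t hst
      have h1 : (s + t * g3) • x + (t * (-g2)) • q = 0 := by
        rw [← hst, hr]
        module
      obtain ⟨ha, hb⟩ := hind _ _ h1
      have ht : t = 0 := by
        rcases mul_eq_zero.mp hb with h | h
        · exact h
        · exact absurd (neg_eq_zero.mp h) hg
      refine ⟨?_, ht⟩
      rw [ht] at ha
      simpa using ha
    have hrne : ∃ i, r i ≠ 0 := by
      by_contra hcon
      push Not at hcon
      have hr0 : r = 0 := funext hcon
      have := (LinearIndependent.pair_iff.mp hri) 0 1 (by rw [hr0]; simp)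
      exact one_ne_zero this.2
    obtain ⟨κ, hκ, hκ'⟩ := tau_plucker X u h r hrΛ hrG hri
    refine ⟨⟨Sum.elim r y, ?_, ?_, ?_, hrΛ, hrF⟩, κ, hκ, fun j => rfl, ?_, fun a b => hκ' a b⟩
    · obtain ⟨i, hi⟩ := hrne
      exact ⟨i, hi⟩
    · exact u.y_ne
    · exact u.hE
    · refine ⟨x, q, hqi, hΛx, hqΛ, ![1, 1, g3], ![0, 0, -g2], -1, ?_, ?_⟩
      · intro n
        fin_cases n
        · refine ⟨Or.inl one_ne_zero, ?_⟩
          simp [hx]
        · refine ⟨Or.inl one_ne_zero, ?_⟩
          simp [hx]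
        · refine ⟨Or.inr (neg_ne_zero.mpr hg), ?_⟩
          rfl
      · intro s t
        rw [hT]
        simp only [Fin.prod_univ_three, Matrix.cons_val_zero, Matrix.cons_val_one,
          Matrix.cons_val_two, Matrix.head_cons, Matrix.tail_cons]
        simp
        ring

end Pool.Agent.LibPC60
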