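import Pool.Agent.LibPC60.RowDefs

/-!
[PC60 C15] binary forms split over an algebraically closed field. Plan:
let `P = ∑ a n X^n` in `Ω[X]` (`t/s` as the variable), of degree `d ≤ N`. `P = 0`: `b = 0`, `α = 1`, `β = 0`. Otherwise `P = lc * ∏ (X - ρ_j)`
(`IsAlgClosed.splits`), and for `s ≠ 0` the form is `s^N P(t/s) = lc * s^(N-d) * ∏ (t - ρ_j s)`; so take `d` factors with `(α, β) = (1, ρ_j)` (`ρ_j s - t`)
and `N - d` factors `(α, β) = (0, 1)` (`s`), constant `b = ± lc`. For `s = 0` compare the coefficient of `t^N`. Or: induction on `N`: a form of degree `N + 1`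
has a zero `(α, β) ≠ 0`, divide by `β s - α t`.
-/

open scoped Classical
open MvPolynomial

set_option linter.unusedSectionVars false

namespace Pool.Agent.LibPC60

open Pool.Agent.LibBH2 Pool.Agent.LibQC8

private theorem C15_step {Ω : Type} [Field Ω] (N : ℕ) (Q : Polynomial Ω) (hQ : Q.natDegree ≤ N)
    (ρ s t : Ω) :
    ∑ n ∈ Finset.range (N + 2), (Q * (Polynomial.X - Polynomial.C ρ)).coeff n *
        s ^ (N + 1 - n) * t ^ n =
      (t - ρ * s) * ∑ n ∈ Finset.range (N + 1), Q.coeff n * s ^ (N - n) * t ^ n := by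
  have h1 : ∑ n ∈ Finset.range (N + 2), (Q * (Polynomial.X - Polynomial.C ρ)).coeff n *
        s ^ (N + 1 - n) * t ^ n =
      (∑ n ∈ Finset.range (N + 1), Q.coeff n * s ^ (N - n) * t ^ (n + 1)) -
        ∑ n ∈ Finset.range (N + 2), Q.coeff n * ρ * s ^ (N + 1 - n) * t ^ n := by
    rw [Finset.sum_range_succ' _ (N + 1), Finset.sum_range_succ' _ (N + 1)]
    have h2 : (Q * (Polynomial.X - Polynomial.C ρ)).coeff 0 = - (Q.coeff 0 * ρ) := by
      rw [Polynomial.mul_coeff_zero]
      simp
    rw [h2, sub_add_eq_sub_sub, ← Finset.sum_sub_distrib]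
    rw [show ∀ x y z : Ω, x + -y * z * t ^ 0 = x - y * z * t ^ 0 from fun x y z => by ring]
    congr 1
    refine Finset.sum_congr rfl fun n _ => ?_
    rw [Polynomial.coeff_mul_X_sub_C, show N + 1 - (n + 1) = N - n by omega]
    ring
  rw [h1, Finset.sum_range_succ _ (N + 1), Polynomial.coeff_eq_zero_of_natDegree_lt (by omega),
    zero_mul, zero_mul, zero_mul, add_zero, ← Finset.sum_sub_distrib, Finset.mul_sum]
  refine Finset.sum_congr rfl fun n hn => ?_
  have h3 : N + 1 - n = (N - n) + 1 := by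
    have := Finset.mem_range.1 hn
    omega
  rw [h3]
  ring

private theorem C15_nat {Ω : Type} [Field Ω] [IsAlgClosed Ω] (N : ℕ) : ∀ a : ℕ → Ω,
    ∃ (α β : Fin N → Ω) (b : Ω), (∀ n, α n ≠ 0 ∨ β n ≠ 0) ∧
      ∀ s t : Ω, ∑ n ∈ Finset.range (N + 1), a n * s ^ (N - n) * t ^ n =
        b * ∏ n, (β n * s - α n * t) := by
  induction N with
  | zero =>
    intro a
    refine ⟨fun _ => 1, fun _ => 1, a 0, fun n => Or.inl one_ne_zero, fun s t => ?_⟩
    simp
  | succ N ih =>
    intro a
    by_cases h : a (N + 1) = 0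
    · obtain ⟨α, β, b, h1, h2⟩ := ih a
      refine ⟨Fin.cons 0 α, Fin.cons 1 β, b, ?_, fun s t => ?_⟩
      · intro n
        refine Fin.cases ?_ (fun i => ?_) n
        · exact Or.inr (by rw [Fin.cons_zero]; exact one_ne_zero)
        · rw [Fin.cons_succ, Fin.cons_succ]
          exact h1 i
      · rw [Finset.sum_range_succ, h, zero_mul, zero_mul, add_zero, Fin.prod_univ_succ]
        simp only [Fin.cons_zero, Fin.cons_succ, one_mul, zero_mul, sub_zero]
        rw [mul_left_comm, ← h2, Finset.mul_sum]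
        refine Finset.sum_congr rfl fun n hn => ?_
        have h3 : N + 1 - n = (N - n) + 1 := by
          have := Finset.mem_range.1 hn
          omega
        rw [h3]
        ring
    · set P : Polynomial Ω := ∑ n ∈ Finset.range (N + 2), Polynomial.C (a n) * Polynomial.X ^ n
        with hP
      have hc : ∀ n ∈ Finset.range (N + 2), P.coeff n = a n := by
        intro n hn
        rw [hP, Polynomial.finsetSum_coeff]
        simp only [Polynomial.coeff_C_mul_X_pow]
        rw [Finset.sum_ite_eq, if_pos hn]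
      have hd1 : P.natDegree ≤ N + 1 := by
        rw [hP]
        refine Polynomial.natDegree_sum_le_of_forall_le _ _ fun n hn => ?_
        refine (Polynomial.natDegree_C_mul_X_pow_le _ _).trans ?_
        have := Finset.mem_range.1 hn
        omega
      have hd2 : P.coeff (N + 1) ≠ 0 := by
        rw [hc _ (Finset.mem_range.2 (by omega))]
        exact h
      have hd3 : P.degree ≠ 0 := by
        intro h0
        have h4 := Polynomial.le_natDegree_of_ne_zero hd2
        have h5 := Polynomial.natDegree_eq_zero_iff_degree_le_zero.2 h0.le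
        omega
      obtain ⟨ρ, hρ⟩ := IsAlgClosed.exists_root P hd3
      set Q := P /ₘ (Polynomial.X - Polynomial.C ρ) with hQ
      have hPQ : Q * (Polynomial.X - Polynomial.C ρ) = P := by
        rw [mul_comm]
        exact Polynomial.mul_divByMonic_eq_iff_isRoot.2 hρ
      have hQd : Q.natDegree ≤ N := by
        rw [hQ, Polynomial.natDegree_divByMonic _ (Polynomial.monic_X_sub_C ρ),
          Polynomial.natDegree_X_sub_C]
        omega
      obtain ⟨α, β, b, h1, h2⟩ := ih (fun n => Q.coeff n)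
      refine ⟨Fin.cons 1 α, Fin.cons ρ β, -b, ?_, fun s t => ?_⟩
      · intro n
        refine Fin.cases ?_ (fun i => ?_) n
        · exact Or.inl (by rw [Fin.cons_zero]; exact one_ne_zero)
        · rw [Fin.cons_succ, Fin.cons_succ]
          exact h1 i
      · have h3 := C15_step N Q hQd ρ s t
        rw [hPQ] at h3
        have h4 : ∑ n ∈ Finset.range (N + 1 + 1), a n * s ^ (N + 1 - n) * t ^ n =
            ∑ n ∈ Finset.range (N + 2), P.coeff n * s ^ (N + 1 - n) * t ^ n :=
          Finset.sum_congr rfl fun n hn => by rw [hc n hn]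
        rw [h4, h3, h2, Fin.prod_univ_succ]
        simp only [Fin.cons_zero, Fin.cons_succ, one_mul]
        ring

/-- [C15] binary forms split over an algebraically closed field -/
theorem split_closed {Ω : Type} [Field Ω] [IsAlgClosed Ω] (N : ℕ) (a : Fin (N + 1) → Ω) :
    ∃ (α β : Fin N → Ω) (b : Ω), (∀ n, α n ≠ 0 ∨ β n ≠ 0) ∧
      ∀ s t : Ω, ∑ n : Fin (N + 1), a n * s ^ (N - (n : ℕ)) * t ^ (n : ℕ) =
        b * ∏ n, (β n * s - α n * t) := by
  obtain ⟨α, β, b, h1, h2⟩ := C15_nat N (fun n => if h : n < N + 1 then a ⟨n, h⟩ else 0)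
  refine ⟨α, β, b, h1, fun s t => ?_⟩
  rw [← h2, ← Fin.sum_univ_eq_sum_range (fun n => (if h : n < N + 1 then a ⟨n, h⟩ else 0) *
    s ^ (N - n) * t ^ n)]
  refine Finset.sum_congr rfl fun n _ => ?_
  simp only [n.2, dif_pos, Fin.eta]

end Pool.Agent.LibPC60
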