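import Pool.Agent.LibPC60.C15

/-!
[PC60 C16] splitting over a finite extension of a function field. Plan:
let `Ω = AlgebraicClosure K` and take the splitting of `C15` over `Ω` for the coefficients `algebraMap K Ω (a n)`. `L = IntermediateField.adjoin K` of the
finite set of all `α n, β n, b` (finite over `K`: `IntermediateField.finiteDimensional_adjoin`, all elements are integral over `K`), with the `k`-algebra
structure
`k → K → L`. `IsFunctionField k L`: the same transcendental element `s`, `L` finite over `K` and `K` finite over `k(s)` (see `Pool/Agent/LibEnd77/ValA.lean`,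
`essFinite`, for the tower arguments; `FiniteDimensional.trans`; the field `adjoin k {s}` in `L` is the image of the one in `K`).
No assumption on `k` is needed.
-/

open scoped Classical
open MvPolynomial

set_option linter.unusedSectionVars false

namespace Pool.Agent.LibPC60

open Pool.Agent.LibBH2 Pool.Agent.LibQC8

variable {k J S : Type} [Field k] {c N : ℕ} {K : Type} [Field K] [Algebra k K]

private theorem C16_ff (hK : IsFunctionField k K) (L : Type) [Field L] [Algebra k L]
    [Algebra K L] [IsScalarTower k K L] [FiniteDimensional K L] : IsFunctionField k L := by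
  obtain ⟨s, hs, hfin⟩ := hK
  refine ⟨algebraMap K L s, ?_, ?_⟩
  · intro h
    exact hs ((isAlgebraic_algebraMap_iff (algebraMap K L).injective).1 h)
  · have hmem : ∀ x : IntermediateField.adjoin k {s},
        algebraMap K L x ∈ IntermediateField.adjoin k {algebraMap K L s} := by
      intro x
      have h1 : (IsScalarTower.toAlgHom k K L) x ∈
          (IntermediateField.adjoin k {s}).map (IsScalarTower.toAlgHom k K L) :=
        ⟨x, x.2, rfl⟩
      rw [IntermediateField.adjoin_map, Set.image_singleton] at h1
      exact h1
    let φ : IntermediateField.adjoin k {s} →+* IntermediateField.adjoin k {algebraMap K L s} :=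
      RingHom.codRestrict ((algebraMap K L).comp (algebraMap (IntermediateField.adjoin k {s}) K))
        (IntermediateField.adjoin k {algebraMap K L s}) hmem
    letI : Algebra (IntermediateField.adjoin k {s})
      (IntermediateField.adjoin k {algebraMap K L s}) := φ.toAlgebra
    haveI : FiniteDimensional (IntermediateField.adjoin k {s}) L :=
      FiniteDimensional.trans (IntermediateField.adjoin k {s}) K L
    haveI : IsScalarTower (IntermediateField.adjoin k {s})
        (IntermediateField.adjoin k {algebraMap K L s}) L :=
      IsScalarTower.of_algebraMap_eq fun _ => rfl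
    exact Module.Finite.of_restrictScalars_finite (IntermediateField.adjoin k {s}) _ _

/-- [C16] splitting of a binary form over a finite extension of a function field -/
theorem exists_split (hK : IsFunctionField k K) (a : Fin (N + 1) → K) :
    ∃ (L : Type) (_ : Field L) (_ : Algebra k L) (i : K →ₐ[k] L) (α β : Fin N → L) (b : L),
      IsFunctionField k L ∧ (∀ n, α n ≠ 0 ∨ β n ≠ 0) ∧
      ∀ s t : L, ∑ n : Fin (N + 1), i (a n) * s ^ (N - (n : ℕ)) * t ^ (n : ℕ) =
        b * ∏ n, (β n * s - α n * t) := by
  obtain ⟨α, β, b, hαβ, h⟩ := split_closed (Ω := AlgebraicClosure K) N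
    (fun n => algebraMap K (AlgebraicClosure K) (a n))
  let L : IntermediateField K (AlgebraicClosure K) :=
    IntermediateField.adjoin K (Set.range α ∪ Set.range β ∪ {b})
  haveI : Finite ↑(Set.range α ∪ Set.range β ∪ {b}) :=
    (((Set.finite_range α).union (Set.finite_range β)).union (Set.finite_singleton b)).to_subtype
  haveI hfin : FiniteDimensional K L :=
    IntermediateField.finiteDimensional_adjoin fun x _ => Algebra.IsIntegral.isIntegral x
  have hα : ∀ n, α n ∈ L := fun n =>
    IntermediateField.subset_adjoin K _ (Or.inl (Or.inl ⟨n, rfl⟩))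
  have hβ : ∀ n, β n ∈ L := fun n =>
    IntermediateField.subset_adjoin K _ (Or.inl (Or.inr ⟨n, rfl⟩))
  have hb : b ∈ L := IntermediateField.subset_adjoin K _ (Or.inr rfl)
  refine ⟨L, inferInstance, inferInstance, IsScalarTower.toAlgHom k K L,
    fun n => ⟨α n, hα n⟩, fun n => ⟨β n, hβ n⟩, ⟨b, hb⟩, C16_ff hK L, fun n => ?_,
    fun s t => ?_⟩
  · rcases hαβ n with h1 | h1
    · exact Or.inl fun h2 => h1 (congrArg Subtype.val h2)
    · exact Or.inr fun h2 => h1 (congrArg Subtype.val h2)
  · apply (algebraMap L (AlgebraicClosure K)).injective
    have h2 := h (algebraMap L (AlgebraicClosure K) s) (algebraMap L (AlgebraicClosure K) t)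
    rw [map_sum, map_mul, map_prod]
    simp only [map_mul, map_pow, map_sub]
    exact h2

end Pool.Agent.LibPC60
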