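import Pool.Agent.LibPC60.RowDefs

/-!
[PC60 C17] RatFunc k is a function field. Plan:
`s = RatFunc.X`, transcendental (`RatFunc.transcendental_X` or `RatFunc.algebraMap_X`, `Polynomial.transcendental_X`), `IntermediateField.adjoin k {X} = ⊤`
(`RatFunc.IntermediateField.adjoin_X` or by `RatFunc.num_div_denom`).
-/

open scoped Classical
open MvPolynomial

set_option linter.unusedSectionVars false

namespace Pool.Agent.LibPC60

open Pool.Agent.LibBH2 Pool.Agent.LibQC8

variable {k J S : Type} [Field k] {c N : ℕ}

/-- [C17] -/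
theorem ratFunc_ff : IsFunctionField k (RatFunc k) ∧ Transcendental k (RatFunc.X : RatFunc k) := by
  have ht : Transcendental k (RatFunc.X : RatFunc k) := RatFunc.transcendental_X
  refine ⟨⟨RatFunc.X, ht, ?_⟩, ht⟩
  rw [RatFunc.adjoin_X]
  apply Module.finite_of_finrank_pos
  rw [IntermediateField.finrank_top]
  exact one_pos

end Pool.Agent.LibPC60
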