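import Pool.Agent.LibPC60.C1

/-!
[PC60 C2] degree of the bordered Hessian. Plan:
`det_hom` with row weights `r (inl i) = (3, β) - wt i`, `r (inr j) = (1, γ j)` and column weights `q (inl i) = - wt i`, `q (inr j) = (1, γ j) - (3, β)`; entries
by `IsWeightedHomogeneous.pderiv`
(Mathlib/RingTheory/MvPolynomial/EulerIdentity.lean; `n' + w i = n`), zero entries are homogeneous of every weight. The total is `TT X`: first component `3
(c+3) - (c+3) + c - (c+3) + c - 3 c = 3`,
second component `(c+3) β + ∑ α + ∑ γ + ∑ α + ∑ γ - c β = 3 β + 2 σ`. Recall `wt (inl i) = (1, - α i)`, `X.homF` has degree `((3 : ℕ) : ℤ), β)`.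
-/

open scoped Classical
open MvPolynomial

set_option linter.unusedSectionVars false

namespace Pool.Agent.LibPC60

open Pool.Agent.LibBH2 Pool.Agent.LibQC8

variable {k J S : Type} [Field k] {c N : ℕ}

/-- [C2] -/
theorem HH_hom (X : Fam k J S c 3) : IsWeightedHomogeneous (wt X.fac X.α) (HH X) (TT X) := by
  have hentry : ∀ a b : Fin (c + 3) ⊕ Fin c, IsWeightedHomogeneous (wt X.fac X.α) (HM X a b)
      ((Sum.elim (fun i => ((((3 : ℕ) : ℤ), X.β) : Deg S) - wt X.fac X.α (Sum.inl i))
          (fun j => ((1, X.γ j) : Deg S)) : Fin (c + 3) ⊕ Fin c → Deg S) a +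
        (Sum.elim (fun i => - wt X.fac X.α (Sum.inl i))
          (fun j => ((1, X.γ j) : Deg S) - ((((3 : ℕ) : ℤ), X.β) : Deg S)) :
            Fin (c + 3) ⊕ Fin c → Deg S) b) := by
    rintro (i | j) (i' | j')
    · have h1 : IsWeightedHomogeneous (wt X.fac X.α) (pderiv (Sum.inl i') X.F)
          (((((3 : ℕ) : ℤ), X.β) : Deg S) - wt X.fac X.α (Sum.inl i')) :=
        X.homF.pderiv (by abel)
      have h2 : IsWeightedHomogeneous (wt X.fac X.α)
          (pderiv (Sum.inl i) (pderiv (Sum.inl i') X.F))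
          (((((3 : ℕ) : ℤ), X.β) : Deg S) - wt X.fac X.α (Sum.inl i) +
            - wt X.fac X.α (Sum.inl i')) := h1.pderiv (by abel)
      exact h2
    · have h1 : IsWeightedHomogeneous (wt X.fac X.α) (pderiv (Sum.inl i) (X.Λ j'))
          (((((3 : ℕ) : ℤ), X.β) : Deg S) - wt X.fac X.α (Sum.inl i) +
            (((1, X.γ j') : Deg S) - ((((3 : ℕ) : ℤ), X.β) : Deg S))) :=
        (X.homΛ j').pderiv (by abel)
      exact h1
    · have h1 : IsWeightedHomogeneous (wt X.fac X.α) (pderiv (Sum.inl i') (X.Λ j))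
          (((1, X.γ j) : Deg S) + - wt X.fac X.α (Sum.inl i')) :=
        (X.homΛ j).pderiv (by abel)
      exact h1
    · exact isWeightedHomogeneous_zero _ _ _
  have h := det_hom (wt X.fac X.α) (HM X) _ _ hentry
  have htot : (∑ a, (Sum.elim (fun i => ((((3 : ℕ) : ℤ), X.β) : Deg S) - wt X.fac X.α (Sum.inl i))
          (fun j => ((1, X.γ j) : Deg S)) : Fin (c + 3) ⊕ Fin c → Deg S) a) +
        ∑ b, (Sum.elim (fun i => - wt X.fac X.α (Sum.inl i))
          (fun j => ((1, X.γ j) : Deg S) - ((((3 : ℕ) : ℤ), X.β) : Deg S)) :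
            Fin (c + 3) ⊕ Fin c → Deg S) b = TT X := by
    rw [Fintype.sum_sum_type, Fintype.sum_sum_type]
    simp only [Sum.elim_inl, Sum.elim_inr]
    refine Prod.ext ?_ ?_
    · simp only [Prod.fst_add, Prod.fst_sum, Prod.fst_sub, Prod.fst_neg, wt, Sum.elim_inl, TT,
        Finset.sum_const, Finset.card_univ, Fintype.card_fin, nsmul_eq_mul]
      push_cast
      ring
    · funext t
      simp only [Prod.snd_add, Prod.snd_sum, Prod.snd_sub, Prod.snd_neg, wt, Sum.elim_inl, TT, sig,
        Pi.add_apply, Pi.sub_apply, Pi.smul_apply, Pi.neg_apply, Finset.sum_apply,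
        Finset.sum_sub_distrib, Finset.sum_neg_distrib, Prod.smul_snd,
        Finset.sum_const, Finset.card_univ, Fintype.card_fin]
      simp only [nsmul_eq_mul]
      push_cast
      ring
  rw [htot] at h
  unfold HH
  have key : ∀ (i1 i2 : DecidableEq (Fin (c + 3) ⊕ Fin c)),
      IsWeightedHomogeneous (wt X.fac X.α) (@Matrix.det _ i1 _ _ _ (HM X)) (TT X) →
      IsWeightedHomogeneous (wt X.fac X.α) (@Matrix.det _ i2 _ _ _ (HM X)) (TT X) := by
    intro i1 i2 h
    rw [Subsingleton.elim i2 i1]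
    exact h
  exact key _ _ h

end Pool.Agent.LibPC60
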