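import Pool.Agent.LibPC60.C1

/-!
[PC60 C3] degree of the minors tau. Plan:
`det_hom` with row weights `r (inl j) = (1, γ j)`, `r (inr 0) = (3, β)`, `r (inr 1) = wt (inl a)`, `r (inr 2) = wt (inl b)` and column weights `q x = - wt (inl
(finSumFinEquiv x))`; entries by
`IsWeightedHomogeneous.pderiv`, the entry `if .. then 1 else 0` is zero or has weight `0`. The total: `(c + 3 - (c + 3), ∑ γ + β + ∑ α) + wt a + wt b = LL X +
wt a + wt b` (`Equiv.sum_comp finSumFinEquiv`).
-/

open scoped Classical
open MvPolynomial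

set_option linter.unusedSectionVars false

namespace Pool.Agent.LibPC60

open Pool.Agent.LibBH2 Pool.Agent.LibQC8

variable {k J S : Type} [Field k] {c N : ℕ}

/-- [C3] -/
theorem tau_hom (X : Fam k J S c 3) (a b : Fin (c + 3)) :
    IsWeightedHomogeneous (wt X.fac X.α) (tau X a b)
      (LL X + wt X.fac X.α (Sum.inl a) + wt X.fac X.α (Sum.inl b)) := by
  let r : Fin c ⊕ Fin 3 → Deg S := Sum.elim (fun j => ((1, X.γ j) : Deg S))
    ![(((3 : ℕ) : ℤ), X.β), wt X.fac X.α (Sum.inl a), wt X.fac X.α (Sum.inl b)]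
  let q : Fin c ⊕ Fin 3 → Deg S := fun x => - wt X.fac X.α (Sum.inl (finSumFinEquiv x))
  have hent : ∀ i j, IsWeightedHomogeneous (wt X.fac X.α) (TM X a b i j) (r i + q j) := by
    intro i j
    have hone : ∀ d : Fin (c + 3), IsWeightedHomogeneous (wt X.fac X.α)
        (if finSumFinEquiv j = d then 1 else 0 : MvPolynomial (Fin (c + 3) ⊕ J) k)
        (wt X.fac X.α (Sum.inl d) + q j) := by
      intro d
      by_cases h : finSumFinEquiv j = d
      · rw [if_pos h]
        have h1 : wt X.fac X.α (Sum.inl d) + q j = 0 := by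
          change wt X.fac X.α (Sum.inl d) + - wt X.fac X.α (Sum.inl (finSumFinEquiv j)) = 0
          rw [h, add_neg_cancel]
        rw [h1]
        exact isWeightedHomogeneous_one _ _
      · rw [if_neg h]
        exact isWeightedHomogeneous_zero _ _ _
    rcases i with i | i
    · exact (X.homΛ i).pderiv (by
        change (((1, X.γ i) : Deg S) + - wt X.fac X.α (Sum.inl (finSumFinEquiv j))) +
          wt X.fac X.α (Sum.inl (finSumFinEquiv j)) = _
        rw [neg_add_cancel_right])
    · fin_cases i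
      · exact X.homF.pderiv (by
          change (((((3 : ℕ) : ℤ), X.β) : Deg S) + - wt X.fac X.α (Sum.inl (finSumFinEquiv j))) +
            wt X.fac X.α (Sum.inl (finSumFinEquiv j)) = _
          rw [neg_add_cancel_right])
      · exact hone a
      · exact hone b
  have h1 := det_hom (wt X.fac X.α) (TM X a b) r q hent
  have h2 : ∑ i, r i + ∑ i, q i =
      LL X + wt X.fac X.α (Sum.inl a) + wt X.fac X.α (Sum.inl b) := by
    have e1 : ∑ i, q i = - ∑ i : Fin (c + 3), wt X.fac X.α (Sum.inl i) := by
      rw [← Finset.sum_neg_distrib]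
      exact Equiv.sum_comp finSumFinEquiv (fun i => - wt X.fac X.α (Sum.inl i))
    have e2 : ∑ i : Fin (c + 3), wt X.fac X.α (Sum.inl i) = (((c + 3 : ℕ) : ℤ), - ∑ i, X.α i) := by
      apply Prod.ext
      · rw [Prod.fst_sum]
        simp [wt]
      · rw [Prod.snd_sum]
        simp [wt]
    have e3 : ∑ i, r i = (((c : ℕ) : ℤ), ∑ j, X.γ j) + ((((3 : ℕ) : ℤ), X.β) +
        wt X.fac X.α (Sum.inl a) + wt X.fac X.α (Sum.inl b)) := by
      rw [Fintype.sum_sum_type]
      congr 1
      · apply Prod.ext
        · rw [Prod.fst_sum]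
          simp [r]
        · rw [Prod.snd_sum]
          simp [r]
      · rw [Fin.sum_univ_three]
        rfl
    rw [e1, e2, e3]
    apply Prod.ext
    · simp only [LL, Prod.fst_add, Prod.fst_neg]
      push_cast
      ring
    · simp only [LL, sig, Prod.snd_add, Prod.snd_neg]
      abel
  rw [h2] at h1
  unfold tau
  have key : ∀ (i1 i2 : DecidableEq (Fin c ⊕ Fin 3)) (D : Deg S),
      IsWeightedHomogeneous (wt X.fac X.α) (@Matrix.det _ i1 _ _ _ (TM X a b)) D →
      IsWeightedHomogeneous (wt X.fac X.α) (@Matrix.det _ i2 _ _ _ (TM X a b)) D := by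
    intro i1 i2 D h
    rw [Subsingleton.elim i2 i1]
    exact h
  exact key _ _ _ h1

end Pool.Agent.LibPC60
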