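import Pool.Agent.LibPC60.RowDefs

/-!
[PC60 C4] the Lambda_j are linear in the fibre coordinates. Plan:
only the first component of the weights matters: every monomial of `X.Λ j` has exactly one fibre variable `inl i`, with exponent one. So `pderiv (inl i) (X.Λ
j)` has no fibre variables (its weights have first component `0`:
`IsWeightedHomogeneous.pderiv`), which gives `lam_const` (e.g. `MvPolynomial.eval₂Hom_congr'`/`aeval` depends only on the variables in `vars`, or by monomials),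
and `lam_lin` is the Euler formula `Λ = ∑ X_i ∂_i Λ` (by monomials; or
`IsWeightedHomogeneous.sum_weight_X_mul_pderiv` of Mathlib for the weight `ℕ`-valued: `inl ↦ 1`, `inr ↦ 0`) together with `lam_const`.
-/

open scoped Classical
open MvPolynomial

set_option linter.unusedSectionVars false

namespace Pool.Agent.LibPC60

open Pool.Agent.LibBH2 Pool.Agent.LibQC8

variable {k J S : Type} [Field k] {c N : ℕ} {K : Type} [Field K] [Algebra k K]

omit [Algebra k K] [Field K] in
private theorem C4_deg (X : Fam k J S c N) (j : Fin c) (m : Fin (c + N) ⊕ J →₀ ℕ)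
    (hm : coeff m (X.Λ j) ≠ 0) : ∑ i : Fin (c + N), m (Sum.inl i) = 1 := by
  have h1 := X.homΛ j hm
  have h2 : ((Finsupp.weight (wt X.fac X.α)) m).1 = 1 := by rw [h1]
  rw [Finsupp.weight_apply, Finsupp.sum, Prod.fst_sum] at h2
  have h3 : ∑ z ∈ m.support, (m z • wt X.fac X.α z).1 =
      ∑ i : Fin (c + N), ((m (Sum.inl i) : ℕ) : ℤ) := by
    have e1 : ∑ z ∈ m.support, (m z • wt X.fac X.α z).1 =
        ∑ z ∈ m.support ∪ Finset.univ.image (Sum.inl : Fin (c + N) → Fin (c + N) ⊕ J),
          (m z • wt X.fac X.α z).1 := by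
      refine Finset.sum_subset Finset.subset_union_left ?_
      intro z _ hz
      rw [Finsupp.notMem_support_iff.1 hz, zero_smul]
      rfl
    have e2 : ∑ z ∈ Finset.univ.image (Sum.inl : Fin (c + N) → Fin (c + N) ⊕ J),
          (m z • wt X.fac X.α z).1 =
        ∑ z ∈ m.support ∪ Finset.univ.image (Sum.inl : Fin (c + N) → Fin (c + N) ⊕ J),
          (m z • wt X.fac X.α z).1 := by
      refine Finset.sum_subset Finset.subset_union_right ?_
      intro z _ hz
      rcases z with i | i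
      · exact absurd (Finset.mem_image_of_mem _ (Finset.mem_univ i)) hz
      · show m (Sum.inr i) • (0 : ℤ) = 0
        rw [smul_zero]
    rw [e1, ← e2, Finset.sum_image (fun a _ b _ h => Sum.inl_injective h)]
    refine Finset.sum_congr rfl fun i _ => ?_
    show m (Sum.inl i) • (1 : ℤ) = _
    rw [nsmul_eq_mul, mul_one]
  rw [h3] at h2
  exact_mod_cast h2

/-- monomials without fibre variables -/
private theorem C4_inr (m : Fin (c + N) ⊕ J →₀ ℕ) (hm : ∀ i, m (Sum.inl i) = 0) (a : k)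
    (x x' : Fin (c + N) → K) (y : J → K) :
    aeval (Sum.elim x y) (monomial m a) = aeval (Sum.elim x' y) (monomial m a) := by
  rw [aeval_monomial, aeval_monomial]
  congr 1
  refine Finsupp.prod_congr fun z hz => ?_
  rcases z with i | i
  · exact absurd (hm i) (Finsupp.mem_support_iff.1 hz)
  · rfl

private theorem C4_cases (m : Fin (c + N) ⊕ J →₀ ℕ) (hm : ∑ i : Fin (c + N), m (Sum.inl i) = 1) :
    ∃ i₀, m (Sum.inl i₀) = 1 ∧ ∀ i, i ≠ i₀ → m (Sum.inl i) = 0 := by
  obtain ⟨i₀, hi₀⟩ : ∃ i₀, m (Sum.inl i₀) ≠ 0 := by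
    by_contra hcon
    push Not at hcon
    rw [Finset.sum_eq_zero fun i _ => hcon i] at hm
    exact zero_ne_one hm
  rw [← Finset.add_sum_erase _ _ (Finset.mem_univ i₀)] at hm
  refine ⟨i₀, by omega, fun i hi => ?_⟩
  have h1 : ∑ i ∈ Finset.univ.erase i₀, m (Sum.inl i) = 0 := by omega
  exact (Finset.sum_eq_zero_iff.1 h1) i (Finset.mem_erase.2 ⟨hi, Finset.mem_univ i⟩)

private theorem C4_sub (m : Fin (c + N) ⊕ J →₀ ℕ) (i₀ : Fin (c + N)) (h1 : m (Sum.inl i₀) = 1)
    (h2 : ∀ i, i ≠ i₀ → m (Sum.inl i) = 0) (i : Fin (c + N)) :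
    (m - Finsupp.single (Sum.inl i₀) 1 : Fin (c + N) ⊕ J →₀ ℕ) (Sum.inl i) = 0 := by
  rw [Finsupp.tsub_apply]
  by_cases hi : i = i₀
  · rw [hi, h1, Finsupp.single_eq_same]
  · rw [h2 i hi, Nat.zero_sub]

private theorem C4_mono_const (m : Fin (c + N) ⊕ J →₀ ℕ) (hm : ∑ i : Fin (c + N), m (Sum.inl i) = 1) (a : k)
    (i : Fin (c + N)) (x x' : Fin (c + N) → K) (y : J → K) :
    aeval (Sum.elim x y) (pderiv (Sum.inl i) (monomial m a)) =
      aeval (Sum.elim x' y) (pderiv (Sum.inl i) (monomial m a)) := by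
  obtain ⟨i₀, h1, h2⟩ := C4_cases m hm
  rw [pderiv_monomial]
  by_cases hi : i = i₀
  · rw [hi]
    exact C4_inr _ (C4_sub m i₀ h1 h2) _ x x' y
  · rw [h2 i hi, Nat.cast_zero, mul_zero, map_zero, map_zero, map_zero]

private theorem C4_mono_lin (m : Fin (c + N) ⊕ J →₀ ℕ) (hm : ∑ i : Fin (c + N), m (Sum.inl i) = 1) (a : k)
    (x x' : Fin (c + N) → K) (y : J → K) :
    aeval (Sum.elim x y) (monomial m a) =
      ∑ i, x i * aeval (Sum.elim x' y) (pderiv (Sum.inl i) (monomial m a)) := by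
  obtain ⟨i₀, h1, h2⟩ := C4_cases m hm
  rw [Finset.sum_eq_single i₀]
  · rw [pderiv_monomial, h1, Nat.cast_one, mul_one, C4_inr _ (C4_sub m i₀ h1 h2) a x' x y]
    have h3 : monomial m a = X (Sum.inl i₀) * monomial (m - Finsupp.single (Sum.inl i₀) 1) a := by
      rw [X, monomial_mul, one_mul, add_tsub_cancel_of_le]
      rw [Finsupp.single_le_iff, h1]
    conv_lhs => rw [h3]
    rw [map_mul, aeval_X]
    rfl
  · intro i _ hi
    rw [pderiv_monomial, h2 i hi, Nat.cast_zero, mul_zero, map_zero, map_zero, mul_zero]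
  · intro h
    exact absurd (Finset.mem_univ i₀) h

/-- [C4] the `Λ_j` are linear in the fibre coordinates, their derivatives do not depend on them -/
theorem lam_lin (X : Fam k J S c N) (j : Fin c) (x x' : Fin (c + N) → K) (y : J → K) :
    aeval (Sum.elim x y) (X.Λ j) =
      ∑ i, x i * aeval (Sum.elim x' y) (pderiv (Sum.inl i) (X.Λ j)) := by
  have h1 : X.Λ j = ∑ m ∈ (X.Λ j).support, monomial m (coeff m (X.Λ j)) := (X.Λ j).as_sum
  have h2 : ∀ m ∈ (X.Λ j).support, aeval (Sum.elim x y) (monomial m (coeff m (X.Λ j))) =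
      ∑ i, x i * aeval (Sum.elim x' y) (pderiv (Sum.inl i) (monomial m (coeff m (X.Λ j)))) :=
    fun m hm => C4_mono_lin m (C4_deg X j m (mem_support_iff.1 hm)) _ x x' y
  calc aeval (Sum.elim x y) (X.Λ j)
      = aeval (Sum.elim x y) (∑ m ∈ (X.Λ j).support, monomial m (coeff m (X.Λ j))) := by rw [← h1]
    _ = ∑ m ∈ (X.Λ j).support, ∑ i, x i *
          aeval (Sum.elim x' y) (pderiv (Sum.inl i) (monomial m (coeff m (X.Λ j)))) := by
        rw [map_sum]
        exact Finset.sum_congr rfl h2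
    _ = ∑ i, x i * aeval (Sum.elim x' y) (pderiv (Sum.inl i)
          (∑ m ∈ (X.Λ j).support, monomial m (coeff m (X.Λ j)))) := by
        rw [Finset.sum_comm]
        refine Finset.sum_congr rfl fun i _ => ?_
        rw [map_sum, map_sum, Finset.mul_sum]
    _ = _ := by rw [← h1]

theorem lam_const (X : Fam k J S c N) (j : Fin c) (i : Fin (c + N)) (x x' : Fin (c + N) → K)
    (y : J → K) : aeval (Sum.elim x y) (pderiv (Sum.inl i) (X.Λ j)) =
      aeval (Sum.elim x' y) (pderiv (Sum.inl i) (X.Λ j)) := by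
  have h1 : X.Λ j = ∑ m ∈ (X.Λ j).support, monomial m (coeff m (X.Λ j)) := (X.Λ j).as_sum
  rw [h1, map_sum, map_sum, map_sum]
  exact Finset.sum_congr rfl fun m hm => C4_mono_const m (C4_deg X j m (mem_support_iff.1 hm)) _ i x x' y

end Pool.Agent.LibPC60
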