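import Pool.Agent.LibPC60.RowDefs

/-!
[PC60 C5] F is a form of degree N in the fibre coordinates. Plan:
by linearity it is enough to treat one monomial of `X.F` (all monomials `d` of `X.F` have `∑ i, d (inl i) = N`: first component of the weight). For a monomial:
the value is a constant (product of the `i (y j)` powers) times a product of `N` linear
forms `s * i (e n) + t * i (f n)`; the product of `N` linear forms is `∑ i (a n) s^(N-n) t^n` with `a n` independent of `L, i, s, t` (induction on `N`; or: take
the polynomial `∏ (C (e n) + X * C (f n))` in `K[X]` of degree `≤ N`, its coefficients `a n`,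
and homogenise). Suggestion: let `Q : Polynomial K := aeval (Sum.elim (fun n => C (e n) + X * C (f n)) (fun j => C (y j))) X.F` (degree `≤ N`) and show the
formula for `s ≠ 0` by homogeneity, or directly by monomials.
-/

open scoped Classical
open MvPolynomial

set_option linter.unusedSectionVars false

namespace Pool.Agent.LibPC60

open Pool.Agent.LibBH2 Pool.Agent.LibQC8

variable {k J S : Type} [Field k] {c N : ℕ} {K : Type} [Field K] [Algebra k K]

/-- [C5] `F` is a form of degree `N` in the fibre coordinates -/
theorem binary_form (X : Fam k J S c N) (y : J → K) (e f : Fin (c + N) → K) :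
    ∃ a : Fin (N + 1) → K, ∀ (L : Type) [Field L] [Algebra k L] (i : K →ₐ[k] L) (s t : L),
      aeval (Sum.elim (fun n => s * i (e n) + t * i (f n)) (fun j => i (y j))) X.F =
        ∑ n : Fin (N + 1), i (a n) * s ^ (N - (n : ℕ)) * t ^ (n : ℕ) := by
  obtain ⟨G, hG⟩ : ∃ G : Fin (c + N) ⊕ J → MvPolynomial (Fin 2) K,
      G = Sum.elim (fun n => MvPolynomial.X 1 * C (e n) + MvPolynomial.X 0 * C (f n))
        (fun j => C (y j)) := ⟨_, rfl⟩
  have hGh : ∀ v, (G v).IsHomogeneous (Sum.elim (fun _ => 1) (fun _ => 0) v : ℕ) := by
    intro v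
    rw [hG]
    cases v with
    | inl n =>
      simp only [Sum.elim_inl]
      apply IsHomogeneous.add
      · have h1 := (isHomogeneous_X K (1 : Fin 2)).mul (isHomogeneous_C (Fin 2) (e n))
        simpa using h1
      · have h1 := (isHomogeneous_X K (0 : Fin 2)).mul (isHomogeneous_C (Fin 2) (f n))
        simpa using h1
    | inr j =>
      simp only [Sum.elim_inr]
      exact isHomogeneous_C _ _
  have hH : (aeval G X.F).IsHomogeneous N := by
    rw [aeval_def, eval₂_eq]
    apply IsHomogeneous.sum
    intro d hd
    have h1 : (algebraMap k (MvPolynomial (Fin 2) K) (coeff d X.F)).IsHomogeneous 0 := by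
      rw [IsScalarTower.algebraMap_apply k K (MvPolynomial (Fin 2) K)]
      exact isHomogeneous_C _ _
    have h2 : (∏ i ∈ d.support, G i ^ d i).IsHomogeneous
        (∑ i ∈ d.support, (Sum.elim (fun _ => 1) (fun _ => 0) i : ℕ) * d i) :=
      IsHomogeneous.prod _ _ _ (fun i _ => (hGh i).pow _)
    have h3 : ∑ i ∈ d.support, (Sum.elim (fun _ => 1) (fun _ => 0) i : ℕ) * d i = N := by
      have h4 := X.homF (mem_support_iff.1 hd)
      rw [Finsupp.weight_apply, Finsupp.sum] at h4
      have h5 := congrArg Prod.fst h4
      rw [Prod.fst_sum] at h5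
      simp only at h5
      have h6 : ((∑ i ∈ d.support, (Sum.elim (fun _ => 1) (fun _ => 0) i : ℕ) * d i : ℕ) : ℤ) =
          (N : ℤ) := by
        rw [← h5]
        push_cast
        apply Finset.sum_congr rfl
        intro i _
        cases i with
        | inl n => simp [wt]
        | inr j => simp [wt]
      exact_mod_cast h6
    have h7 := h1.mul h2
    rw [h3, zero_add] at h7
    exact h7
  obtain ⟨P, hP⟩ : ∃ P : Polynomial K, P.homogenize N = aeval G X.F :=
    ⟨_, Polynomial.homogenize_eq_of_isHomogeneous hH rfl⟩
  refine ⟨fun n => P.coeff n, ?_⟩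
  intro L _ _ i s t
  have h1 : aeval (Sum.elim (fun n => s * i (e n) + t * i (f n)) (fun j => i (y j))) X.F =
      eval₂Hom (i : K →+* L) ![t, s] (aeval G X.F) := by
    rw [map_aeval, aeval_def, coe_eval₂Hom]
    congr 1
    · ext r
      rw [RingHom.comp_apply, IsScalarTower.algebraMap_apply k K (MvPolynomial (Fin 2) K)]
      rw [algebraMap_eq, coe_eval₂Hom, eval₂_C]
      simp
    · funext v
      rw [hG]
      cases v with
      | inl n => simp
      | inr j => simp
  rw [h1, ← hP, Polynomial.homogenize, map_sum,
    Finset.Nat.sum_antidiagonal_eq_sum_range_succ_mk,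
    Fin.sum_univ_eq_sum_range (fun n => i (P.coeff n) * s ^ (N - n) * t ^ n) (N + 1)]
  apply Finset.sum_congr rfl
  intro n _
  rw [coe_eval₂Hom, eval₂_monomial]
  rw [Finsupp.prod_fintype _ _ (by simp), Fin.prod_univ_two]
  simp
  ring

end Pool.Agent.LibPC60
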