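import Pool.Agent.LibPC60.C5

/-!
[PC60 C6] Taylor formula. Plan:
`C5` (with `L = K`) gives `F(s x + t q) = a₀ s³ + a₁ s² t + a₂ s t² + a₃ t³`; `s = 1, t = 0` and `s = 0, t = 1` give `a₀ = F(x)`, `a₃ = F(q)`. Differentiate in
`t` at `s = 1`: the polynomial `aeval (Sum.elim (C x_i + X * C q_i) (C y_j)) X.F` in `K[X]`
has the derivative `∑ C q_i * aeval .. (pderiv (inl i) X.F)` (chain rule: both sides are derivations; `MvPolynomial.aeval_sumElim_pderiv_inl` or induction on
the polynomial); at `X = 0` it gives `a₁ = G1 x q`, the second derivative gives `2 a₂ = G2 x q q`.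
`K` is infinite (characteristic zero), so polynomial identities may be read off from values; or avoid this by working with the polynomial from `C5` over `L =
RatFunc K`.
-/

open scoped Classical
open MvPolynomial

set_option linter.unusedSectionVars false

namespace Pool.Agent.LibPC60

open Pool.Agent.LibBH2 Pool.Agent.LibQC8

variable {k J S : Type} [Field k] {c N : ℕ} {K : Type} [Field K] [Algebra k K]

private noncomputable def lin (y : J → K) (x q : Fin (c + 3) → K) :
    MvPolynomial (Fin (c + 3) ⊕ J) k →ₐ[k] Polynomial K :=
  aeval (Sum.elim (fun n => Polynomial.C (x n) + Polynomial.X * Polynomial.C (q n))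
    (fun j => Polynomial.C (y j)))

private lemma eval_lin (y : J → K) (x q : Fin (c + 3) → K) (t : K)
    (p : MvPolynomial (Fin (c + 3) ⊕ J) k) :
    Polynomial.eval t (lin y x q p) = aeval (Sum.elim (x + t • q) y) p := by
  unfold lin
  induction p using MvPolynomial.induction_on with
  | C a =>
    rw [MvPolynomial.algHom_C, MvPolynomial.algHom_C, IsScalarTower.algebraMap_apply k K (Polynomial K),
      Polynomial.algebraMap_eq, Polynomial.eval_C]
  | add a b ha hb => rw [map_add, map_add, Polynomial.eval_add, ha, hb]
  | mul_X a i ha =>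
    rw [map_mul, map_mul, Polynomial.eval_mul, ha, aeval_X, aeval_X]
    congr 1
    rcases i with i | j
    · simp
      ring
    · simp

private lemma derivative_lin (y : J → K) (x q : Fin (c + 3) → K)
    (p : MvPolynomial (Fin (c + 3) ⊕ J) k) :
    Polynomial.derivative (lin y x q p) =
      ∑ i, Polynomial.C (q i) * lin y x q (pderiv (Sum.inl i) p) := by
  induction p using MvPolynomial.induction_on with
  | C a =>
    have h : lin y x q (C a : MvPolynomial (Fin (c + 3) ⊕ J) k) = Polynomial.C (algebraMap k K a) := by
      rw [MvPolynomial.algHom_C, IsScalarTower.algebraMap_apply k K (Polynomial K),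
        Polynomial.algebraMap_eq]
    rw [h, Polynomial.derivative_C]
    symm
    apply Finset.sum_eq_zero
    intro i _
    rw [pderiv_C, map_zero, mul_zero]
  | add a b ha hb =>
    rw [map_add, Polynomial.derivative_add, ha, hb, ← Finset.sum_add_distrib]
    apply Finset.sum_congr rfl
    intro i _
    rw [map_add, map_add, mul_add]
  | mul_X a i ha =>
    rw [map_mul, Polynomial.derivative_mul, ha]
    have hX : Polynomial.derivative (lin y x q (X i : MvPolynomial (Fin (c + 3) ⊕ J) k)) =
        ∑ n, Polynomial.C (q n) * lin y x q
          (pderiv (Sum.inl n) (X i : MvPolynomial (Fin (c + 3) ⊕ J) k)) := by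
      unfold lin
      rcases i with i | j
      · rw [aeval_X, Finset.sum_eq_single i]
        · simp
        · intro n _ hn
          rw [pderiv_X_of_ne (fun h => hn (Sum.inl_injective h).symm), map_zero, mul_zero]
        · intro h; exact absurd (Finset.mem_univ _) h
      · rw [aeval_X]
        simp only [Sum.elim_inr, Polynomial.derivative_C]
        symm
        apply Finset.sum_eq_zero
        intro n _
        rw [pderiv_X_of_ne (by simp), map_zero, mul_zero]
    rw [hX, Finset.sum_mul, Finset.mul_sum, ← Finset.sum_add_distrib]
    apply Finset.sum_congr rfl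
    intro n _
    rw [Derivation.leibniz, smul_eq_mul, smul_eq_mul, map_add, map_mul, map_mul]
    ring

/-- [C6] Taylor formula for cubics -/
theorem taylor [CharZero k] (X : Fam k J S c 3) (y : J → K) (x q : Fin (c + 3) → K) (s t : K) :
    2 * aeval (Sum.elim (s • x + t • q) y) X.F =
      2 * s ^ 3 * aeval (Sum.elim x y) X.F + 2 * s ^ 2 * t * G1 X y x q +
        s * t ^ 2 * G2 X y x q q + 2 * t ^ 3 * aeval (Sum.elim q y) X.F := by
  have : CharZero K := charZero_of_injective_algebraMap (algebraMap k K).injective
  obtain ⟨a, ha⟩ := binary_form X y x q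
  have hF : ∀ s t : K, aeval (Sum.elim (s • x + t • q) y) X.F =
      a 0 * s ^ 3 + a 1 * s ^ 2 * t + a 2 * s * t ^ 2 + a 3 * t ^ 3 := by
    intro s t
    have h := ha K (AlgHom.id k K) s t
    simp only [AlgHom.coe_id, id_eq] at h
    have e1 : (s • x + t • q) = fun n => s * x n + t * q n := by
      funext n; simp
    rw [e1, h, Fin.sum_univ_four]
    simp
  have hQ : lin y x q X.F = Polynomial.C (a 0) + Polynomial.C (a 1) * Polynomial.X +
      Polynomial.C (a 2) * Polynomial.X ^ 2 + Polynomial.C (a 3) * Polynomial.X ^ 3 := by
    apply Polynomial.funext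
    intro r
    rw [eval_lin]
    have h := hF 1 r
    rw [one_smul] at h
    rw [h]
    simp
  have h0 : aeval (Sum.elim x y) X.F = a 0 := by
    have h := hF 1 0
    simpa using h
  have h3 : aeval (Sum.elim q y) X.F = a 3 := by
    have h := hF 0 1
    simpa using h
  have hx : ∀ p : MvPolynomial (Fin (c + 3) ⊕ J) k,
      Polynomial.eval 0 (lin y x q p) = aeval (Sum.elim x y) p := by
    intro p
    rw [eval_lin, zero_smul, add_zero]
  have h1 : G1 X y x q = a 1 := by
    have h := congrArg (Polynomial.eval 0) (derivative_lin y x q X.F)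
    rw [hQ, Polynomial.eval_finsetSum] at h
    simp only [Polynomial.eval_mul, Polynomial.eval_C, hx] at h
    unfold G1
    rw [← h]
    simp
  have h2 : G2 X y x q q = 2 * a 2 := by
    have h := congrArg (fun p => Polynomial.eval 0 (Polynomial.derivative p))
      (derivative_lin y x q X.F)
    have hr : Polynomial.eval 0 (Polynomial.derivative
        (∑ i, Polynomial.C (q i) * lin y x q (pderiv (Sum.inl i) X.F))) = G2 X y x q q := by
      unfold G2
      rw [Polynomial.derivative_sum, Polynomial.eval_finsetSum, Finset.sum_comm]
      apply Finset.sum_congr rfl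
      intro i _
      rw [Polynomial.derivative_C_mul, derivative_lin, Polynomial.eval_mul, Polynomial.eval_C,
        Polynomial.eval_finsetSum, Finset.mul_sum]
      apply Finset.sum_congr rfl
      intro n _
      rw [Polynomial.eval_mul, Polynomial.eval_C, hx]
      ring
    rw [← hr, ← h, hQ]
    simp
    try ring
  rw [hF, h0, h1, h2, h3]
  ring

end Pool.Agent.LibPC60
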