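import Pool.Agent.LibPC60.C4
import Pool.Agent.LibPC60.C6
import Pool.Agent.LibPC60.C7

/-!
[PC60 C8] a line of contact three from a three-dimensional kernel. Plan:
let `x = p.z ∘ inl`. Choose a two-dimensional subspace of `V` which does not contain `x` (basis `q₁, q₂` with `x, q₁, q₂` linearly independent; if `x ∉ V` one
needs only that no nonzero combination of `q₁, q₂` is a multiple of `x`). The quadratic form
`G2 x (a q₁ + b q₂) (a q₁ + b q₂)` is a binary quadratic form in `a, b`, it has a nontrivial zero over the algebraically closed field `k`: `q`. Then `G1 x q =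
0`, `G2 x q q = 0`, `F(x) = 0`, so by `taylor` `F(s x + t q) = t³ F(q)`. `TriW` with `e = x`, `f = q`,
`α = 1`, `β = 0`, `a = - F(q)`; `Λ_j(x) = 0` is `p.hΛ` (`Sum.elim` of the two parts of `p.z` is `p.z`).
-/

open scoped Classical
open MvPolynomial

set_option linter.unusedSectionVars false

namespace Pool.Agent.LibPC60

open Pool.Agent.LibBH2 Pool.Agent.LibQC8

variable {k J S : Type} [Field k] {c N : ℕ} {K : Type} [Field K] [Algebra k K]

/-- a subspace of dimension three contains a plane which meets the line of `x` only in `0` -/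
private theorem C8_two {ι : Type} [Finite ι] (V : Submodule k (ι → k))
    (hV : 3 ≤ Module.finrank k V) (x : ι → k) : ∃ q₁ q₂ : ι → k, q₁ ∈ V ∧ q₂ ∈ V ∧
      ∀ a b : k, (a ≠ 0 ∨ b ≠ 0) → ∀ l : k, a • q₁ + b • q₂ ≠ l • x := by
  obtain ⟨W, hW⟩ : ∃ W : Submodule k V,
      W = Submodule.comap V.subtype (Submodule.span k ({x} : Set (ι → k))) := ⟨_, rfl⟩
  have hmem : ∀ w : V, w ∈ W ↔ (w : ι → k) ∈ Submodule.span k ({x} : Set (ι → k)) := by
    intro w
    rw [hW, Submodule.mem_comap]
    rfl
  have h2 : Module.finrank k W ≤ 1 := by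
    let g : W →ₗ[k] Submodule.span k ({x} : Set (ι → k)) :=
      LinearMap.codRestrict _ (V.subtype.comp W.subtype) (fun v => (hmem v.1).1 v.2)
    have hg : Function.Injective g := by
      intro v w h
      have h3 : ((g v : Submodule.span k ({x} : Set (ι → k))) : ι → k) = (g w : ι → k) := by
        rw [h]
      exact Subtype.ext (Subtype.ext h3)
    refine (LinearMap.finrank_le_finrank_of_injective hg).trans ?_
    exact (finrank_span_le_card ({x} : Set (ι → k))).trans (by simp)
  obtain ⟨U, hU⟩ := Submodule.exists_isCompl W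
  have h3 : Module.finrank k W + Module.finrank k U = Module.finrank k V :=
    Submodule.finrank_add_eq_of_isCompl hU
  have h4 : 1 < Module.finrank k U := by omega
  obtain ⟨u, hu⟩ : ∃ u : U, u ≠ 0 := by
    have : Nontrivial U := Module.nontrivial_of_finrank_pos (R := k) (by omega)
    exact exists_ne 0
  obtain ⟨v, hv⟩ := exists_linearIndependent_pair_of_one_lt_finrank (R := k) (M := U) h4 (x := u) hu
  refine ⟨((u : V) : ι → k), ((v : V) : ι → k), (u : V).2, (v : V).2, ?_⟩
  intro a b hab l h
  have h5 : (((a • u + b • v : U) : V) : ι → k) = l • x := h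
  have h6 : ((a • u + b • v : U) : V) ∈ W := by
    rw [hmem, h5]
    exact Submodule.smul_mem _ _ (Submodule.mem_span_singleton_self x)
  have h7 : ((a • u + b • v : U) : V) = 0 :=
    (Submodule.disjoint_def.1 hU.disjoint) _ h6 (a • u + b • v : U).2
  have h8 : a • u + b • v = 0 := Subtype.ext h7
  have h9 := LinearIndependent.pair_iff.1 hv a b h8
  rcases hab with h10 | h10
  · exact h10 h9.1
  · exact h10 h9.2

/-- a binary quadratic form has a nontrivial zero -/
private theorem C8_quad [IsAlgClosed k] [CharZero k] (A B C : k) :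
    ∃ a b : k, (a ≠ 0 ∨ b ≠ 0) ∧ a ^ 2 * A + a * b * B + b ^ 2 * C = 0 := by
  by_cases hA : A = 0
  · exact ⟨1, 0, Or.inl one_ne_zero, by rw [hA]; ring⟩
  · obtain ⟨s, hs⟩ := IsAlgClosed.exists_eq_mul_self (B ^ 2 - 4 * A * C)
    have h2 : (2 : k) ≠ 0 := two_ne_zero
    refine ⟨(-B + s) / (2 * A), 1, Or.inr one_ne_zero, ?_⟩
    field_simp
    linear_combination -hs

/-- [C8] if the kernel of the gradient on the fibre has dimension at least three, then there is a
line with contact three -/
theorem tri_of_big [IsAlgClosed k] [CharZero k] (X : Fam k J S c 3) (p : Pt X k)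
    (V : Submodule k (Fin (c + 3) → k)) (hV : 3 ≤ Module.finrank k V)
    (h1 : ∀ q ∈ V, ∀ j, aeval (Sum.elim q (fun j => p.z (Sum.inr j))) (X.Λ j) = 0)
    (h2 : ∀ q ∈ V, G1 X (fun j => p.z (Sum.inr j)) (fun i => p.z (Sum.inl i)) q = 0) :
    Tri X (fun j => p.z (Sum.inr j)) (fun _ i => p.z (Sum.inl i)) := by
  set x : Fin (c + 3) → k := fun i => p.z (Sum.inl i) with hxdef
  set y : J → k := fun j => p.z (Sum.inr j) with hydef
  have hz : Sum.elim x y = p.z := by
    funext i
    rcases i with i | j <;> rfl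
  have hx0 : x ≠ 0 := by
    obtain ⟨i, hi⟩ := p.x_ne
    intro h
    exact hi (congrFun h i)
  obtain ⟨q₁, q₂, hq1, hq2, hind⟩ := C8_two V hV x
  -- the quadratic form
  have hform : ∀ a b : k, G2 X y x (a • q₁ + b • q₂) (a • q₁ + b • q₂) =
      a ^ 2 * G2 X y x q₁ q₁ + a * b * (G2 X y x q₁ q₂ + G2 X y x q₂ q₁) +
        b ^ 2 * G2 X y x q₂ q₂ := by
    intro a b
    unfold G2
    simp only [Finset.mul_sum, ← Finset.sum_add_distrib]
    refine Finset.sum_congr rfl fun i _ => Finset.sum_congr rfl fun i' _ => ?_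
    simp only [Pi.add_apply, Pi.smul_apply, smul_eq_mul]
    ring
  obtain ⟨a, b, hab, h0⟩ := C8_quad (G2 X y x q₁ q₁) (G2 X y x q₁ q₂ + G2 X y x q₂ q₁)
    (G2 X y x q₂ q₂)
  set q := a • q₁ + b • q₂ with hqdef
  have hqV : q ∈ V := V.add_mem (V.smul_mem a hq1) (V.smul_mem b hq2)
  have hG2 : G2 X y x q q = 0 := by
    rw [hqdef, hform]
    exact h0
  have hG1 : G1 X y x q = 0 := h2 q hqV
  have hF : aeval (Sum.elim x y) X.F = 0 := by
    rw [hz]
    exact p.hF
  have hqx : ∀ l : k, q ≠ l • x := fun l => hind a b hab l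
  have hval : ∀ s t : k, aeval (Sum.elim (s • x + t • q) y) X.F =
      t ^ 3 * aeval (Sum.elim q y) X.F := by
    intro s t
    have h3 := taylor X y x q s t
    rw [hG1, hG2, hF] at h3
    have h4 : (2 : k) ≠ 0 := two_ne_zero
    refine mul_left_cancel₀ h4 ?_
    linear_combination h3
  refine ⟨x, q, ?_, ?_, ?_, fun _ => 1, fun _ => 0, -aeval (Sum.elim q y) X.F, ?_, ?_⟩
  · rw [LinearIndependent.pair_iff]
    intro s t hst
    have ht : t = 0 := by
      by_contra ht
      apply hqx (-(t⁻¹ * s))
      have h5 : t • q = -(s • x) := eq_neg_of_add_eq_zero_right hst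
      calc q = t⁻¹ • (t • q) := by rw [smul_smul, inv_mul_cancel₀ ht, one_smul]
        _ = _ := by rw [h5, smul_neg, smul_smul, neg_smul]
    refine ⟨?_, ht⟩
    rw [ht, zero_smul, add_zero] at hst
    rcases smul_eq_zero.1 hst with h5 | h5
    · exact h5
    · exact absurd h5 hx0
  · intro j
    rw [hz]
    exact p.hΛ j
  · intro j
    exact h1 q hqV j
  · intro n
    refine ⟨Or.inl one_ne_zero, ?_⟩
    simp
  · intro s t
    rw [hval]
    simp only [Fin.prod_univ_three, zero_mul, one_mul, zero_sub]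
    ring

end Pool.Agent.LibPC60
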