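import Pool.Agent.LibPC60.C8

/-!
[PC60 C9] zeros of the bordered Hessian. Plan:
`aeval p.z (HH X) = det` of the matrix of values (`RingHom.map_det`); zero determinant gives `(q, ν) ≠ 0` with (i) `∑_i' F_ii' q_i' + ∑_j ∂_iΛ_j ν_j = 0` for
all `i`, (ii) `∑_i ∂_iΛ_j q_i = 0`, i.e. `Λ_j(q) = 0` (`lam_lin`) (`Matrix.exists_mulVec_eq_zero_iff`).
Multiplying (i) by `m_i` and summing, for `m` in the fibre `M = {m | Λ_j(m) = 0}`: `G2 x q m = 0`. Case A: `x, q` linearly independent: `m = x` gives `G1 x q =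
0` (`euler2`, `G2_symm`), `m = q` gives `G2 x q q = 0`, so by `taylor` `F(s x + t q) = t³ F(q)`: `TriW` as in `C8`.
Case B: `q = a x`, `a ≠ 0`: `G1 x m = 0` on `M` (`euler2`), `tri_of_big` with `V = M`, `dim M ≥ 3` (`c` linear equations in `c + 3` unknowns). Case C: `q = 0`,
`ν ≠ 0`: the gradients of the `Λ_j` are linearly dependent, so `dim M ≥ 4`, and
`V = M ∩ ker (G1 x)` has dimension `≥ 3`: `tri_of_big`.
-/

open scoped Classical
open MvPolynomial

set_option linter.unusedSectionVars false

namespace Pool.Agent.LibPC60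

open Pool.Agent.LibBH2 Pool.Agent.LibQC8

variable {k J S : Type} [Field k] {c N : ℕ} {K : Type} [Field K] [Algebra k K]

private theorem C9_G1_lin (X : Fam k J S c 3) (y : J → k) (x : Fin (c + 3) → k) :
    ∃ g : (Fin (c + 3) → k) →ₗ[k] k, ∀ q, g q = G1 X y x q := by
  refine ⟨{ toFun := fun q => G1 X y x q, map_add' := ?_, map_smul' := ?_ }, fun q => rfl⟩
  · intro q q'
    unfold G1
    rw [← Finset.sum_add_distrib]
    refine Finset.sum_congr rfl fun i _ => ?_
    rw [Pi.add_apply, add_mul]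
  · intro a q
    unfold G1
    rw [RingHom.id_apply, smul_eq_mul, Finset.mul_sum]
    refine Finset.sum_congr rfl fun i _ => ?_
    rw [Pi.smul_apply, smul_eq_mul, mul_assoc]

private theorem C9_lam_lin (X : Fam k J S c 3) (y : J → k) (x : Fin (c + 3) → k) :
    ∃ g : (Fin (c + 3) → k) →ₗ[k] (Fin c → k), (∀ q j, g q j = aeval (Sum.elim q y) (X.Λ j)) ∧
      ∀ q j, g q j = ∑ i, q i * aeval (Sum.elim x y) (pderiv (Sum.inl i) (X.Λ j)) := by
  have h1 : ∀ q j, aeval (Sum.elim q y) (X.Λ j) =
      ∑ i, q i * aeval (Sum.elim x y) (pderiv (Sum.inl i) (X.Λ j)) := fun q j => lam_lin X j q x y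
  refine ⟨{ toFun := fun q j => aeval (Sum.elim q y) (X.Λ j), map_add' := ?_, map_smul' := ?_ },
    fun q j => rfl, h1⟩
  · intro q q'
    funext j
    rw [Pi.add_apply, h1, h1, h1, ← Finset.sum_add_distrib]
    refine Finset.sum_congr rfl fun i _ => ?_
    rw [Pi.add_apply, add_mul]
  · intro a q
    funext j
    rw [RingHom.id_apply, Pi.smul_apply, h1, h1, smul_eq_mul, Finset.mul_sum]
    refine Finset.sum_congr rfl fun i _ => ?_
    rw [Pi.smul_apply, smul_eq_mul, mul_assoc]

private theorem C9_G2_smul (X : Fam k J S c 3) (y : J → k) (x m q : Fin (c + 3) → k) (a : k) :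
    G2 X y x m (a • q) = a * G2 X y x m q := by
  unfold G2
  rw [Finset.mul_sum]
  refine Finset.sum_congr rfl fun i _ => ?_
  rw [Finset.mul_sum]
  refine Finset.sum_congr rfl fun i' _ => ?_
  rw [Pi.smul_apply, smul_eq_mul]
  ring

private theorem C9_main [IsAlgClosed k] [CharZero k] (X : Fam k J S c 3) (p : Pt X k)
    (x : Fin (c + 3) → k) (y : J → k) (hx : x = fun i => p.z (Sum.inl i))
    (hy : y = fun j => p.z (Sum.inr j)) (h : aeval p.z (HH X) = 0) :
    Tri X y (fun _ => x) := by
  have hz : p.z = Sum.elim x y := by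
    rw [hx, hy]
    funext i
    rcases i with i | i <;> rfl
  have hx0 : x ≠ 0 := by
    obtain ⟨i, hi⟩ := p.x_ne
    intro h0
    apply hi
    have := congrFun h0 i
    rw [hx] at this
    exact this
  have hLx : ∀ j, aeval (Sum.elim x y) (X.Λ j) = 0 := by
    intro j
    rw [← hz]
    exact p.hΛ j
  have hFx : aeval (Sum.elim x y) X.F = 0 := by
    rw [← hz]
    exact p.hF
  have hdet : ((aeval (Sum.elim x y) : MvPolynomial (Fin (c + 3) ⊕ J) k →ₐ[k] k).mapMatrix (HM X)).det = 0 := by
    rw [← AlgHom.map_det, ← hz]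
    exact h
  obtain ⟨v, hv0, hv⟩ := Matrix.exists_mulVec_eq_zero_iff.2 hdet
  obtain ⟨q, hq⟩ : ∃ q : Fin (c + 3) → k, ∀ i, q i = v (Sum.inl i) := ⟨fun i => v (Sum.inl i), fun i => rfl⟩
  obtain ⟨ν, hν⟩ : ∃ ν : Fin c → k, ∀ i, ν i = v (Sum.inr i) := ⟨fun i => v (Sum.inr i), fun i => rfl⟩
  have hrow1 : ∀ i, ∑ i', aeval (Sum.elim x y) (pderiv (Sum.inl i) (pderiv (Sum.inl i') X.F)) * q i' +
      ∑ j, aeval (Sum.elim x y) (pderiv (Sum.inl i) (X.Λ j)) * ν j = 0 := by
    intro i
    have h1 := congrFun hv (Sum.inl i)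
    rw [Matrix.mulVec, dotProduct, Fintype.sum_sum_type] at h1
    simp only [hq, hν]
    exact h1
  have hrow2 : ∀ j, ∑ i, aeval (Sum.elim x y) (pderiv (Sum.inl i) (X.Λ j)) * q i = 0 := by
    intro j
    have h1 := congrFun hv (Sum.inr j)
    rw [Matrix.mulVec, dotProduct, Fintype.sum_sum_type] at h1
    have h2 : ∑ j' : Fin c, ((aeval (Sum.elim x y) : MvPolynomial (Fin (c + 3) ⊕ J) k →ₐ[k] k).mapMatrix (HM X))
        (Sum.inr j) (Sum.inr j') * v (Sum.inr j') = 0 := by
      refine Finset.sum_eq_zero fun j' _ => ?_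
      have h3 : ((aeval (Sum.elim x y) : MvPolynomial (Fin (c + 3) ⊕ J) k →ₐ[k] k).mapMatrix (HM X))
        (Sum.inr j) (Sum.inr j') = aeval (Sum.elim x y) (0 : MvPolynomial (Fin (c + 3) ⊕ J) k) := rfl
      rw [h3, map_zero, zero_mul]
    rw [h2, add_zero] at h1
    simp only [hq]
    exact h1
  obtain ⟨lam, hlam, hlam'⟩ := C9_lam_lin X y x
  obtain ⟨g, hg⟩ := C9_G1_lin X y x
  have hLq : ∀ j, aeval (Sum.elim q y) (X.Λ j) = 0 := by
    intro j
    rw [← hlam, hlam', ← hrow2 j]
    exact Finset.sum_congr rfl fun i _ => mul_comm _ _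
  -- the Hessian kills the fibre
  have hG2 : ∀ m, (∀ j, aeval (Sum.elim m y) (X.Λ j) = 0) → G2 X y x m q = 0 := by
    intro m hm
    have h1 : ∑ i, m i * (∑ i', aeval (Sum.elim x y) (pderiv (Sum.inl i) (pderiv (Sum.inl i') X.F)) * q i' +
      ∑ j, aeval (Sum.elim x y) (pderiv (Sum.inl i) (X.Λ j)) * ν j) = 0 :=
      Finset.sum_eq_zero fun i _ => by rw [hrow1, mul_zero]
    have h2 : ∑ i, m i * ∑ j, aeval (Sum.elim x y) (pderiv (Sum.inl i) (X.Λ j)) * ν j = 0 := by
      have h3 : ∑ i, m i * ∑ j, aeval (Sum.elim x y) (pderiv (Sum.inl i) (X.Λ j)) * ν j =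
          ∑ j, (∑ i, m i * aeval (Sum.elim x y) (pderiv (Sum.inl i) (X.Λ j))) * ν j := by
        simp only [Finset.mul_sum, Finset.sum_mul]
        rw [Finset.sum_comm]
        refine Finset.sum_congr rfl fun j _ => Finset.sum_congr rfl fun i _ => ?_
        ring
      rw [h3]
      refine Finset.sum_eq_zero fun j _ => ?_
      rw [← hlam', hlam, hm j, zero_mul]
    have h4 : ∑ i, m i * (∑ i', aeval (Sum.elim x y) (pderiv (Sum.inl i) (pderiv (Sum.inl i') X.F)) * q i' +
      ∑ j, aeval (Sum.elim x y) (pderiv (Sum.inl i) (X.Λ j)) * ν j) =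
      G2 X y x m q + ∑ i, m i * ∑ j, aeval (Sum.elim x y) (pderiv (Sum.inl i) (X.Λ j)) * ν j := by
      unfold G2
      rw [← Finset.sum_add_distrib]
      refine Finset.sum_congr rfl fun i _ => ?_
      rw [mul_add, Finset.mul_sum]
      congr 1
      refine Finset.sum_congr rfl fun i' _ => ?_
      ring
    rw [h4, h2, add_zero] at h1
    exact h1
  by_cases hli : LinearIndependent k ![x, q]
  · -- Case A
    have e1 : G1 X y x q = 0 := by
      have h1 := hG2 x hLx
      rw [euler2] at h1
      exact (mul_eq_zero.1 h1).resolve_left two_ne_zero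
    have e2 : G2 X y x q q = 0 := hG2 q hLq
    refine ⟨x, q, hli, hLx, hLq, fun _ => 1, fun _ => 0, -(aeval (Sum.elim q y) X.F), ?_, ?_⟩
    · intro n
      refine ⟨Or.inl one_ne_zero, ?_⟩
      rw [one_smul, zero_smul, add_zero]
    · intro s t
      have h1 := taylor X y x q s t
      rw [hFx, e1, e2] at h1
      refine mul_left_cancel₀ (two_ne_zero' k) ?_
      rw [h1, Finset.prod_const, Finset.card_univ, Fintype.card_fin]
      ring
  · obtain ⟨a, ha⟩ : ∃ a : k, a • x = q := by
      by_contra hcon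
      push Not at hcon
      exact hli ((LinearIndependent.pair_iff' hx0).2 hcon)
    have hdimE : Module.finrank k (Fin (c + 3) → k) = c + 3 := by
      rw [Module.finrank_fintype_fun_eq_card, Fintype.card_fin]
    by_cases ha0 : a = 0
    · -- Case C
      have hq0 : q = 0 := by rw [← ha, ha0, zero_smul]
      have hν0 : ν ≠ 0 := by
        intro h0
        apply hv0
        funext i
        rcases i with i | i
        · rw [← hq, hq0]
          rfl
        · rw [← hν, h0]
          rfl
      obtain ⟨j₀, hj₀⟩ : ∃ j₀, ν j₀ ≠ 0 := Function.ne_iff.1 hν0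
      have hrel : ∀ m, ∑ j, lam m j * ν j = 0 := by
        intro m
        have h1 : ∀ i, ∑ j, aeval (Sum.elim x y) (pderiv (Sum.inl i) (X.Λ j)) * ν j = 0 := by
          intro i
          have h2 := hrow1 i
          rw [hq0] at h2
          simpa using h2
        simp only [hlam', Finset.sum_mul]
        rw [Finset.sum_comm]
        refine Finset.sum_eq_zero fun i _ => ?_
        have h3 : ∑ j, m i * aeval (Sum.elim x y) (pderiv (Sum.inl i) (X.Λ j)) * ν j =
            m i * ∑ j, aeval (Sum.elim x y) (pderiv (Sum.inl i) (X.Λ j)) * ν j := by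
          rw [Finset.mul_sum]
          exact Finset.sum_congr rfl fun j _ => mul_assoc _ _ _
        rw [h3, h1, mul_zero]
      let Ψ : (Fin (c + 3) → k) →ₗ[k] (Fin c → k) × k := lam.prod g
      have hne : LinearMap.range Ψ ≠ ⊤ := by
        intro htop
        have h1 : ((Pi.single j₀ 1 : Fin c → k), (0 : k)) ∈ LinearMap.range Ψ := by
          rw [htop]
          trivial
        obtain ⟨m, hm⟩ := h1
        have h2 : lam m = Pi.single j₀ 1 := congrArg Prod.fst hm
        have h3 := hrel m
        rw [h2, Finset.sum_eq_single j₀, Pi.single_eq_same, one_mul] at h3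
        · exact hj₀ h3
        · intro j _ hj
          rw [Pi.single_eq_of_ne hj, zero_mul]
        · intro h
          exact absurd (Finset.mem_univ _) h
      have h1 := Submodule.finrank_lt hne
      have h2 : Module.finrank k ((Fin c → k) × k) = c + 1 := by
        rw [Module.finrank_prod, Module.finrank_fintype_fun_eq_card, Fintype.card_fin, Module.finrank_self]
      have h3 := LinearMap.finrank_range_add_finrank_ker Ψ
      rw [hdimE] at h3
      rw [h2] at h1
      have h4 := tri_of_big X p (LinearMap.ker Ψ) (by omega) ?_ ?_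
      · rw [hx, hy]
        exact h4
      · intro m hm j
        have h5 : lam m = 0 := congrArg Prod.fst (LinearMap.mem_ker.1 hm)
        rw [← hy, ← hlam, h5]
        rfl
      · intro m hm
        have h5 : g m = 0 := congrArg Prod.snd (LinearMap.mem_ker.1 hm)
        rw [← hy, ← hx, ← hg, h5]
    · -- Case B
      have h3 := LinearMap.finrank_range_add_finrank_ker lam
      have h1 : Module.finrank k (LinearMap.range lam) ≤ c := by
        refine (Submodule.finrank_le _).trans ?_
        rw [Module.finrank_fintype_fun_eq_card, Fintype.card_fin]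
      rw [hdimE] at h3
      have h4 := tri_of_big X p (LinearMap.ker lam) (by omega) ?_ ?_
      · rw [hx, hy]
        exact h4
      · intro m hm j
        rw [← hy, ← hlam, LinearMap.mem_ker.1 hm]
        rfl
      · intro m hm
        rw [← hy, ← hx]
        have h5 := hG2 m (fun j => by rw [← hlam, LinearMap.mem_ker.1 hm]; rfl)
        rw [← ha, C9_G2_smul, G2_symm, euler2] at h5
        exact (mul_eq_zero.1 ((mul_eq_zero.1 h5).resolve_left ha0)).resolve_left two_ne_zero

/-- [C9] points where the bordered Hessian vanishes -/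
theorem tri_of_HH [IsAlgClosed k] [CharZero k] (X : Fam k J S c 3) (p : Pt X k)
    (h : aeval p.z (HH X) = 0) :
    Tri X (fun j => p.z (Sum.inr j)) (fun _ i => p.z (Sum.inl i)) :=
  C9_main X p _ _ rfl rfl h

end Pool.Agent.LibPC60
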