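import Pool.Agent.LibPC60.C4

/-!
[PC60 D1] change of basis of the line. Plan:
for `p n = α e + β f` write `p n = α' (g₁ e + g₂ f) + β' (g₃ e + g₄ f)`: `α = α' g₁ + β' g₃`, `β = α' g₂ + β' g₄` (invert the matrix, determinant `δ = g₁ g₄ -
g₂ g₃`). Then
`β (s g₁ + t g₃) - α (s g₂ + t g₄) = δ (β' s - α' t)`, so the new constant is `a * δ ^ N`. The `Λ_j` by `lam_lin`; `s • (g₁ • e + g₂ • f) + t • (g₃ • e + g₄ •
f) = (s g₁ + t g₃) • e + (s g₂ + t g₄) • f`.
-/

open scoped Classical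
open MvPolynomial

set_option linter.unusedSectionVars false

namespace Pool.Agent.LibPC60

open Pool.Agent.LibBH2 Pool.Agent.LibQC8

variable {k J S : Type} [Field k] [IsAlgClosed k] {c N : ℕ} [Fintype J] [Fintype S]
  {K : Type} [Field K] [Algebra k K]

/-- [D1] change of basis of the line -/
theorem triW_basis (X : Fam k J S c N) (y : J → K) (e f : Fin (c + N) → K)
    (p : Fin N → (Fin (c + N) → K)) (h : TriW X y e f p) (g₁ g₂ g₃ g₄ : K)
    (hg : g₁ * g₄ - g₂ * g₃ ≠ 0) : TriW X y (g₁ • e + g₂ • f) (g₃ • e + g₄ • f) p := by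
  obtain ⟨hli, he, hf, α, β, a, hp, hF⟩ := h
  have hcomb : ∀ s t : K, s • (g₁ • e + g₂ • f) + t • (g₃ • e + g₄ • f) =
      (s * g₁ + t * g₃) • e + (s * g₂ + t * g₄) • f := by
    intro s t
    module
  have hlam : ∀ (u v : K) (j : Fin c), aeval (Sum.elim (u • e + v • f) y) (X.Λ j) = 0 := by
    intro u v j
    have h1 := lam_lin X j (u • e + v • f) e y
    have h2 := lam_lin X j e e y
    have h3 := lam_lin X j f e y
    rw [he j] at h2
    rw [hf j] at h3
    rw [h1]
    have h4 : ∑ i, (u • e + v • f) i * aeval (Sum.elim e y) (pderiv (Sum.inl i) (X.Λ j)) =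
        u * ∑ i, e i * aeval (Sum.elim e y) (pderiv (Sum.inl i) (X.Λ j)) +
        v * ∑ i, f i * aeval (Sum.elim e y) (pderiv (Sum.inl i) (X.Λ j)) := by
      rw [Finset.mul_sum, Finset.mul_sum, ← Finset.sum_add_distrib]
      refine Finset.sum_congr rfl fun i _ => ?_
      simp only [Pi.add_apply, Pi.smul_apply, smul_eq_mul]
      ring
    rw [h4, ← h2, ← h3]
    ring
  obtain ⟨δ, hδ⟩ : ∃ δ, δ = g₁ * g₄ - g₂ * g₃ := ⟨_, rfl⟩
  rw [← hδ] at hg
  refine ⟨?_, hlam g₁ g₂, hlam g₃ g₄, fun n => (g₄ * α n - g₃ * β n) / δ,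
    fun n => (g₁ * β n - g₂ * α n) / δ, a * δ ^ N, ?_, ?_⟩
  · rw [LinearIndependent.pair_iff] at hli ⊢
    intro s t hst
    rw [hcomb] at hst
    obtain ⟨h1, h2⟩ := hli _ _ hst
    constructor
    · have h3 : s * δ = 0 := by rw [hδ]; linear_combination g₄ * h1 - g₃ * h2
      exact (mul_eq_zero.mp h3).resolve_right hg
    · have h3 : t * δ = 0 := by rw [hδ]; linear_combination g₁ * h2 - g₂ * h1
      exact (mul_eq_zero.mp h3).resolve_right hg
  · intro n
    obtain ⟨hn, hpn⟩ := hp n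
    have ea : (g₄ * α n - g₃ * β n) / δ * g₁ + (g₁ * β n - g₂ * α n) / δ * g₃ = α n := by
      field_simp
      rw [hδ]
      ring
    have eb : (g₄ * α n - g₃ * β n) / δ * g₂ + (g₁ * β n - g₂ * α n) / δ * g₄ = β n := by
      field_simp
      rw [hδ]
      ring
    refine ⟨?_, ?_⟩
    · by_contra hno
      push Not at hno
      obtain ⟨h1, h2⟩ := hno
      rw [h1, h2] at ea eb
      rcases hn with hn | hn
      · exact hn (by rw [← ea]; ring)
      · exact hn (by rw [← eb]; ring)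
    · simp only
      rw [hcomb, ea, eb, hpn]
  · intro s t
    rw [hcomb, hF]
    have h1 : ∏ n, (β n * (s * g₁ + t * g₃) - α n * (s * g₂ + t * g₄)) =
        ∏ n, (δ * ((g₁ * β n - g₂ * α n) / δ * s - (g₄ * α n - g₃ * β n) / δ * t)) := by
      refine Finset.prod_congr rfl fun n _ => ?_
      field_simp
      ring
    rw [h1, Finset.prod_mul_distrib, Finset.prod_const, Finset.card_univ, Fintype.card_fin]
    ring

end Pool.Agent.LibPC60
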