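import Pool.Agent.LibPC60.A1
import Pool.Agent.LibPC60.A2
import Pool.Agent.LibPC60.A3

/-!
[PC60 D3] the limit of a tuple, on a line with a good basis. Plan:
put `e' i = chi 1 m (wt (inl i)) * e i`, same `f'`. `chi (l n) m (wt (inl i)) * p n i = α' n * e' i + β' n * f' i` with `α' n = l n * α n`, `β' n = l n * β n`
(`chi_wt_inl`). As `e₀, f₀` are independent there are `i₁, i₂` with `e₀ i₁ f₀ i₂ - e₀ i₂ f₀ i₁ ≠ 0`; by Cramer `α' n`, `β' n` are quotients of regular functions
by a function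
with nonzero value, so they have values `α₀ n`, `β₀ n` with `p₀ n = α₀ n e₀ + β₀ n f₀` (`Place.val_mul`, `val_div`, `val_unique`), not both zero as `p₀ n ≠ 0`.
By `aeval_scale` (`X.homF`, scalars `(1, m)`; coordinates `m (fac j) * y j` by `chi_wt_inr`):
`F(s e' + t f', m y) = a' ∏ (β' n s - α' n t)` with `a' = chi 1 m (N, β) * a / ∏ l n`. Choose `s₁, t₁ : k` with `∏ (β₀ n s₁ - α₀ n t₁) ≠ 0` (`k` is infinite);
the left side has a value by `zer_aeval`, so `a'` has a value `a₀` (`val_div`), and for all `s t : k`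
`F(s e₀ + t f₀, y₀) = a₀ ∏ (β₀ n s - α₀ n t)` by `val_unique`. The `Λ_j(e₀) = 0` by `aeval_scale`, `zer_aeval`, `zer_const_iff`.
-/

open scoped Classical
open MvPolynomial

set_option linter.unusedSectionVars false

namespace Pool.Agent.LibPC60

open Pool.Agent.LibBH2 Pool.Agent.LibQC8

variable {k J S : Type} [Field k] [IsAlgClosed k] {c N : ℕ} [Fintype J] [Fintype S]
  {K : Type} [Field K] [Algebra k K]

private theorem D3_val (X : Fam k J S c N) (v : Place k K) (y : J → K) (m : S → K)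
    (hm : ∀ t, m t ≠ 0) (y₀ : J → k)
    (hy : ∀ j, v.Zer (m (X.fac j) * y j - algebraMap k K (y₀ j)))
    (P : MvPolynomial (Fin (c + N) ⊕ J) k) (D : Deg S)
    (hP : IsWeightedHomogeneous (wt X.fac X.α) P D) (x : Fin (c + N) → K)
    (x₀ : Fin (c + N) → k)
    (hx : ∀ i, v.Zer (chi 1 m (wt X.fac X.α (Sum.inl i)) * x i - algebraMap k K (x₀ i))) :
    v.Zer (chi 1 m D * aeval (Sum.elim x y) P -
      algebraMap k K (aeval (Sum.elim x₀ y₀) P)) := by
  rw [← aeval_scale (wt X.fac X.α) P D hP 1 m one_ne_zero hm (Sum.elim x y)]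
  apply zer_aeval
  rintro (i | j)
  · exact hx i
  · simp only [Sum.elim_inr]
    rw [chi_wt_inr]
    exact hy j

private theorem D3_minor {n : ℕ} (e f : Fin n → k) (h : LinearIndependent k ![e, f]) :
    ∃ i₁ i₂, e i₁ * f i₂ - e i₂ * f i₁ ≠ 0 := by
  by_contra hcon
  push Not at hcon
  rw [LinearIndependent.pair_iff] at h
  have h1 : ∀ i₁, f i₁ = 0 ∧ -e i₁ = 0 := by
    intro i₁
    apply h
    funext i₂
    have := hcon i₁ i₂
    simp only [Pi.add_apply, Pi.smul_apply, smul_eq_mul, Pi.zero_apply]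
    linear_combination -this
  have h2 := h 1 0 (by
    funext i
    have := (h1 i).2
    simp only [Pi.add_apply, Pi.smul_apply, smul_eq_mul, Pi.zero_apply]
    linear_combination -this)
  exact one_ne_zero h2.1

private theorem D3_prod (v : Place k K) {ι : Type} (s : Finset ι) (g : ι → K) (g₀ : ι → k)
    (h : ∀ n, v.Zer (g n - algebraMap k K (g₀ n))) :
    v.Zer (∏ n ∈ s, g n - algebraMap k K (∏ n ∈ s, g₀ n)) := by
  induction s using Finset.induction_on with
  | empty =>
    rw [Finset.prod_empty, Finset.prod_empty, map_one, sub_self]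
    exact v.zer_zero
  | insert a s ha ih =>
    rw [Finset.prod_insert ha, Finset.prod_insert ha]
    exact Place.val_mul (h a) ih

private theorem D3_tau {N : ℕ} (α β : Fin N → k) (h : ∀ n, α n ≠ 0 ∨ β n ≠ 0) :
    ∃ τ : k, ∏ n, (β n * 1 - α n * τ) ≠ 0 := by
  have : Infinite k := IsAlgClosed.instInfinite
  by_contra hcon
  push Not at hcon
  have h1 : (∏ n, (Polynomial.C (β n) - Polynomial.C (α n) * Polynomial.X)) =
      (0 : Polynomial k) := by
    apply Polynomial.funext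
    intro r
    rw [Polynomial.eval_prod, Polynomial.eval_zero, ← hcon r]
    refine Finset.prod_congr rfl fun n _ => ?_
    simp
  rw [Finset.prod_eq_zero_iff] at h1
  obtain ⟨n, -, hn⟩ := h1
  have h2 : β n = 0 := by
    have := congrArg (fun q => Polynomial.coeff q 0) hn
    simpa using this
  have h3 : α n = 0 := by
    have := congrArg (fun q => Polynomial.coeff q 1) hn
    simpa [Polynomial.coeff_C] using this
  rcases h n with h4 | h4
  · exact h4 h3
  · exact h4 h2

/-- [D3] the limit of a tuple, on a line with a good basis -/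
theorem triW_lim (X : Fam k J S c N) (v : Place k K) (y : J → K) (e f : Fin (c + N) → K)
    (p : Fin N → (Fin (c + N) → K)) (h : TriW X y e f p) (m : S → K) (hm : ∀ t, m t ≠ 0)
    (y₀ : J → k) (hy : ∀ j, v.Zer (m (X.fac j) * y j - algebraMap k K (y₀ j)))
    (e₀ f₀ : Fin (c + N) → k) (h0 : LinearIndependent k ![e₀, f₀])
    (he : ∀ i, v.Zer (chi 1 m (wt X.fac X.α (Sum.inl i)) * e i - algebraMap k K (e₀ i)))
    (hf : ∀ i, v.Zer (chi 1 m (wt X.fac X.α (Sum.inl i)) * f i - algebraMap k K (f₀ i)))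
    (l : Fin N → K) (hl : ∀ n, l n ≠ 0) (p₀ : Fin N → (Fin (c + N) → k)) (hp : ∀ n, p₀ n ≠ 0)
    (hv : ∀ n i, v.Zer (chi (l n) m (wt X.fac X.α (Sum.inl i)) * p n i -
      algebraMap k K (p₀ n i))) : TriW X y₀ e₀ f₀ p₀ := by
  obtain ⟨-, hΛe, hΛf, α, β, a, hab, hF⟩ := h
  have hΛ : ∀ (x : Fin (c + N) → K) (x₀ : Fin (c + N) → k),
      (∀ i, v.Zer (chi 1 m (wt X.fac X.α (Sum.inl i)) * x i - algebraMap k K (x₀ i))) →
      (∀ j, aeval (Sum.elim x y) (X.Λ j) = 0) → ∀ j, aeval (Sum.elim x₀ y₀) (X.Λ j) = 0 := by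
    intro x x₀ hx h1 j
    have h2 := D3_val X v y m hm y₀ hy (X.Λ j) _ (X.homΛ j) x x₀ hx
    rw [h1 j, mul_zero, zero_sub] at h2
    have h3 := h2.neg
    rw [neg_neg, Place.zer_const_iff] at h3
    exact h3
  refine ⟨h0, hΛ e e₀ he hΛe, hΛ f f₀ hf hΛf, ?_⟩
  obtain ⟨i₁, i₂, hδ⟩ := D3_minor e₀ f₀ h0
  -- the values of the coefficients
  obtain ⟨w, hw⟩ : ∃ w : Fin (c + N) → K, w = fun i => chi 1 m (wt X.fac X.α (Sum.inl i)) :=
    ⟨_, rfl⟩
  have hwi : ∀ i, chi 1 m (wt X.fac X.α (Sum.inl i)) = w i := fun i => by rw [hw]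
  simp only [hwi] at he hf
  have hP : ∀ n i, v.Zer (l n * α n * (w i * e i) + l n * β n * (w i * f i) -
      algebraMap k K (p₀ n i)) := by
    intro n i
    have h1 := hv n i
    rw [chi_wt_inl, hwi, (hab n).2] at h1
    have h2 : l n * w i * (α n • e + β n • f) i =
        l n * α n * (w i * e i) + l n * β n * (w i * f i) := by
      simp only [Pi.add_apply, Pi.smul_apply, smul_eq_mul]
      ring
    rw [← h2]
    exact h1
  have hδv := Place.val_sub (Place.val_mul (he i₁) (hf i₂)) (Place.val_mul (he i₂) (hf i₁))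
  have hδ1 : w i₁ * e i₁ * (w i₂ * f i₂) - w i₂ * e i₂ * (w i₁ * f i₁) ≠ 0 :=
    Place.ne_zero_of_val hδv hδ
  have hα : ∀ n, ∃ α₀ : k, v.Zer (l n * α n - algebraMap k K α₀) := by
    intro n
    refine ⟨(p₀ n i₁ * f₀ i₂ - p₀ n i₂ * f₀ i₁) / (e₀ i₁ * f₀ i₂ - e₀ i₂ * f₀ i₁), ?_⟩
    have h1 := Place.val_div (Place.val_sub (Place.val_mul (hP n i₁) (hf i₂))
      (Place.val_mul (hP n i₂) (hf i₁))) hδv hδ
    have h2 : ((l n * α n * (w i₁ * e i₁) + l n * β n * (w i₁ * f i₁)) * (w i₂ * f i₂) -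
        (l n * α n * (w i₂ * e i₂) + l n * β n * (w i₂ * f i₂)) * (w i₁ * f i₁)) /
        (w i₁ * e i₁ * (w i₂ * f i₂) - w i₂ * e i₂ * (w i₁ * f i₁)) = l n * α n := by
      rw [div_eq_iff hδ1]
      ring
    rw [h2] at h1
    exact h1
  have hβ : ∀ n, ∃ β₀ : k, v.Zer (l n * β n - algebraMap k K β₀) := by
    intro n
    refine ⟨(e₀ i₁ * p₀ n i₂ - e₀ i₂ * p₀ n i₁) / (e₀ i₁ * f₀ i₂ - e₀ i₂ * f₀ i₁), ?_⟩
    have h1 := Place.val_div (Place.val_sub (Place.val_mul (he i₁) (hP n i₂))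
      (Place.val_mul (he i₂) (hP n i₁))) hδv hδ
    have h2 : (w i₁ * e i₁ * (l n * α n * (w i₂ * e i₂) + l n * β n * (w i₂ * f i₂)) -
        w i₂ * e i₂ * (l n * α n * (w i₁ * e i₁) + l n * β n * (w i₁ * f i₁))) /
        (w i₁ * e i₁ * (w i₂ * f i₂) - w i₂ * e i₂ * (w i₁ * f i₁)) = l n * β n := by
      rw [div_eq_iff hδ1]
      ring
    rw [h2] at h1
    exact h1
  choose α₀ hα₀ using hα
  choose β₀ hβ₀ using hβ
  have hp₀ : ∀ n, p₀ n = α₀ n • e₀ + β₀ n • f₀ := by
    intro n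
    funext i
    have h1 := Place.val_add (Place.val_mul (hα₀ n) (he i)) (Place.val_mul (hβ₀ n) (hf i))
    exact Place.val_unique (hP n i) h1
  have hne : ∀ n, α₀ n ≠ 0 ∨ β₀ n ≠ 0 := by
    intro n
    by_contra hcon
    push Not at hcon
    apply hp n
    rw [hp₀ n, hcon.1, hcon.2, zero_smul, zero_smul, add_zero]
  -- the values of the polynomial on the line
  have hL : ∏ n, l n ≠ 0 := Finset.prod_ne_zero_iff.2 fun n _ => hl n
  obtain ⟨a', ha'⟩ : ∃ a' : K, a' = chi 1 m (((N : ℤ), X.β) : Deg S) * a / ∏ n, l n := ⟨_, rfl⟩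
  have hΦ : ∀ s t : k, v.Zer (a' * ∏ n, (l n * β n * algebraMap k K s -
      l n * α n * algebraMap k K t) -
      algebraMap k K (aeval (Sum.elim (s • e₀ + t • f₀) y₀) X.F)) := by
    intro s t
    have h1 := D3_val X v y m hm y₀ hy X.F _ X.homF
      (algebraMap k K s • e + algebraMap k K t • f) (s • e₀ + t • f₀) (by
        intro i
        have h2 := Place.val_add (Place.val_mul (Place.val_const (v := v) s) (he i))
          (Place.val_mul (Place.val_const (v := v) t) (hf i))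
        have h3 : chi 1 m (wt X.fac X.α (Sum.inl i)) *
            (algebraMap k K s • e + algebraMap k K t • f) i =
            algebraMap k K s * (w i * e i) + algebraMap k K t * (w i * f i) := by
          rw [hwi]
          simp only [Pi.add_apply, Pi.smul_apply, smul_eq_mul]
          ring
        rw [h3]
        exact h2)
    rw [hF] at h1
    have h4 : a' * ∏ n, (l n * β n * algebraMap k K s - l n * α n * algebraMap k K t) =
        chi 1 m (((N : ℤ), X.β) : Deg S) *
          (a * ∏ n, (β n * algebraMap k K s - α n * algebraMap k K t)) := by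
      have h5 : ∏ n, (l n * β n * algebraMap k K s - l n * α n * algebraMap k K t) =
          (∏ n, l n) * ∏ n, (β n * algebraMap k K s - α n * algebraMap k K t) := by
        rw [← Finset.prod_mul_distrib]
        refine Finset.prod_congr rfl fun n _ => ?_
        ring
      rw [h5, ha', div_mul_eq_mul_div, div_eq_iff hL]
      ring
    rw [h4]
    exact h1
  have hPr : ∀ s t : k, v.Zer (∏ n, (l n * β n * algebraMap k K s -
      l n * α n * algebraMap k K t) - algebraMap k K (∏ n, (β₀ n * s - α₀ n * t))) := by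
    intro s t
    apply D3_prod
    intro n
    exact Place.val_sub (Place.val_mul (hβ₀ n) (Place.val_const s))
      (Place.val_mul (hα₀ n) (Place.val_const t))
  obtain ⟨τ, hτ⟩ := D3_tau α₀ β₀ hne
  obtain ⟨a₀, ha₀⟩ : ∃ a₀ : k, v.Zer (a' - algebraMap k K a₀) := by
    have h1 := Place.val_div (hΦ 1 τ) (hPr 1 τ) hτ
    rw [mul_div_cancel_right₀ _ (Place.ne_zero_of_val (hPr 1 τ) hτ)] at h1
    exact ⟨_, h1⟩
  refine ⟨α₀, β₀, a₀, fun n => ⟨hne n, hp₀ n⟩, fun s t => ?_⟩
  exact Place.val_unique (hΦ s t) (Place.val_mul ha₀ (hPr s t))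

end Pool.Agent.LibPC60
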