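import Pool.Agent.LibPC60.A1

/-!
[PC60 D5] proportional points are equal. Plan:
`p.x_ne` gives `a` with `p.z (inl a) ≠ 0`; `l = q.z (inl a) / p.z (inl a)`, then `q.z (inl b) = l * p.z (inl b)` for all `b`, `l ≠ 0` by `q.x_ne`. `Eqv X p q`
with `(l, 1)`: `chi_wt_inl`, `chi_wt_inr`, `chi 1 1 _ = 1`. `Quot.sound`.
-/

open scoped Classical
open MvPolynomial

set_option linter.unusedSectionVars false

namespace Pool.Agent.LibPC60

open Pool.Agent.LibBH2 Pool.Agent.LibQC8

variable {k J S : Type} [Field k] [IsAlgClosed k] {c N : ℕ} [Fintype J] [Fintype S]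
  {K : Type} [Field K] [Algebra k K]

/-- [D5] two points of a fibre with proportional fibre coordinates -/
theorem pt_eq_of_prop (X : Fam k J S c N) (p q : Pt X k)
    (hy : ∀ j, p.z (Sum.inr j) = q.z (Sum.inr j))
    (h : ∀ a b, p.z (Sum.inl a) * q.z (Sum.inl b) - p.z (Sum.inl b) * q.z (Sum.inl a) = 0) :
    pt p = pt q := by
  obtain ⟨a, ha⟩ := p.x_ne
  have hq : ∀ b, q.z (Sum.inl b) = q.z (Sum.inl a) / p.z (Sum.inl a) * p.z (Sum.inl b) := by
    intro b
    have h1 := h a b
    field_simp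
    linear_combination h1
  have hl : q.z (Sum.inl a) / p.z (Sum.inl a) ≠ 0 := by
    intro h0
    obtain ⟨b, hb⟩ := q.x_ne
    apply hb
    rw [hq b, h0, zero_mul]
  have he : Eqv X p q := by
    refine ⟨q.z (Sum.inl a) / p.z (Sum.inl a), 1, hl, fun _ => one_ne_zero, ?_⟩
    intro i
    rcases i with b | j
    · rw [hq b]
      congr 1
      unfold chi wt
      simp
    · rw [← hy j]
      unfold chi wt
      simp
  unfold pt
  rw [Quot.sound he]

end Pool.Agent.LibPC60
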