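import Pool.Agent.LibPC60.B9
import Pool.Agent.LibPC60.C4
import Pool.Agent.LibPC60.C5
import Pool.Agent.LibPC60.C17
import Pool.Agent.LibPC60.D5

/-!
[PC60 D6] two points of a line contained in X. Plan:
if the fibre coordinates of `p`, `q` are proportional use `pt_eq_of_prop`. Otherwise put `K = RatFunc k`, `T = RatFunc.X`, and let `u` be the `K`-point with
fibre coordinates `p_i + T q_i` and the constant base coordinates. It is a point of `X`: `Λ_j` by `lam_lin`; `F`: by `binary_form` for the vectors `p, q`
over `k` the coefficients `a n` vanish (all values `F(s p + t q)` with `s t : k` are zero by `h3`, `k` infinite), so `F(u) = 0`. Values: at a place with `v.ord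
T > 0` the value is `p` (`l = 1, m = 1`), at a place with `v.ord T < 0` the value is `q` (`l = T⁻¹`). `genM` with `M = 1`. (The equations `hE` for constant
coordinates: `aeval` commutes with `algebraMap`.)
-/

open scoped Classical
open MvPolynomial

set_option linter.unusedSectionVars false

namespace Pool.Agent.LibPC60

open Pool.Agent.LibBH2 Pool.Agent.LibQC8

variable {k J S : Type} [Field k] [IsAlgClosed k] {c N : ℕ} [Fintype J] [Fintype S]
  {K : Type} [Field K] [Algebra k K]

private theorem line_coef (N : ℕ) (a : Fin (N + 1) → k)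
    (h : ∀ t : k, ∑ n : Fin (N + 1), a n * t ^ (n : ℕ) = 0) : ∀ n, a n = 0 := by
  classical
  set P : Polynomial k := ∑ n : Fin (N + 1), Polynomial.C (a n) * Polynomial.X ^ (n : ℕ) with hP
  have h1 : P = 0 := by
    apply Polynomial.funext
    intro t
    rw [hP, Polynomial.eval_finsetSum, Polynomial.eval_zero, ← h t]
    refine Finset.sum_congr rfl fun n _ => ?_
    simp
  intro n
  have h2 : P.coeff (n : ℕ) = a n := by
    rw [hP, Polynomial.finsetSum_coeff, Finset.sum_eq_single n]
    · simp
    · intro b _ hb
      rw [Polynomial.coeff_C_mul, Polynomial.coeff_X_pow, if_neg, mul_zero]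
      intro hh
      exact hb (Fin.ext hh.symm)
    · intro hn
      exact absurd (Finset.mem_univ n) hn
  rw [← h2, h1, Polynomial.coeff_zero]

private theorem chi_one_one (D : Deg S) : chi (1 : K) (fun _ => 1) D = 1 := by
  simp [chi]

/-- [D6] two points of a line contained in `X` -/
theorem line_eq (X : Fam k J S c N) (e f : Fin (c + N) → k) (he : LinearIndependent k ![e, f])
    (p q : Pt X k) (hy : ∀ j, p.z (Sum.inr j) = q.z (Sum.inr j))
    (h1 : ∀ j, aeval (Sum.elim e (fun j => p.z (Sum.inr j))) (X.Λ j) = 0)
    (h2 : ∀ j, aeval (Sum.elim f (fun j => p.z (Sum.inr j))) (X.Λ j) = 0)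
    (h3 : ∀ s t : k, aeval (Sum.elim (s • e + t • f) (fun j => p.z (Sum.inr j))) X.F = 0)
    (hp : ∃ s t : k, (fun i => p.z (Sum.inl i)) = s • e + t • f)
    (hq : ∃ s t : k, (fun i => q.z (Sum.inl i)) = s • e + t • f) :
    cl (pt p) = cl (pt q) := by
  classical
  obtain ⟨hff, hT⟩ := ratFunc_ff (k := k)
  set T : RatFunc k := RatFunc.X with hTdef
  have hT0 : T ≠ 0 := by
    intro h0
    exact hT (h0 ▸ isAlgebraic_zero)
  have hqz : q.z = Sum.elim (fun i => q.z (Sum.inl i)) (fun j => p.z (Sum.inr j)) := by
    funext i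
    rcases i with i | j
    · rfl
    · exact (hy j).symm
  have hpz : p.z = Sum.elim (fun i => p.z (Sum.inl i)) (fun j => p.z (Sum.inr j)) := by
    funext i
    rcases i with i | j
    · rfl
    · rfl
  have hconst : ∀ (w : Fin (c + N) ⊕ J → k) (P : MvPolynomial (Fin (c + N) ⊕ J) k),
      aeval (fun i => algebraMap k (RatFunc k) (w i)) P = algebraMap k (RatFunc k) (aeval w P) := by
    intro w P
    exact MvPolynomial.aeval_algebraMap_apply (RatFunc k) w P
  obtain ⟨a, ha⟩ := binary_form X (fun j => p.z (Sum.inr j)) (fun i => p.z (Sum.inl i))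
    (fun i => q.z (Sum.inl i))
  have ha0 : ∀ n, a n = 0 := by
    apply line_coef
    intro t
    have h4 := ha k (AlgHom.id k k) 1 t
    obtain ⟨s1, t1, hp1⟩ := hp
    obtain ⟨s2, t2, hq1⟩ := hq
    have h5 : (fun n => (1 : k) * (AlgHom.id k k) (p.z (Sum.inl n)) +
        t * (AlgHom.id k k) (q.z (Sum.inl n))) = (s1 + t * s2) • e + (t1 + t * t2) • f := by
      funext n
      have e1 : p.z (Sum.inl n) = s1 * e n + t1 * f n := congrFun hp1 n
      have e2 : q.z (Sum.inl n) = s2 * e n + t2 * f n := congrFun hq1 n
      simp only [AlgHom.id_apply, Pi.add_apply, Pi.smul_apply, smul_eq_mul]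
      rw [e1, e2]
      ring
    have h6 : (fun j => (AlgHom.id k k) (p.z (Sum.inr j))) = fun j => p.z (Sum.inr j) := rfl
    rw [h5, h6, h3] at h4
    rw [h4]
    refine Finset.sum_congr rfl fun n _ => ?_
    simp
  let z : Fin (c + N) ⊕ J → RatFunc k := Sum.elim
    (fun i => algebraMap k (RatFunc k) (p.z (Sum.inl i)) +
      T * algebraMap k (RatFunc k) (q.z (Sum.inl i)))
    (fun j => algebraMap k (RatFunc k) (p.z (Sum.inr j)))
  let u : Pt X (RatFunc k) :=
    { z := z
      x_ne := by
        obtain ⟨i, hi⟩ := p.x_ne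
        refine ⟨i, ?_⟩
        change algebraMap k (RatFunc k) (p.z (Sum.inl i)) +
          T * algebraMap k (RatFunc k) (q.z (Sum.inl i)) ≠ 0
        intro h0
        by_cases hqi : q.z (Sum.inl i) = 0
        · rw [hqi, map_zero, mul_zero, add_zero] at h0
          exact hi ((map_eq_zero _).1 h0)
        · apply hT
          have h7 : T = algebraMap k (RatFunc k) (-(p.z (Sum.inl i)) / q.z (Sum.inl i)) := by
            have h8 : algebraMap k (RatFunc k) (q.z (Sum.inl i)) ≠ 0 := by
              intro h9
              exact hqi ((map_eq_zero _).1 h9)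
            rw [map_div₀, map_neg, eq_div_iff h8]
            exact eq_neg_of_add_eq_zero_right h0
          rw [h7]
          exact isAlgebraic_algebraMap _
      y_ne := by
        intro t
        obtain ⟨j, hj, hj0⟩ := p.y_ne t
        refine ⟨j, hj, ?_⟩
        change algebraMap k (RatFunc k) (p.z (Sum.inr j)) ≠ 0
        intro h0
        exact hj0 ((map_eq_zero _).1 h0)
      hE := by
        intro E hE
        change aeval (fun j => algebraMap k (RatFunc k) (p.z (Sum.inr j))) E = 0
        have h7 : aeval (fun j => algebraMap k (RatFunc k) (p.z (Sum.inr j))) E =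
            algebraMap k (RatFunc k) (aeval (fun j => p.z (Sum.inr j)) E) :=
          MvPolynomial.aeval_algebraMap_apply (RatFunc k) (fun j => p.z (Sum.inr j)) E
        rw [h7, p.hE E hE, map_zero]
      hΛ := by
        intro j
        change aeval z (X.Λ j) = 0
        have h7 : ∀ w : Fin (c + N) → k,
            aeval (Sum.elim (fun i => algebraMap k (RatFunc k) (w i))
              (fun j => algebraMap k (RatFunc k) (p.z (Sum.inr j)))) (X.Λ j) =
            algebraMap k (RatFunc k) (aeval (Sum.elim w (fun j => p.z (Sum.inr j))) (X.Λ j)) := by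
          intro w
          rw [← hconst]
          congr 2
          funext i
          rcases i with i | i <;> rfl
        have h8 := h7 (fun i => p.z (Sum.inl i))
        have h9 := h7 (fun i => q.z (Sum.inl i))
        rw [← hpz, p.hΛ j, map_zero] at h8
        rw [← hqz, q.hΛ j, map_zero] at h9
        rw [lam_lin X j _ (0 : Fin (c + N) → RatFunc k)] at h8 h9 ⊢
        have h10 : ∀ A : Fin (c + N) → RatFunc k,
            ∑ i, (algebraMap k (RatFunc k) (p.z (Sum.inl i)) +
              T * algebraMap k (RatFunc k) (q.z (Sum.inl i))) * A i =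
            ∑ i, algebraMap k (RatFunc k) (p.z (Sum.inl i)) * A i +
              T * ∑ i, algebraMap k (RatFunc k) (q.z (Sum.inl i)) * A i := by
          intro A
          rw [Finset.mul_sum, ← Finset.sum_add_distrib]
          refine Finset.sum_congr rfl fun i _ => ?_
          ring
        rw [h10, h8, h9, mul_zero, add_zero]
      hF := by
        have h7 := ha (RatFunc k) (Algebra.ofId k (RatFunc k)) 1 T
        have h8 : (Sum.elim (fun n => (1 : RatFunc k) * (Algebra.ofId k (RatFunc k))
              (p.z (Sum.inl n)) + T * (Algebra.ofId k (RatFunc k)) (q.z (Sum.inl n)))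
            (fun j => (Algebra.ofId k (RatFunc k)) (p.z (Sum.inr j)))) = z := by
          funext i
          rcases i with i | i
          · simp only [Sum.elim_inl, z, one_mul, Algebra.ofId_apply]
          · rfl
        rw [h8] at h7
        rw [h7]
        refine Finset.sum_eq_zero fun n _ => ?_
        rw [ha0 n, map_zero, zero_mul, zero_mul] }
  have huz1 : ∀ i, u.z (Sum.inl i) = algebraMap k (RatFunc k) (p.z (Sum.inl i)) +
      T * algebraMap k (RatFunc k) (q.z (Sum.inl i)) := fun i => rfl
  have huz2 : ∀ j, u.z (Sum.inr j) = algebraMap k (RatFunc k) (p.z (Sum.inr j)) := fun j => rfl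
  refine genM X hff 1 (fun _ => u) T hT (cl (pt p)) (cl (pt q)) ?_ ?_
  · intro v hv
    refine ⟨fun _ => p, fun _ => ⟨1, fun _ => 1, ?_⟩, by simp⟩
    refine ⟨one_ne_zero, fun _ => one_ne_zero, ?_⟩
    intro i
    rw [chi_one_one, one_mul]
    rcases i with i | j
    · rw [huz1, add_sub_cancel_left]
      exact Place.Zer.mul_reg (Or.inr hv) (v.reg_const _)
    · rw [huz2, sub_self]
      exact v.zer_zero
  · intro v hv
    refine ⟨fun _ => q, fun _ => ⟨T⁻¹, fun _ => 1, ?_⟩, by simp⟩
    refine ⟨inv_ne_zero hT0, fun _ => one_ne_zero, ?_⟩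
    intro i
    rcases i with i | j
    · rw [chi_wt_inl, chi_one_one, mul_one, huz1]
      have h7 : T⁻¹ * (algebraMap k (RatFunc k) (p.z (Sum.inl i)) +
          T * algebraMap k (RatFunc k) (q.z (Sum.inl i))) -
          algebraMap k (RatFunc k) (q.z (Sum.inl i)) =
          T⁻¹ * algebraMap k (RatFunc k) (p.z (Sum.inl i)) := by
        rw [mul_add, ← mul_assoc, inv_mul_cancel₀ hT0, one_mul, add_sub_cancel_right]
      rw [h7]
      refine Place.Zer.mul_reg (Or.inr ?_) (v.reg_const _)
      rw [v.ord_inv]
      omega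
    · rw [chi_wt_inr, one_mul, huz2, hy, sub_self]
      exact v.zer_zero

end Pool.Agent.LibPC60
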