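import Pool.Agent.LibPC60.RowDefs

/-!
[PC60 D7] uniqueness of the factorisation of a binary form. Plan:
induction on `N` (generalise all, use `Fin.prod_univ_succ` and `Fin (N+1)` permutations via `Equiv.swap` / `Equiv.Perm.decomposeFin`, or state it for
`Multiset`/`Finset` first). At `(s, t) = (α 0, β 0)` the left side vanishes, so some factor `n₁` of the right side vanishes there (`a' ≠ 0` as the left side is
not
identically zero: `k` is infinite): `β' n₁ α 0 = α' n₁ β 0`, so `(α' n₁, β' n₁) = ρ (α 0, β 0)`, `ρ ≠ 0`. Cancel the common factor `β 0 s - α 0 t`: the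
remaining products agree at all `(s, t)` outside of a line, hence everywhere (for fixed `(s,t)` compare the polynomials in `x` at `(s + x s', t + x t')`).
-/

open scoped Classical
open MvPolynomial

set_option linter.unusedSectionVars false

namespace Pool.Agent.LibPC60

open Pool.Agent.LibBH2 Pool.Agent.LibQC8

variable {k : Type} [Field k] [IsAlgClosed k]

private theorem D7_exists (N : ℕ) (α β : Fin N → k) (h1 : ∀ n, α n ≠ 0 ∨ β n ≠ 0) :
    ∃ s : k, ∀ n, β n * s - α n * 1 ≠ 0 := by
  have hinf : Infinite k := IsAlgClosed.instInfinite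
  obtain ⟨s, hs⟩ := Infinite.exists_notMem_finset (Finset.univ.image fun n => α n / β n)
  refine ⟨s, fun n h0 => ?_⟩
  rcases eq_or_ne (β n) 0 with hb | hb
  · rw [hb, zero_mul, zero_sub, mul_one, neg_eq_zero] at h0
    exact (h1 n).elim (fun h => h h0) (fun h => h hb)
  · apply hs
    rw [Finset.mem_image]
    refine ⟨n, Finset.mem_univ n, ?_⟩
    rw [div_eq_iff hb]
    linear_combination -h0

/-- cancel a linear form -/
private theorem D7_cancel (N : ℕ) (α β α' β' : Fin N → k) (a a' : k) (α0 β0 : k) (h0 : α0 ≠ 0 ∨ β0 ≠ 0)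
    (h : ∀ s t : k, β0 * s - α0 * t ≠ 0 →
      a * ∏ n, (β n * s - α n * t) = a' * ∏ n, (β' n * s - α' n * t)) (s t : k) :
    a * ∏ n, (β n * s - α n * t) = a' * ∏ n, (β' n * s - α' n * t) := by
  classical
  have hinf : Infinite k := IsAlgClosed.instInfinite
  by_cases hst : β0 * s - α0 * t = 0
  swap
  · exact h s t hst
  obtain ⟨s', t', hst'⟩ : ∃ s' t' : k, β0 * s' - α0 * t' ≠ 0 := by
    rcases h0 with h0 | h0
    · exact ⟨0, 1, by simpa using h0⟩
    · exact ⟨1, 0, by simpa using h0⟩
  let P : Polynomial k := Polynomial.C a * ∏ n, (Polynomial.C (β n) * (Polynomial.C s + Polynomial.X * Polynomial.C s') -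
    Polynomial.C (α n) * (Polynomial.C t + Polynomial.X * Polynomial.C t'))
  let Q : Polynomial k := Polynomial.C a' * ∏ n, (Polynomial.C (β' n) * (Polynomial.C s + Polynomial.X * Polynomial.C s') -
    Polynomial.C (α' n) * (Polynomial.C t + Polynomial.X * Polynomial.C t'))
  have hP : ∀ x, P.eval x = a * ∏ n, (β n * (s + x * s') - α n * (t + x * t')) := by
    intro x
    simp only [P, Polynomial.eval_prod, Polynomial.eval_mul, Polynomial.eval_C, Polynomial.eval_sub,
      Polynomial.eval_add, Polynomial.eval_X]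
  have hQ : ∀ x, Q.eval x = a' * ∏ n, (β' n * (s + x * s') - α' n * (t + x * t')) := by
    intro x
    simp only [Q, Polynomial.eval_prod, Polynomial.eval_mul, Polynomial.eval_C, Polynomial.eval_sub,
      Polynomial.eval_add, Polynomial.eval_X]
  have hPQ : P = Q := by
    refine Polynomial.eq_of_infinite_eval_eq P Q ?_
    refine Set.Infinite.mono (s := {x : k | x ≠ 0}) ?_ ?_
    · intro x hx
      show P.eval x = Q.eval x
      rw [hP, hQ]
      refine h _ _ ?_
      have e : β0 * (s + x * s') - α0 * (t + x * t') = (β0 * s - α0 * t) + x * (β0 * s' - α0 * t') := by ring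
      rw [e, hst, zero_add]
      exact mul_ne_zero hx hst'
    · exact (Set.finite_singleton (0 : k)).infinite_compl
  have h2 : P.eval 0 = Q.eval 0 := by rw [hPQ]
  rw [hP, hQ] at h2
  simpa using h2

/-- [D7] two factorisations of the same binary form -/
theorem fact_unique (N : ℕ) (α β α' β' : Fin N → k) (a a' : k) (ha : a ≠ 0)
    (h1 : ∀ n, α n ≠ 0 ∨ β n ≠ 0) (h2 : ∀ n, α' n ≠ 0 ∨ β' n ≠ 0)
    (h : ∀ s t : k, a * ∏ n, (β n * s - α n * t) = a' * ∏ n, (β' n * s - α' n * t)) :
    ∃ π : Equiv.Perm (Fin N), ∀ n, α n * β' (π n) - β n * α' (π n) = 0 := by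
  classical
  induction N generalizing a a' with
  | zero => exact ⟨Equiv.refl _, fun n => n.elim0⟩
  | succ N ih =>
    have ha' : a' ≠ 0 := by
      rintro rfl
      obtain ⟨s, hs⟩ := D7_exists _ α β h1
      have h3 := h s 1
      rw [zero_mul, mul_eq_zero] at h3
      rcases h3 with h3 | h3
      · exact ha h3
      · obtain ⟨n, _, hn⟩ := Finset.prod_eq_zero_iff.1 h3
        exact hs n hn
    have h3 : ∏ n, (β' n * α 0 - α' n * β 0) = 0 := by
      have h4 := h (α 0) (β 0)
      rw [Fin.prod_univ_succ, show β 0 * α 0 - α 0 * β 0 = 0 by ring, zero_mul, mul_zero] at h4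
      exact (mul_eq_zero.1 h4.symm).resolve_left ha'
    obtain ⟨n₁, _, hn₁⟩ := Finset.prod_eq_zero_iff.1 h3
    obtain ⟨ρ, hρ0, hρ1, hρ2⟩ : ∃ ρ : k, ρ ≠ 0 ∧ α' n₁ = ρ * α 0 ∧ β' n₁ = ρ * β 0 := by
      rcases eq_or_ne (α 0) 0 with hα | hα
      · have hβ : β 0 ≠ 0 := (h1 0).resolve_left (fun h => h hα)
        have hα' : α' n₁ = 0 := by
          rw [hα, mul_zero, zero_sub, neg_eq_zero] at hn₁
          exact (mul_eq_zero.1 hn₁).resolve_right hβ
        have hβ' : β' n₁ ≠ 0 := (h2 n₁).resolve_left (fun h => h hα')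
        refine ⟨β' n₁ / β 0, div_ne_zero hβ' hβ, ?_, ?_⟩
        · rw [hα', hα, mul_zero]
        · field_simp
      · have h5 : α' n₁ ≠ 0 := by
          intro h6
          rw [h6, zero_mul, sub_zero] at hn₁
          have h7 := (mul_eq_zero.1 hn₁).resolve_right hα
          exact (h2 n₁).elim (fun h => h h6) (fun h => h h7)
        refine ⟨α' n₁ / α 0, div_ne_zero h5 hα, ?_, ?_⟩
        · field_simp
        · field_simp
          linear_combination hn₁
    have h4 : ∀ s t : k, β 0 * s - α 0 * t ≠ 0 →
        a * ∏ n : Fin N, (β n.succ * s - α n.succ * t) =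
          (a' * ρ) * ∏ n : Fin N, (β' (n₁.succAbove n) * s - α' (n₁.succAbove n) * t) := by
      intro s t hst
      have h5 := h s t
      rw [Fin.prod_univ_succ, Fin.prod_univ_succAbove _ n₁, hρ1, hρ2] at h5
      refine mul_left_cancel₀ hst ?_
      linear_combination h5
    have h5 := D7_cancel N _ _ _ _ _ _ (α 0) (β 0) (h1 0) h4
    obtain ⟨π₀, hπ₀⟩ := ih (fun n => α n.succ) (fun n => β n.succ) (fun n => α' (n₁.succAbove n))
      (fun n => β' (n₁.succAbove n)) a (a' * ρ) ha (fun n => h1 _) (fun n => h2 _) h5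
    let f : Fin (N + 1) → Fin (N + 1) := Fin.cons n₁ (fun n => n₁.succAbove (π₀ n))
    have hf0 : f 0 = n₁ := rfl
    have hfs : ∀ n : Fin N, f n.succ = n₁.succAbove (π₀ n) := fun n => rfl
    have hinj : Function.Injective f := by
      intro x y hxy
      induction x using Fin.cases with
      | zero =>
        induction y using Fin.cases with
        | zero => rfl
        | succ y =>
          rw [hf0, hfs] at hxy
          exact absurd hxy.symm (Fin.succAbove_ne n₁ _)
      | succ x =>
        induction y using Fin.cases with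
        | zero =>
          rw [hf0, hfs] at hxy
          exact absurd hxy (Fin.succAbove_ne n₁ _)
        | succ y =>
          rw [hfs, hfs] at hxy
          rw [π₀.injective (Fin.succAbove_right_injective hxy)]
    refine ⟨Equiv.ofBijective f (Finite.injective_iff_bijective.1 hinj), fun n => ?_⟩
    show α n * β' (f n) - β n * α' (f n) = 0
    induction n using Fin.cases with
    | zero =>
      rw [hf0, hρ1, hρ2]
      ring
    | succ n =>
      rw [hfs]
      exact hπ₀ n

end Pool.Agent.LibPC60
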