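import Pool.Agent.LibPC60.D5
import Pool.Agent.LibPC60.D6
import Pool.Agent.LibPC60.D7

/-!
[PC60 D8] two tuples on the same line. Plan:
from the two `TriW` take `(α, β, a)`, `(α', β', a')`; the two products are both `F(s e + t f)`. If `a ≠ 0`: `fact_unique` gives `π` with `(α n, β n)`
proportional to `(α' (π n), β' (π n))`, so `pt (p n) = pt (q (π n))` by `pt_eq_of_prop`, `Equiv.sum_comp`. If `a = 0`, `F` vanishes on the line and `line_eq`
gives
`cl (pt (p n)) = cl (pt (q n))` for every `n`.
-/

open scoped Classical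
open MvPolynomial

set_option linter.unusedSectionVars false

namespace Pool.Agent.LibPC60

open Pool.Agent.LibBH2 Pool.Agent.LibQC8

variable {k J S : Type} [Field k] [IsAlgClosed k] {c N : ℕ} [Fintype J] [Fintype S]
  {K : Type} [Field K] [Algebra k K]

/-- [D8] two tuples on the same line -/
theorem triW_eq (X : Fam k J S c N) (y : J → k) (e f : Fin (c + N) → k) (p q : Fin N → Pt X k)
    (hp : ∀ n j, (p n).z (Sum.inr j) = y j) (hq : ∀ n j, (q n).z (Sum.inr j) = y j)
    (h : TriW X y e f (fun n i => (p n).z (Sum.inl i)))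
    (h' : TriW X y e f (fun n i => (q n).z (Sum.inl i))) :
    ∑ n, cl (pt (p n)) = ∑ n, cl (pt (q n)) := by
  obtain ⟨hli, hl1, hl2, α, β, a, hab, hF⟩ := h
  obtain ⟨-, -, -, α', β', a', hab', hF'⟩ := h'
  have hpc : ∀ n i, (p n).z (Sum.inl i) = α n * e i + β n * f i := by
    intro n i
    have := congrFun (hab n).2 i
    simpa using this
  have hqc : ∀ n i, (q n).z (Sum.inl i) = α' n * e i + β' n * f i := by
    intro n i
    have := congrFun (hab' n).2 i
    simpa using this
  by_cases ha : a = 0
  · refine Finset.sum_congr rfl fun n _ => ?_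
    have hyp : (fun j => (p n).z (Sum.inr j)) = y := funext (hp n)
    refine line_eq X e f hli (p n) (q n) (fun j => by rw [hp, hq]) ?_ ?_ ?_ ?_ ?_
    · intro j
      rw [hyp]
      exact hl1 j
    · intro j
      rw [hyp]
      exact hl2 j
    · intro s t
      rw [hyp, hF s t, ha, zero_mul]
    · exact ⟨α n, β n, (hab n).2⟩
    · exact ⟨α' n, β' n, (hab' n).2⟩
  · obtain ⟨π, hπ⟩ := fact_unique N α β α' β' a a' ha (fun n => (hab n).1) (fun n => (hab' n).1)
      (fun s t => by rw [← hF s t, ← hF' s t])
    rw [← Equiv.sum_comp π (fun n => cl (pt (q n)))]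
    refine Finset.sum_congr rfl fun n _ => ?_
    have : pt (p n) = pt (q (π n)) := by
      refine pt_eq_of_prop X (p n) (q (π n)) (fun j => by rw [hp, hq]) ?_
      intro a b
      rw [hpc n a, hpc n b, hqc (π n) a, hqc (π n) b]
      have h0 := hπ n
      linear_combination (e a * f b - e b * f a) * h0
    rw [this]

end Pool.Agent.LibPC60
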