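import Pool.Agent.LibPC60.C4

/-!
[PC60 D9] the points of a tuple lie on X. Plan:
`p n = α e + β f` is nonzero by independence; `Λ_j` by `lam_lin`; `F(p n) = a ∏_m (β m α n - α m β n) = 0` (factor `m = n`). Coordinates `Sum.elim (p n) y.y`.
-/

open scoped Classical
open MvPolynomial

set_option linter.unusedSectionVars false

namespace Pool.Agent.LibPC60

open Pool.Agent.LibBH2 Pool.Agent.LibQC8

variable {k J S : Type} [Field k] [IsAlgClosed k] {c N : ℕ} [Fintype J] [Fintype S]
  {K : Type} [Field K] [Algebra k K]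

/-- [D9] the points of a tuple lie on `X` -/
theorem pt_of_triW (X : Fam k J S c N) (y : BPt X K) (e f : Fin (c + N) → K)
    (p : Fin N → (Fin (c + N) → K)) (h : TriW X y.y e f p) :
    ∃ u : Fin N → Pt X K, (∀ n i, (u n).z (Sum.inl i) = p n i) ∧
      ∀ n j, (u n).z (Sum.inr j) = y.y j := by
  obtain ⟨hind, hLe, hLf, α, β, a, hp, hF⟩ := h
  have hx : ∀ n, ∃ i, p n i ≠ 0 := by
    intro n
    by_contra hcon
    push Not at hcon
    obtain ⟨h1, h2⟩ := hp n
    have h3 : α n • e + β n • f = 0 := by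
      rw [← h2]
      funext i
      exact hcon i
    have h4 := (LinearIndependent.pair_iff.1 hind) (α n) (β n) h3
    rcases h1 with h1 | h1
    · exact h1 h4.1
    · exact h1 h4.2
  have hlam : ∀ n j, aeval (Sum.elim (p n) y.y) (X.Λ j) = 0 := by
    intro n j
    have h1 := lam_lin X j e 0 y.y
    have h2 := lam_lin X j f 0 y.y
    have h3 := lam_lin X j (p n) 0 y.y
    rw [hLe j] at h1
    rw [hLf j] at h2
    rw [h3]
    have h4 : ∀ i, p n i = α n * e i + β n * f i := by
      intro i
      rw [(hp n).2]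
      simp [smul_eq_mul]
    simp only [h4, add_mul, Finset.sum_add_distrib, mul_assoc]
    rw [← Finset.mul_sum, ← Finset.mul_sum, ← h1, ← h2, mul_zero, mul_zero, add_zero]
  have hf : ∀ n, aeval (Sum.elim (p n) y.y) X.F = 0 := by
    intro n
    rw [(hp n).2, hF (α n) (β n), Finset.prod_eq_zero (Finset.mem_univ n) (by ring), mul_zero]
  refine ⟨fun n => ⟨Sum.elim (p n) y.y, hx n, ?_, ?_, hlam n, hf n⟩, fun n i => rfl,
    fun n j => rfl⟩
  · exact y.y_ne
  · exact y.hE

end Pool.Agent.LibPC60
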