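import Pool.Agent.LibPC60.B3
import Pool.Agent.LibPC60.B9
import Pool.Agent.LibPC60.D1
import Pool.Agent.LibPC60.D3
import Pool.Agent.LibPC60.D8
import Pool.Agent.LibPC60.D9

/-!
[PC60 D10] a family of lines over a curve. Plan:
`u' n : Pt X K` from `pt_of_triW`. `genM` with `M = N`, the points `u'`, the function `φ`, the classes `∑ cl (pt (p n))`, `∑ cl (pt (q n))`. At a zero `v` of
`φ`: `m, g` from `hz`; `exists_normX` for `u' n` with `m` and `y₀` gives `l n` and `p' n` over `y₀`; `TriW X y.y (g • e) (g • f) u` by `triW_basis`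
(diagonal matrix), `triW_lim` gives `TriW X y₀.y e₀ f₀ (p' ..)`, and `triW_eq` gives `∑ cl (pt (p' n)) = ∑ cl (pt (p n))`. The poles in the same way.
-/

open scoped Classical
open MvPolynomial

set_option linter.unusedSectionVars false

namespace Pool.Agent.LibPC60

open Pool.Agent.LibBH2 Pool.Agent.LibQC8

variable {k J S : Type} [Field k] [IsAlgClosed k] {c N : ℕ} [Fintype J] [Fintype S]
  {K : Type} [Field K] [Algebra k K]

private theorem fam_aux (X : Fam k J S c N) (hK : IsFunctionField k K) (y : BPt X K)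
    (e f : Fin (c + N) → K) (u : Fin N → (Fin (c + N) → K)) (h : TriW X y.y e f u)
    (u' : Fin N → Pt X K) (hu1 : ∀ n i, (u' n).z (Sum.inl i) = u n i)
    (hu2 : ∀ n j, (u' n).z (Sum.inr j) = y.y j) (y₀ : BPt X k) (e₀ f₀ : Fin (c + N) → k)
    (h0 : LinearIndependent k ![e₀, f₀]) (v : Place k K) (m : S → K) (g : K)
    (hm : ∀ t, m t ≠ 0) (hg : g ≠ 0)
    (hy : ∀ j, v.Zer (m (X.fac j) * y.y j - algebraMap k K (y₀.y j)))
    (he : ∀ i, v.Zer (chi 1 m (wt X.fac X.α (Sum.inl i)) * (g * e i) - algebraMap k K (e₀ i)))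
    (hf : ∀ i, v.Zer (chi 1 m (wt X.fac X.α (Sum.inl i)) * (g * f i) - algebraMap k K (f₀ i)))
    (p : Fin N → Pt X k) (hp0 : ∀ n j, (p n).z (Sum.inr j) = y₀.y j)
    (hp' : TriW X y₀.y e₀ f₀ (fun n i => (p n).z (Sum.inl i))) :
    ∃ p' : Fin N → Pt X k, (∀ n, ∃ l m, Sp v (u' n) (p' n) l m) ∧
      ∑ n, cl (pt (p' n)) = ∑ n, cl (pt (p n)) := by
  have hyu : ∀ n j, v.Zer (m (X.fac j) * (u' n).z (Sum.inr j) - algebraMap k K (y₀.y j)) := by
    intro n j
    rw [hu2]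
    exact hy j
  choose l p' hp'y hsp using fun n => exists_normX X hK v (u' n) m hm y₀ (hyu n)
  have hb : TriW X y.y (g • e) (g • f) u := by
    have h1 := triW_basis X y.y e f u h g 0 0 g (by simpa using hg)
    have h2 : g • e + (0 : K) • f = g • e := by rw [zero_smul, add_zero]
    have h3 : (0 : K) • e + g • f = g • f := by rw [zero_smul, zero_add]
    rwa [h2, h3] at h1
  have hlim : TriW X y₀.y e₀ f₀ (fun n i => (p' n).z (Sum.inl i)) := by
    refine triW_lim X v y.y (g • e) (g • f) u hb m hm y₀.y hy e₀ f₀ h0 he hf l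
      (fun n => (hsp n).l_ne) (fun n i => (p' n).z (Sum.inl i)) (fun n hn => ?_) (fun n i => ?_)
    · obtain ⟨i, hi⟩ := (p' n).x_ne
      exact hi (congrFun hn i)
    · have := (hsp n).val (Sum.inl i)
      rwa [hu1] at this
  exact ⟨p', fun n => ⟨l n, m, hsp n⟩, triW_eq X y₀.y e₀ f₀ p' p hp'y hp0 hlim hp'⟩

/-- [D10] a family of lines, over a curve with a function `φ`, with the limits `(y₀, e₀, f₀)` at the
zeros of `φ` and `(y₁, e₁, f₁)` at the poles of `φ` -/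
theorem fam_eq (X : Fam k J S c N) (hK : IsFunctionField k K) (φ : K) (hφ : Transcendental k φ)
    (y : BPt X K) (e f : Fin (c + N) → K) (u : Fin N → (Fin (c + N) → K))
    (h : TriW X y.y e f u) (y₀ y₁ : BPt X k) (e₀ f₀ e₁ f₁ : Fin (c + N) → k)
    (h0 : LinearIndependent k ![e₀, f₀]) (h1 : LinearIndependent k ![e₁, f₁])
    (hz : ∀ v : Place k K, 0 < v.ord φ → ∃ (m : S → K) (g : K), (∀ t, m t ≠ 0) ∧ g ≠ 0 ∧
      (∀ j, v.Zer (m (X.fac j) * y.y j - algebraMap k K (y₀.y j))) ∧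
      (∀ i, v.Zer (chi 1 m (wt X.fac X.α (Sum.inl i)) * (g * e i) - algebraMap k K (e₀ i))) ∧
      ∀ i, v.Zer (chi 1 m (wt X.fac X.α (Sum.inl i)) * (g * f i) - algebraMap k K (f₀ i)))
    (hp : ∀ v : Place k K, v.ord φ < 0 → ∃ (m : S → K) (g : K), (∀ t, m t ≠ 0) ∧ g ≠ 0 ∧
      (∀ j, v.Zer (m (X.fac j) * y.y j - algebraMap k K (y₁.y j))) ∧
      (∀ i, v.Zer (chi 1 m (wt X.fac X.α (Sum.inl i)) * (g * e i) - algebraMap k K (e₁ i))) ∧
      ∀ i, v.Zer (chi 1 m (wt X.fac X.α (Sum.inl i)) * (g * f i) - algebraMap k K (f₁ i)))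
    (p q : Fin N → Pt X k)
    (hp0 : ∀ n j, (p n).z (Sum.inr j) = y₀.y j) (hq0 : ∀ n j, (q n).z (Sum.inr j) = y₁.y j)
    (hp' : TriW X y₀.y e₀ f₀ (fun n i => (p n).z (Sum.inl i)))
    (hq' : TriW X y₁.y e₁ f₁ (fun n i => (q n).z (Sum.inl i))) :
    ∑ n, cl (pt (p n)) = ∑ n, cl (pt (q n)) := by
  obtain ⟨u', hu1, hu2⟩ := pt_of_triW X y e f u h
  refine genM X hK N u' φ hφ (∑ n, cl (pt (p n))) (∑ n, cl (pt (q n))) ?_ ?_
  · intro v hv
    obtain ⟨m, g, hm, hg, hy, he, hf⟩ := hz v hv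
    exact fam_aux X hK y e f u h u' hu1 hu2 y₀ e₀ f₀ h0 v m g hm hg hy he hf p hp0 hp'
  · intro v hv
    obtain ⟨m, g, hm, hg, hy, he, hf⟩ := hp v hv
    exact fam_aux X hK y e f u h u' hu1 hu2 y₁ e₁ f₁ h1 v m g hm hg hy he hf q hq0 hq'

end Pool.Agent.LibPC60
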