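import Pool.Agent.LibPC60.C5
import Pool.Agent.LibPC60.C16
import Pool.Agent.LibPC60.C17
import Pool.Agent.LibPC60.D10

/-!
[PC60 D11] two tuples in the same fibre. Plan:
let `e, f` and `e', f'` be the two bases. Over `K₀ = RatFunc k`, `T = RatFunc.X`: `ẽ = e + T e'`, `f̃ = f + T f'` (linearly independent over `K₀`, also over
every extension: a `2 × 2` minor of `e, f` is nonzero, the same minor of `ẽ, f̃` is a polynomial in `T` with this constant term). `binary_form` over `K₀` and
`exists_split`
give `L ⊇ K₀` and a `TriW X (constant y) (i ẽ) (i f̃) u` over `L` (`u n = α n • i ẽ + β n • i f̃`). `fam_eq` with `φ = i T` (transcendental, `ratFunc_ff`):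
limits `(y, e, f)` at the zeros (`m = 1, g = 1`), `(y, e', f')` at the poles (`m = 1`, `g = (i T)⁻¹`).
-/

open scoped Classical
open MvPolynomial

set_option linter.unusedSectionVars false

namespace Pool.Agent.LibPC60

open Pool.Agent.LibBH2 Pool.Agent.LibQC8

variable {k J S : Type} [Field k] [IsAlgClosed k] {c N : ℕ} [Fintype J] [Fintype S]
  {K : Type} [Field K] [Algebra k K]

private theorem d11_chi {L : Type} [Field L] [Fintype S] (D : Deg S) :
    chi (1 : L) (fun _ : S => (1 : L)) D = 1 := by
  unfold chi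
  simp

private theorem d11_aeval {L : Type} [Field L] [Algebra k L] (x : Fin (c + N) → k) (y : J → k)
    (P : MvPolynomial (Fin (c + N) ⊕ J) k) :
    aeval (Sum.elim (fun n => algebraMap k L (x n)) (fun j => algebraMap k L (y j))) P =
      algebraMap k L (aeval (Sum.elim x y) P) := by
  rw [← MvPolynomial.aeval_algebraMap_apply]
  congr 2
  funext n
  cases n <;> rfl

private theorem d11_minor {V : Type} {e f : V → k} (h : LinearIndependent k ![e, f]) :
    ∃ p q : V, e p * f q - e q * f p ≠ 0 := by
  by_contra hcon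
  push Not at hcon
  rw [LinearIndependent.pair_iff] at h
  have he : ∀ p, e p = 0 := by
    intro p
    refine (h (-f p) (e p) ?_).2
    funext q
    have := hcon p q
    simp only [Pi.add_apply, Pi.smul_apply, smul_eq_mul, Pi.zero_apply]
    linear_combination this
  have h1 := (h 1 0 (by
    funext q
    simp [he q])).1
  exact one_ne_zero h1

private theorem d11_indep {L V : Type} [Field L] {e f : V → L} {p q : V}
    (h : e p * f q - e q * f p ≠ 0) : LinearIndependent L ![e, f] := by
  rw [LinearIndependent.pair_iff]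
  intro s t hst
  have hp := congrFun hst p
  have hq := congrFun hst q
  simp only [Pi.add_apply, Pi.smul_apply, smul_eq_mul, Pi.zero_apply] at hp hq
  constructor
  · have h1 : s * (e p * f q - e q * f p) = 0 := by linear_combination f q * hp - f p * hq
    exact (mul_eq_zero.mp h1).resolve_right h
  · have h1 : t * (e p * f q - e q * f p) = 0 := by linear_combination e p * hq - e q * hp
    exact (mul_eq_zero.mp h1).resolve_right h

private theorem d11_poly {L : Type} [Field L] [Algebra k L] {τ : L} (hτ : Transcendental k τ)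
    (a b d : k) (ha : a ≠ 0) :
    algebraMap k L a + τ * algebraMap k L b + τ ^ 2 * algebraMap k L d ≠ 0 := by
  intro h
  rw [transcendental_iff] at hτ
  have h1 := hτ (Polynomial.C a + Polynomial.X * Polynomial.C b +
    Polynomial.X ^ 2 * Polynomial.C d) (by
      simp only [map_add, map_mul, map_pow, Polynomial.aeval_C, Polynomial.aeval_X]
      exact h)
  have h2 := congrArg (fun P => Polynomial.coeff P 0) h1
  simp [pow_two, mul_assoc] at h2
  exact ha h2

/-- [D11] two tuples in the same fibre -/
theorem tri_eq (X : Fam k J S c N) (y : BPt X k) (p q : Fin N → Pt X k)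
    (hp : ∀ n j, (p n).z (Sum.inr j) = y.y j) (hq : ∀ n j, (q n).z (Sum.inr j) = y.y j)
    (h : Tri X y.y (fun n i => (p n).z (Sum.inl i)))
    (h' : Tri X y.y (fun n i => (q n).z (Sum.inl i))) :
    ∑ n, cl (pt (p n)) = ∑ n, cl (pt (q n)) := by
  obtain ⟨e, f, hT⟩ := h
  obtain ⟨e', f', hT'⟩ := h'
  obtain ⟨hff, htr⟩ := ratFunc_ff (k := k)
  obtain ⟨a, ha⟩ := binary_form X (fun j => algebraMap k (RatFunc k) (y.y j))
    (fun i => algebraMap k (RatFunc k) (e i) + RatFunc.X * algebraMap k (RatFunc k) (e' i))
    (fun i => algebraMap k (RatFunc k) (f i) + RatFunc.X * algebraMap k (RatFunc k) (f' i))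
  obtain ⟨L, iL1, iL2, i, α, β, b, hL, hab, hprod⟩ := exists_split hff a
  obtain ⟨τ, hτd⟩ : ∃ τ : L, τ = i RatFunc.X := ⟨_, rfl⟩
  have hτ : Transcendental k τ := by
    rw [hτd]
    intro hc
    exact htr ((isAlgebraic_algHom_iff i i.injective).mp hc)
  have hτ0 : τ ≠ 0 := by
    rintro rfl
    exact hτ isAlgebraic_zero
  obtain ⟨eL, heL⟩ : ∃ g : Fin (c + N) → L,
      g = fun n => algebraMap k L (e n) + τ * algebraMap k L (e' n) := ⟨_, rfl⟩
  obtain ⟨fL, hfL⟩ : ∃ g : Fin (c + N) → L,
      g = fun n => algebraMap k L (f n) + τ * algebraMap k L (f' n) := ⟨_, rfl⟩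
  let yL : BPt X L :=
    { y := fun j => algebraMap k L (y.y j)
      y_ne := by
        intro t
        obtain ⟨j, hj, hj'⟩ := y.y_ne t
        exact ⟨j, hj, fun hc => hj' (by simpa using hc)⟩
      hE := by
        intro P hP
        have h1 : aeval (fun j => algebraMap k L (y.y j)) P = algebraMap k L (aeval y.y P) := by
          rw [← MvPolynomial.aeval_algebraMap_apply]
          rfl
        rw [h1, y.hE P hP, map_zero] }
  have hlin : ∀ (x x' : Fin (c + N) → k),
      (∀ j, aeval (Sum.elim x y.y) (X.Λ j) = 0) → (∀ j, aeval (Sum.elim x' y.y) (X.Λ j) = 0) →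
      ∀ j, aeval (Sum.elim (fun n => algebraMap k L (x n) + τ * algebraMap k L (x' n)) yL.y)
        (X.Λ j) = 0 := by
    intro x x' hx hx' j
    have e1 := lam_lin X j (fun n => algebraMap k L (x n)) 0 yL.y
    have e2 := lam_lin X j (fun n => algebraMap k L (x' n)) 0 yL.y
    rw [d11_aeval, hx j, map_zero] at e1
    rw [d11_aeval, hx' j, map_zero] at e2
    rw [lam_lin X j _ 0 yL.y]
    simp only [add_mul, mul_assoc, Finset.sum_add_distrib, ← Finset.mul_sum]
    rw [← e1, ← e2, mul_zero, add_zero]
  have hTri : TriW X yL.y eL fL (fun n => α n • eL + β n • fL) := by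
    refine ⟨?_, ?_, ?_, α, β, b, fun n => ⟨hab n, rfl⟩, ?_⟩
    · obtain ⟨p0, q0, hpq⟩ := d11_minor hT.1
      apply d11_indep (p := p0) (q := q0)
      have h1 := d11_poly (L := L) hτ (e p0 * f q0 - e q0 * f p0)
        (e p0 * f' q0 + e' p0 * f q0 - (e q0 * f' p0 + e' q0 * f p0))
        (e' p0 * f' q0 - e' q0 * f' p0) hpq
      intro hc
      apply h1
      rw [heL, hfL] at hc
      simp only [map_sub, map_add, map_mul]
      linear_combination hc
    · rw [heL]
      exact hlin e e' hT.2.1 hT'.2.1
    · rw [hfL]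
      exact hlin f f' hT.2.2.1 hT'.2.2.1
    · intro s t
      rw [← hprod s t, ← ha L i s t]
      congr 2
      funext n
      cases n with
      | inl n =>
        simp only [Sum.elim_inl, Pi.add_apply, Pi.smul_apply, smul_eq_mul, map_add, map_mul,
          AlgHom.commutes, heL, hfL, hτd]
      | inr j => simp only [Sum.elim_inr, AlgHom.commutes, yL]
  refine fam_eq X hL τ hτ yL eL fL _ hTri y y e f e' f' hT.1 hT'.1 ?_ ?_ p q hp hq hT hT'
  · intro v hv
    refine ⟨fun _ => 1, 1, fun _ => one_ne_zero, one_ne_zero, ?_, ?_, ?_⟩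
    · intro j
      left
      simp [yL]
    · intro n
      rw [d11_chi, heL]
      have e1 : (1 : L) * (1 * (algebraMap k L (e n) + τ * algebraMap k L (e' n))) -
          algebraMap k L (e n) = τ * algebraMap k L (e' n) := by ring
      simp only [e1]
      exact Place.Zer.mul_reg (Or.inr hv) (v.reg_const _)
    · intro n
      rw [d11_chi, hfL]
      have e1 : (1 : L) * (1 * (algebraMap k L (f n) + τ * algebraMap k L (f' n))) -
          algebraMap k L (f n) = τ * algebraMap k L (f' n) := by ring
      simp only [e1]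
      exact Place.Zer.mul_reg (Or.inr hv) (v.reg_const _)
  · intro v hv
    have hv' : v.Zer τ⁻¹ := Or.inr (by rw [v.ord_inv]; omega)
    refine ⟨fun _ => 1, τ⁻¹, fun _ => one_ne_zero, inv_ne_zero hτ0, ?_, ?_, ?_⟩
    · intro j
      left
      simp [yL]
    · intro n
      rw [d11_chi, heL]
      have e1 : (1 : L) * (τ⁻¹ * (algebraMap k L (e n) + τ * algebraMap k L (e' n))) -
          algebraMap k L (e' n) = τ⁻¹ * algebraMap k L (e n) := by
        field_simp
        ring
      simp only [e1]
      exact Place.Zer.mul_reg hv' (v.reg_const _)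
    · intro n
      rw [d11_chi, hfL]
      have e1 : (1 : L) * (τ⁻¹ * (algebraMap k L (f n) + τ * algebraMap k L (f' n))) -
          algebraMap k L (f' n) = τ⁻¹ * algebraMap k L (f n) := by
        field_simp
        ring
      simp only [e1]
      exact Place.Zer.mul_reg hv' (v.reg_const _)

end Pool.Agent.LibPC60
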