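import Pool.Agent.LibPC60.C5
import Pool.Agent.LibPC60.C16
import Pool.Agent.LibPC60.D9

/-!
[PC60 D12] a fibre over a point of a function field contains a tuple. Plan:
the subspace `{x | Λ_j(x, y) = 0 for all j}` of `Fin (c + N) → K` has dimension `≥ N ≥ 2` (`lam_lin`: it is the kernel of a linear map to `Fin c → K`), take
independent `e, f` in it. `binary_form` and `exists_split` give `L`, `α, β, b`; put `p n = α n • i e + β n • i f`; then `TriW X (i ∘ y) (i ∘ e) (i ∘ f) p`
(independence is preserved under `i`; `aeval` commutes with `i`), and `pt_of_triW` over `L`.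
-/

open scoped Classical
open MvPolynomial

set_option linter.unusedSectionVars false

namespace Pool.Agent.LibPC60

open Pool.Agent.LibBH2 Pool.Agent.LibQC8

variable {k J S : Type} [Field k] [IsAlgClosed k] {c N : ℕ} [Fintype J] [Fintype S]
  {K : Type} [Field K] [Algebra k K]

private theorem li_of_minor {F : Type} [Field F] {ι : Type} (e f : ι → F) (a b : ι)
    (h : e a * f b - e b * f a ≠ 0) : LinearIndependent F ![e, f] := by
  rw [LinearIndependent.pair_iff]
  intro s t hst
  have h1 : s * e a + t * f a = 0 := by simpa using congrFun hst a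
  have h2 : s * e b + t * f b = 0 := by simpa using congrFun hst b
  constructor
  · have : s * (e a * f b - e b * f a) = 0 := by linear_combination f b * h1 - f a * h2
    exact (mul_eq_zero.1 this).resolve_right h
  · have : t * (e a * f b - e b * f a) = 0 := by linear_combination e a * h2 - e b * h1
    exact (mul_eq_zero.1 this).resolve_right h

private theorem minor_of_li {F : Type} [Field F] {ι : Type} (e f : ι → F)
    (h : LinearIndependent F ![e, f]) : ∃ a b, e a * f b - e b * f a ≠ 0 := by
  by_contra hc
  push Not at hc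
  rw [LinearIndependent.pair_iff] at h
  have he : ∃ a, e a ≠ 0 := by
    by_contra hc'
    push Not at hc'
    have : (1 : F) • e + (0 : F) • f = 0 := by
      funext i
      simp [hc' i]
    exact one_ne_zero (h _ _ this).1
  obtain ⟨a, ha⟩ := he
  have : (-(f a)) • e + (e a) • f = 0 := by
    funext b
    have := hc a b
    simp only [Pi.add_apply, Pi.smul_apply, smul_eq_mul, Pi.zero_apply]
    linear_combination this
  exact ha (h _ _ this).2

private theorem exists_pair {F V : Type} [Field F] [AddCommGroup V] [Module F V]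
    (W : Submodule F V) [FiniteDimensional F W] (h : 2 ≤ Module.finrank F W) :
    ∃ e f : V, e ∈ W ∧ f ∈ W ∧ LinearIndependent F ![e, f] := by
  obtain ⟨s, hs⟩ := exists_linearIndependent_of_le_finrank h
  refine ⟨(s 0 : V), (s 1 : V), (s 0).2, (s 1).2, ?_⟩
  have h1 := hs.map' W.subtype (Submodule.ker_subtype W)
  have h2 : (W.subtype ∘ s : Fin 2 → V) = ![(s 0 : V), (s 1 : V)] := by
    funext i
    fin_cases i <;> rfl
  rw [h2] at h1
  exact h1

/-- [D12] a fibre over a point of a function field contains a tuple, after a finite extension -/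
theorem exists_tri (X : Fam k J S c N) (hN : 2 ≤ N) (hK : IsFunctionField k K) (y : BPt X K) :
    ∃ (L : Type) (_ : Field L) (_ : Algebra k L) (i : K →ₐ[k] L) (p : Fin N → Pt X L),
      IsFunctionField k L ∧ (∀ n j, (p n).z (Sum.inr j) = i (y.y j)) ∧
      Tri X (fun j => i (y.y j)) (fun n i => (p n).z (Sum.inl i)) := by
  let M : Matrix (Fin c) (Fin (c + N)) K :=
    fun j i => aeval (Sum.elim (0 : Fin (c + N) → K) y.y) (pderiv (Sum.inl i) (X.Λ j))
  have hdim : 2 ≤ Module.finrank K (LinearMap.ker M.mulVecLin) := by
    have h1 := LinearMap.finrank_range_add_finrank_ker M.mulVecLin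
    have h2 : Module.finrank K (LinearMap.range M.mulVecLin) ≤ c := by
      refine (Submodule.finrank_le _).trans ?_
      simp
    have h3 : Module.finrank K (Fin (c + N) → K) = c + N := by simp
    omega
  obtain ⟨e, f, he, hf, hli⟩ := exists_pair _ hdim
  have hker : ∀ x ∈ LinearMap.ker M.mulVecLin, ∀ j, aeval (Sum.elim x y.y) (X.Λ j) = 0 := by
    intro x hx j
    rw [lam_lin X j x 0 y.y]
    have := congrFun (LinearMap.mem_ker.1 hx) j
    rw [Matrix.mulVecLin_apply] at this
    simp only [Matrix.mulVec, dotProduct, Pi.zero_apply] at this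
    rw [← this]
    refine Finset.sum_congr rfl fun i _ => ?_
    rw [mul_comm]
  obtain ⟨a, ha⟩ := binary_form X y.y e f
  obtain ⟨L, iF, iA, i, α, β, b, hL, hab, hsp⟩ := exists_split (k := k) hK a
  have hcomp : ∀ x : Fin (c + N) → K, (Sum.elim (fun n => i (x n)) (fun j => i (y.y j)) :
      Fin (c + N) ⊕ J → L) = fun n => i (Sum.elim x y.y n) := by
    intro x
    funext n
    cases n <;> rfl
  let y' : BPt X L :=
    { y := fun j => i (y.y j)
      y_ne := fun t => by
        obtain ⟨j, hj, hj'⟩ := y.y_ne t
        exact ⟨j, hj, (map_ne_zero i).2 hj'⟩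
      hE := fun e he => by
        rw [← MvPolynomial.comp_aeval_apply, y.hE e he, map_zero] }
  have htri : TriW X y'.y (fun n => i (e n)) (fun n => i (f n))
      (fun n => α n • (fun m => i (e m)) + β n • (fun m => i (f m))) := by
    refine ⟨?_, ?_, ?_, α, β, b, fun n => ⟨hab n, rfl⟩, ?_⟩
    · obtain ⟨m, m', hm⟩ := minor_of_li e f hli
      refine li_of_minor _ _ m m' ?_
      have : i (e m * f m' - e m' * f m) ≠ 0 := (map_ne_zero i).2 hm
      simpa using this
    · intro j
      change aeval (Sum.elim (fun n => i (e n)) (fun j => i (y.y j))) (X.Λ j) = 0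
      rw [hcomp e, ← MvPolynomial.comp_aeval_apply, hker e he j, map_zero]
    · intro j
      change aeval (Sum.elim (fun n => i (f n)) (fun j => i (y.y j))) (X.Λ j) = 0
      rw [hcomp f, ← MvPolynomial.comp_aeval_apply, hker f hf j, map_zero]
    · intro s t
      rw [← hsp s t, ← ha L i s t]
      rfl
  obtain ⟨u, hu1, hu2⟩ := pt_of_triW X y' _ _ _ htri
  refine ⟨L, iF, iA, i, u, hL, hu2, fun n => i (e n), fun n => i (f n), ?_⟩
  have : (fun n i => (u n).z (Sum.inl i)) =
      (fun n => α n • (fun m => i (e m)) + β n • (fun m => i (f m))) := by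
    funext n m
    exact hu1 n m
  rw [this]
  exact htri

end Pool.Agent.LibPC60
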