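import Pool.Agent.LibPC60.C5
import Pool.Agent.LibPC60.C15
import Pool.Agent.LibPC60.D9

/-!
[PC60 D13] fibres over constant points contain tuples. Plan:
the same as D12 over `k` with `split_closed` (`Ω = k`, `L = k`, `i = AlgHom.id`): the subspace of the `Λ_j` has dimension `≥ 2`, `binary_form`, `split_closed`,
`pt_of_triW`.
-/

open scoped Classical
open MvPolynomial

set_option linter.unusedSectionVars false

namespace Pool.Agent.LibPC60

open Pool.Agent.LibBH2 Pool.Agent.LibQC8

variable {k J S : Type} [Field k] [IsAlgClosed k] {c N : ℕ} [Fintype J] [Fintype S]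
  {K : Type} [Field K] [Algebra k K]

/-- [D13] fibres over a constant point contain tuples -/
theorem exists_tri_const (X : Fam k J S c N) (hN : 2 ≤ N) (y : BPt X k) :
    ∃ p : Fin N → Pt X k, (∀ n j, (p n).z (Sum.inr j) = y.y j) ∧
      Tri X y.y (fun n i => (p n).z (Sum.inl i)) := by
  set A : Matrix (Fin c) (Fin (c + N)) k := fun j i =>
    aeval (Sum.elim (0 : Fin (c + N) → k) y.y) (pderiv (Sum.inl i) (X.Λ j)) with hA
  have hlam : ∀ (x : Fin (c + N) → k) (j : Fin c),
      aeval (Sum.elim x y.y) (X.Λ j) = A.mulVecLin x j := by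
    intro x j
    rw [lam_lin X j x 0 y.y, Matrix.mulVecLin_apply, Matrix.mulVec, dotProduct]
    exact Finset.sum_congr rfl fun i _ => mul_comm _ _
  have hrank := LinearMap.finrank_range_add_finrank_ker A.mulVecLin
  have hrange : Module.finrank k (LinearMap.range A.mulVecLin) ≤ c := by
    have := Submodule.finrank_le (LinearMap.range A.mulVecLin)
    simpa using this
  have htot : Module.finrank k (Fin (c + N) → k) = c + N := by simp
  have hker : 1 < Module.finrank k (LinearMap.ker A.mulVecLin) := by omega
  obtain ⟨e, he⟩ := (Module.finrank_pos_iff_exists_ne_zero (R := k)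
    (M := LinearMap.ker A.mulVecLin)).mp (by omega)
  obtain ⟨f, hf⟩ := exists_linearIndependent_pair_of_one_lt_finrank hker he
  have hef : LinearIndependent k ![(e : Fin (c + N) → k), (f : Fin (c + N) → k)] := by
    have h1 := hf.map' (LinearMap.ker A.mulVecLin).subtype (Submodule.ker_subtype _)
    have h2 : (LinearMap.ker A.mulVecLin).subtype ∘ ![e, f] =
        ![(e : Fin (c + N) → k), (f : Fin (c + N) → k)] := by
      funext n
      fin_cases n <;> rfl
    rw [h2] at h1
    exact h1
  obtain ⟨a, ha⟩ := binary_form X y.y (e : Fin (c + N) → k) (f : Fin (c + N) → k)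
  obtain ⟨α, β, b, hαβ, hb⟩ := split_closed N a
  have hT : TriW X y.y (e : Fin (c + N) → k) (f : Fin (c + N) → k)
      (fun n => α n • (e : Fin (c + N) → k) + β n • (f : Fin (c + N) → k)) := by
    refine ⟨hef, ?_, ?_, α, β, b, fun n => ⟨hαβ n, rfl⟩, ?_⟩
    · intro j
      rw [hlam, LinearMap.mem_ker.mp e.2]
      rfl
    · intro j
      rw [hlam, LinearMap.mem_ker.mp f.2]
      rfl
    · intro s t
      have h := ha k (AlgHom.id k k) s t
      simp only [AlgHom.coe_id, id_eq] at h
      rw [hb s t] at h
      exact h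
  obtain ⟨u, hu1, hu2⟩ := pt_of_triW X y _ _ _ hT
  refine ⟨u, hu2, e, f, ?_⟩
  have : (fun n i => (u n).z (Sum.inl i)) =
      (fun n => α n • (e : Fin (c + N) → k) + β n • (f : Fin (c + N) → k)) := by
    funext n i
    exact hu1 n i
  rw [this]
  exact hT

end Pool.Agent.LibPC60
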