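import Pool.Agent.LibPC60.B1

/-!
[PC60 D2] reduction of a two-dimensional subspace at a place. Plan:
`exists_prim` for `e`: `e' = (e i₀)⁻¹ e` with `e' i₀ = 1` and values `e₀`, `e₀ i₀ = 1`. The vector `f - (f i₀) e'` is nonzero (independence) and has coordinate
`0` at `i₀`; `exists_prim` for it gives `f'`, `f₀` with `f₀ j₀ = 1`, and `f₀ i₀ = 0` (the coordinate at `i₀` is `0`, `Place.zer_const_iff`). So `e₀, f₀` are
independent: `a e₀ + b f₀ = 0` at `i₀` gives `a = 0`. `g₁ = (e i₀)⁻¹`, `g₂ = 0`, `g₃ = - (f i₀) (e i₀)⁻¹ h`, `g₄ = h`.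
-/

open scoped Classical
open MvPolynomial

set_option linter.unusedSectionVars false

namespace Pool.Agent.LibPC60

open Pool.Agent.LibBH2 Pool.Agent.LibQC8

variable {k J S : Type} [Field k] [IsAlgClosed k] {c N : ℕ} [Fintype J] [Fintype S]
  {K : Type} [Field K] [Algebra k K]

/-- [D2] reduction of a two-dimensional subspace at a place -/
theorem exists_echelon (hK : IsFunctionField k K) {ι : Type} [Fintype ι] (v : Place k K)
    (e f : ι → K) (h : LinearIndependent K ![e, f]) :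
    ∃ (g₁ g₂ g₃ g₄ : K) (e₀ f₀ : ι → k), g₁ * g₄ - g₂ * g₃ ≠ 0 ∧ LinearIndependent k ![e₀, f₀] ∧
      (∀ i, v.Zer (g₁ * e i + g₂ * f i - algebraMap k K (e₀ i))) ∧
      ∀ i, v.Zer (g₃ * e i + g₄ * f i - algebraMap k K (f₀ i)) := by
  rw [LinearIndependent.pair_iff] at h
  have he : ∃ i, e i ≠ 0 := by
    by_contra hcon
    push Not at hcon
    have h1 := h 1 0 (by
      funext i
      simp [hcon i])
    exact one_ne_zero h1.1
  obtain ⟨i₀, e₀, hei, he1, hez⟩ := exists_prim hK v e he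
  have hd : ∃ i, (fun i => f i - f i₀ * ((e i₀)⁻¹ * e i)) i ≠ 0 := by
    by_contra hcon
    push Not at hcon
    have h1 := h (-(f i₀ * (e i₀)⁻¹)) 1 (by
      funext i
      have h2 := hcon i
      simp only [Pi.add_apply, Pi.smul_apply, smul_eq_mul, Pi.zero_apply]
      linear_combination h2)
    exact one_ne_zero h1.2
  obtain ⟨j₀, f₀, hdj, hf1, hfz⟩ := exists_prim hK v (fun i => f i - f i₀ * ((e i₀)⁻¹ * e i)) hd
  have hf0 : f₀ i₀ = 0 := by
    have h1 := hfz i₀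
    rw [inv_mul_cancel₀ hei, mul_one, sub_self, mul_zero, zero_sub] at h1
    have h2 := h1.neg
    rw [neg_neg] at h2
    exact (v.zer_const_iff (f₀ i₀)).1 h2
  refine ⟨(e i₀)⁻¹, 0, -(f i₀ * (e i₀)⁻¹ * (f j₀ - f i₀ * ((e i₀)⁻¹ * e j₀))⁻¹),
    (f j₀ - f i₀ * ((e i₀)⁻¹ * e j₀))⁻¹, e₀, f₀, ?_, ?_, ?_, ?_⟩
  · rw [zero_mul, sub_zero]
    exact mul_ne_zero (inv_ne_zero hei) (inv_ne_zero hdj)
  · rw [LinearIndependent.pair_iff]
    intro a b hab
    have ha : a = 0 := by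
      have h1 := congrFun hab i₀
      simp only [Pi.add_apply, Pi.smul_apply, smul_eq_mul, Pi.zero_apply, he1, hf0, mul_one,
        mul_zero, add_zero] at h1
      exact h1
    have hb : b = 0 := by
      have h1 := congrFun hab j₀
      simp only [Pi.add_apply, Pi.smul_apply, smul_eq_mul, Pi.zero_apply, hf1, ha, mul_one,
        zero_mul, zero_add] at h1
      exact h1
    exact ⟨ha, hb⟩
  · intro i
    have h1 := hez i
    rw [zero_mul, add_zero]
    exact h1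
  · intro i
    have h1 := hfz i
    have h2 : -(f i₀ * (e i₀)⁻¹ * (f j₀ - f i₀ * ((e i₀)⁻¹ * e j₀))⁻¹) * e i +
        (f j₀ - f i₀ * ((e i₀)⁻¹ * e j₀))⁻¹ * f i =
        (f j₀ - f i₀ * ((e i₀)⁻¹ * e j₀))⁻¹ * (f i - f i₀ * ((e i₀)⁻¹ * e i)) := by ring
    rw [h2]
    exact h1

end Pool.Agent.LibPC60
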