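import Pool.Agent.LibPC60.D1
import Pool.Agent.LibPC60.D2
import Pool.Agent.LibPC60.D3

/-!
[PC60 D4] the limit of a tuple. Plan:
from `Tri` take `e, f`. Apply `exists_echelon` to the (independent) vectors `e' i = chi 1 m (wt (inl i)) * e i`, `f'`; this gives `g₁ .. g₄, e₀, f₀`.
`triW_basis` with the `g`s for `e, f`, then `triW_lim` with the basis `g₁ • e + g₂ • f`, `g₃ • e + g₄ • f`.
-/

open scoped Classical
open MvPolynomial

set_option linter.unusedSectionVars false

namespace Pool.Agent.LibPC60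

open Pool.Agent.LibBH2 Pool.Agent.LibQC8

variable {k J S : Type} [Field k] [IsAlgClosed k] {c N : ℕ} [Fintype J] [Fintype S]
  {K : Type} [Field K] [Algebra k K]

/-- [D4] the limit of a tuple -/
theorem tri_lim (X : Fam k J S c N) (hK : IsFunctionField k K) (v : Place k K) (y : J → K)
    (p : Fin N → (Fin (c + N) → K)) (h : Tri X y p) (m : S → K) (hm : ∀ t, m t ≠ 0)
    (y₀ : J → k) (hy : ∀ j, v.Zer (m (X.fac j) * y j - algebraMap k K (y₀ j)))
    (l : Fin N → K) (hl : ∀ n, l n ≠ 0) (p₀ : Fin N → (Fin (c + N) → k)) (hp : ∀ n, p₀ n ≠ 0)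
    (hv : ∀ n i, v.Zer (chi (l n) m (wt X.fac X.α (Sum.inl i)) * p n i -
      algebraMap k K (p₀ n i))) : Tri X y₀ p₀ := by
  obtain ⟨e, f, hef⟩ := h
  have hind : LinearIndependent K ![e, f] := hef.1
  have hind' : LinearIndependent K ![fun i => chi 1 m (wt X.fac X.α (Sum.inl i)) * e i,
      fun i => chi 1 m (wt X.fac X.α (Sum.inl i)) * f i] := by
    rw [LinearIndependent.pair_iff] at hind ⊢
    intro a b hab
    apply hind a b
    funext i
    have := congrFun hab i
    simp only [Pi.add_apply, Pi.smul_apply, smul_eq_mul, Pi.zero_apply] at this ⊢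
    have hc : chi (1 : K) m (wt X.fac X.α (Sum.inl i)) ≠ 0 := chi_ne 1 m one_ne_zero hm _
    have h2 : chi 1 m (wt X.fac X.α (Sum.inl i)) * (a * e i + b * f i) = 0 := by
      rw [← this]; ring
    exact (mul_eq_zero.mp h2).resolve_left hc
  obtain ⟨g₁, g₂, g₃, g₄, e₀, f₀, hg, h0, hve, hvf⟩ := exists_echelon hK v _ _ hind'
  refine ⟨e₀, f₀, ?_⟩
  have hT := triW_basis X y e f p hef g₁ g₂ g₃ g₄ hg
  refine triW_lim X v y _ _ p hT m hm y₀ hy e₀ f₀ h0 ?_ ?_ l hl p₀ hp hv
  · intro i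
    have := hve i
    have he : chi 1 m (wt X.fac X.α (Sum.inl i)) * (g₁ • e + g₂ • f) i =
        g₁ * (chi 1 m (wt X.fac X.α (Sum.inl i)) * e i) +
          g₂ * (chi 1 m (wt X.fac X.α (Sum.inl i)) * f i) := by
      simp only [Pi.add_apply, Pi.smul_apply, smul_eq_mul]; ring
    rw [he]; exact this
  · intro i
    have := hvf i
    have he : chi 1 m (wt X.fac X.α (Sum.inl i)) * (g₃ • e + g₄ • f) i =
        g₃ * (chi 1 m (wt X.fac X.α (Sum.inl i)) * e i) +
          g₄ * (chi 1 m (wt X.fac X.α (Sum.inl i)) * f i) := by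
      simp only [Pi.add_apply, Pi.smul_apply, smul_eq_mul]; ring
    rw [he]; exact this

end Pool.Agent.LibPC60
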