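import Pool.Agent.LibPC60.B3
import Pool.Agent.LibPC60.B9
import Pool.Agent.LibPC60.C17
import Pool.Agent.LibPC60.D4
import Pool.Agent.LibPC60.D11
import Pool.Agent.LibPC60.D12

/-!
[PC60 D14] fibres over two points on a rational curve. Plan:
let `K₀ = RatFunc k` and `Y : BPt X K₀` with coordinates `algebraMap k[X] K₀ (P j)` (`y_ne`: `(P j).coeff 0 = y.y j`; `hE`: `aeval` commutes with `algebraMap`).
`exists_tri` gives `L, i, w : Fin N → Pt X L`. `genM` with the points `w`, the function `i T` (`T = RatFunc.X`), and the classes `∑ cl (pt (p n))`, `∑ cl (pt (q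
n))`.
At a zero `v` of `i T`: `i (P j) - y.y j` is `i T` times a regular function, so `exists_normX` with `m = 1`, `y₀ = y` gives values `p' n` over `y`; `tri_lim`
gives `Tri X y.y (p' ..)`, `tri_eq` gives the sum. At a pole: `m t = (i T)⁻¹ ^ (d t)`: `(i T)^(-d) P_j` is a polynomial in `(i T)⁻¹` with constant term
`(P j).coeff (d (fac j)) = y'.y j`.
-/

open scoped Classical
open MvPolynomial

set_option linter.unusedSectionVars false

namespace Pool.Agent.LibPC60

open Pool.Agent.LibBH2 Pool.Agent.LibQC8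

variable {k J S : Type} [Field k] [IsAlgClosed k] {c N : ℕ} [Fintype J] [Fintype S]
  {K : Type} [Field K] [Algebra k K]

private theorem d14_zero (v : Place k K) {φ : K} (hφ : 0 < v.ord φ) (P : Polynomial k) :
    v.Zer (Polynomial.aeval φ P - algebraMap k K (P.coeff 0)) := by
  have h1 : v.Zer (φ - algebraMap k K 0) := by
    rw [map_zero, sub_zero]
    exact Or.inr hφ
  have h2 := Place.val_aeval h1 P
  rwa [← Polynomial.coeff_zero_eq_eval_zero] at h2

private theorem d14_pole (v : Place k K) {φ : K} (hφ : v.ord φ < 0) (P : Polynomial k) (D : ℕ)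
    (hP : P.natDegree ≤ D) :
    v.Zer ((φ⁻¹) ^ D * Polynomial.aeval φ P - algebraMap k K (P.coeff D)) := by
  have hφ0 : φ ≠ 0 := by
    rintro rfl
    rw [v.ord_zero] at hφ
    exact lt_irrefl _ hφ
  let _ : Invertible φ := invertibleOfNonzero hφ0
  have h1 := Polynomial.eval₂_reflect_mul_pow (algebraMap k K) φ D P hP
  rw [invOf_eq_inv] at h1
  have h2 : (φ⁻¹) ^ D * Polynomial.aeval φ P = Polynomial.aeval φ⁻¹ (Polynomial.reflect D P) := by
    rw [Polynomial.aeval_def, Polynomial.aeval_def, ← h1, inv_pow]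
    field_simp
  have h3 : 0 < v.ord φ⁻¹ := by
    rw [v.ord_inv]
    omega
  have h4 := d14_zero v h3 (Polynomial.reflect D P)
  rw [← h2, Polynomial.coeff_reflect, Polynomial.revAt_zero] at h4
  exact h4

/-- [D14] tuples over two points of the base on a rational curve -/
theorem tri_joined (X : Fam k J S c N) (hN : 2 ≤ N) (y y' : BPt X k) (hj : Joined X y y')
    (p q : Fin N → Pt X k)
    (hp : ∀ n j, (p n).z (Sum.inr j) = y.y j) (hq : ∀ n j, (q n).z (Sum.inr j) = y'.y j)
    (h : Tri X y.y (fun n i => (p n).z (Sum.inl i)))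
    (h' : Tri X y'.y (fun n i => (q n).z (Sum.inl i))) :
    ∑ n, cl (pt (p n)) = ∑ n, cl (pt (q n)) := by
  obtain ⟨d, P, hd, hPE, hP0, hPd⟩ := hj
  let ι : Polynomial k →ₐ[k] RatFunc k := IsScalarTower.toAlgHom k (Polynomial k) (RatFunc k)
  have hι : ∀ A, ι A = algebraMap (Polynomial k) (RatFunc k) A := fun A => rfl
  let Y : BPt X (RatFunc k) :=
    { y := fun j => ι (P j)
      y_ne := by
        intro t
        obtain ⟨j, hjt, hj0⟩ := y.y_ne t
        refine ⟨j, hjt, ?_⟩
        rw [hι]
        intro h0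
        have h1 : P j = 0 := by
          apply IsFractionRing.injective (Polynomial k) (RatFunc k)
          rw [h0, map_zero]
        apply hj0
        rw [← hP0, h1, Polynomial.coeff_zero]
      hE := by
        intro e he
        have h1 : aeval (fun j => ι (P j)) e = ι (aeval P e) := by
          rw [← AlgHom.comp_apply, comp_aeval]
        rw [h1, hPE e he, map_zero] }
  obtain ⟨L, _, _, i, w, hL, hwy, htri⟩ := exists_tri X hN ratFunc_ff.1 Y
  set φ : L := i RatFunc.X with hφdef
  have hφt : Transcendental k φ := by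
    intro h
    apply (ratFunc_ff (k := k)).2
    exact (isAlgebraic_algHom_iff i i.injective).mp h
  have hev : ∀ j, i (Y.y j) = Polynomial.aeval φ (P j) := by
    intro j
    have h1 : i.comp ι = Polynomial.aeval φ := by
      apply Polynomial.algHom_ext
      rw [Polynomial.aeval_X, AlgHom.comp_apply, hι, RatFunc.algebraMap_X]
    have h2 : (i.comp ι) (P j) = Polynomial.aeval φ (P j) := by rw [h1]
    exact h2
  refine genM X hL N w φ hφt _ _ ?_ ?_
  · intro v hv
    have hy : ∀ j, v.Zer ((1 : L) * i (Y.y j) - algebraMap k L (y.y j)) := by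
      intro j
      rw [one_mul, hev, ← hP0]
      exact d14_zero v hv (P j)
    have hex : ∀ n, ∃ (l : L) (p' : Pt X k), (∀ j, p'.z (Sum.inr j) = y.y j) ∧
        Sp v (w n) p' l (fun _ => 1) := by
      intro n
      refine exists_normX X hL v (w n) (fun _ => 1) (fun _ => one_ne_zero) y ?_
      intro j
      rw [hwy]
      exact hy j
    choose l p' hp' hsp using hex
    refine ⟨p', fun n => ⟨l n, _, hsp n⟩, ?_⟩
    apply tri_eq X y p' p hp' hp _ h
    refine tri_lim X hL v (fun j => i (Y.y j)) (fun n i => (w n).z (Sum.inl i)) htri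
      (fun _ => 1) (fun _ => one_ne_zero) y.y hy l (fun n => (hsp n).l_ne)
      (fun n i => (p' n).z (Sum.inl i)) ?_ ?_
    · intro n h0
      obtain ⟨a, ha⟩ := (p' n).x_ne
      exact ha (congrFun h0 a)
    · intro n a
      exact (hsp n).val (Sum.inl a)
  · intro v hv
    have hφ0 : φ ≠ 0 := by
      intro h0
      rw [h0, v.ord_zero] at hv
      exact lt_irrefl _ hv
    have hm : ∀ t, (fun t => (φ⁻¹) ^ d t : S → L) t ≠ 0 := fun t =>
      pow_ne_zero _ (inv_ne_zero hφ0)
    have hy : ∀ j, v.Zer ((φ⁻¹) ^ d (X.fac j) * i (Y.y j) - algebraMap k L (y'.y j)) := by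
      intro j
      rw [hev, ← hPd]
      exact d14_pole v hv (P j) _ (hd j)
    have hex : ∀ n, ∃ (l : L) (p' : Pt X k), (∀ j, p'.z (Sum.inr j) = y'.y j) ∧
        Sp v (w n) p' l (fun t => (φ⁻¹) ^ d t) := by
      intro n
      refine exists_normX X hL v (w n) (fun t => (φ⁻¹) ^ d t) hm y' ?_
      intro j
      rw [hwy]
      exact hy j
    choose l p' hp' hsp using hex
    refine ⟨p', fun n => ⟨l n, _, hsp n⟩, ?_⟩
    apply tri_eq X y' p' q hp' hq _ h'
    refine tri_lim X hL v (fun j => i (Y.y j)) (fun n i => (w n).z (Sum.inl i)) htri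
      (fun t => (φ⁻¹) ^ d t) hm y'.y hy l (fun n => (hsp n).l_ne)
      (fun n i => (p' n).z (Sum.inl i)) ?_ ?_
    · intro n h0
      obtain ⟨a, ha⟩ := (p' n).x_ne
      exact ha (congrFun h0 a)
    · intro n a
      exact (hsp n).val (Sum.inl a)

end Pool.Agent.LibPC60
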