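import Pool.Agent.LibPC60.D11
import Pool.Agent.LibPC60.D13
import Pool.Agent.LibPC60.D14

/-!
[PC60 D15] the class of a line section of a fibre is constant. Plan:
`exists_tri_const` for the given `y` gives `p₀`; `ζ = ∑ pt (p₀ n)`, `dg ζ = N`, `cl ζ = ∑ cl (pt (p₀ n))`. For `y'` and a tuple `p` over `y'`: induction on `hB
y y' : EqvGen (Joined X) y y'` for the statement for all tuples `p` over `y` and `p'` over `y'` the sums agree (`tri_eq` for `refl`, `tri_joined` for `rel`,
`exists_tri_const` for the intermediate point in `trans`). Two `BPt` with the same `y` are equal up to `Subsingleton` proofs.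
-/

open scoped Classical
open MvPolynomial

set_option linter.unusedSectionVars false

namespace Pool.Agent.LibPC60

open Pool.Agent.LibBH2 Pool.Agent.LibQC8

variable {k J S : Type} [Field k] [IsAlgClosed k] {c N : ℕ} [Fintype J] [Fintype S]
  {K : Type} [Field K] [Algebra k K]

/-- [D15] -/
theorem zconst (X : Fam k J S c N) (hN : 2 ≤ N) (hB : RCC X) (y : BPt X k) :
    ∃ ζ : Cyc X, dg ζ = N ∧ ∀ (y : BPt X k) (p : Fin N → Pt X k),
      (∀ n j, (p n).z (Sum.inr j) = y.y j) → Tri X y.y (fun n i => (p n).z (Sum.inl i)) →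
      ∑ n, cl (pt (p n)) = cl ζ := by
  have key : ∀ y y' : BPt X k, Relation.EqvGen (Joined X) y y' → ∀ p q : Fin N → Pt X k,
      (∀ n j, (p n).z (Sum.inr j) = y.y j) → (∀ n j, (q n).z (Sum.inr j) = y'.y j) →
      Tri X y.y (fun n i => (p n).z (Sum.inl i)) → Tri X y'.y (fun n i => (q n).z (Sum.inl i)) →
      ∑ n, cl (pt (p n)) = ∑ n, cl (pt (q n)) := by
    intro y y' h
    induction h with
    | rel y y' h =>
      intro p q hp hq h1 h2
      exact tri_joined X hN y y' h p q hp hq h1 h2
    | refl y =>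
      intro p q hp hq h1 h2
      exact tri_eq X y p q hp hq h1 h2
    | symm y y' _ ih =>
      intro p q hp hq h1 h2
      exact (ih q p hq hp h2 h1).symm
    | trans y y' y'' _ _ ih1 ih2 =>
      intro p q hp hq h1 h2
      obtain ⟨r, hr, hr'⟩ := exists_tri_const X hN y'
      exact (ih1 p r hp hr h1 hr').trans (ih2 r q hr hq hr' h2)
  obtain ⟨p₀, hp₀, hT₀⟩ := exists_tri_const X hN y
  have hcl : ∀ s : Finset (Fin N), cl (∑ n ∈ s, pt (p₀ n)) = ∑ n ∈ s, cl (pt (p₀ n)) := by
    intro s
    unfold cl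
    exact map_sum (Rat X).mkQ _ _
  have hdg : ∀ s : Finset (Fin N), dg (∑ n ∈ s, pt (p₀ n)) = (s.card : ℚ) := by
    intro s
    induction s using Finset.induction_on with
    | empty => simp [dg]
    | insert a s ha ih =>
      rw [Finset.sum_insert ha, Finset.card_insert_of_notMem ha]
      have h1 : dg (pt (p₀ a) + ∑ n ∈ s, pt (p₀ n)) = dg (pt (p₀ a)) + dg (∑ n ∈ s, pt (p₀ n)) := by
        unfold dg
        exact Finsupp.sum_add_index' (fun _ => rfl) (fun _ _ _ => rfl)
      have h2 : dg (pt (p₀ a)) = 1 := by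
        unfold dg pt
        rw [Finsupp.sum_single_index rfl]
      rw [h1, h2, ih]
      push_cast
      ring
  refine ⟨∑ n, pt (p₀ n), ?_, ?_⟩
  · rw [hdg Finset.univ, Finset.card_univ, Fintype.card_fin]
  · intro y' p hp hT
    rw [hcl Finset.univ]
    exact key y' y (hB y' y) p p₀ hp hp₀ hT hT₀

end Pool.Agent.LibPC60
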