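import Pool.Agent.LibPC60.RowDefs

/-!
[PC60 D16] products of projective spaces are rationally chain connected. Plan:
`Relation.EqvGen.rel`: `d = 1`, `P j = C (y.y j) + X * C (y'.y j)`; `X.E` is empty.
-/

open scoped Classical
open MvPolynomial

set_option linter.unusedSectionVars false

namespace Pool.Agent.LibPC60

open Pool.Agent.LibBH2 Pool.Agent.LibQC8

variable {k J S : Type} [Field k] [IsAlgClosed k] {c N : ℕ} [Fintype J] [Fintype S]
  {K : Type} [Field K] [Algebra k K]

/-- [D16] a product of projective spaces is rationally chain connected -/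
theorem rcc_of_empty (X : Fam k J S c N) (h : X.E = ∅) : RCC X := by
  intro y y'
  apply Relation.EqvGen.rel
  refine ⟨fun _ => 1,
    fun j => Polynomial.C (y.y j) + Polynomial.X * Polynomial.C (y'.y j), ?_, ?_, ?_, ?_⟩
  · intro j
    refine (Polynomial.natDegree_add_le _ _).trans (max_le ?_ ?_)
    · simp
    · refine (Polynomial.natDegree_mul_le).trans ?_
      simp
  · intro e he
    simp [h] at he
  · intro j
    simp
  · intro j
    simp

end Pool.Agent.LibPC60
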