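import Pool.Agent.LibEnd77.ValC

/-!
Families of hypersurfaces of degree `N` in projective spaces of dimension `N - 1` (for `N = 3`: plane
cubics) over a closed subset `B` of a product of projective spaces: the total space `X`, its points,
the Chow group of zero-cycles of `X` with rational coefficients, and the intersection of a curve in
`X` with the line bundles of the ambient space.
-/

open scoped Classical
open MvPolynomial

namespace Pool.Agent.LibPC60

open Pool.Agent.LibBH2 Pool.Agent.LibQC8

/-- multidegrees: the degree in the fibre coordinates and the degrees in the coordinates of the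
factors of the base -/
abbrev Deg (S : Type) : Type := ℤ × (S → ℤ)

/-- The multidegrees of the coordinates: the fibre coordinate `x_i` has degree `(1, -α_i)`, the
base coordinate `y_j` has degree `(0, e_{fac j})`. -/
noncomputable def wt {I J S : Type} (fac : J → S) (α : I → S → ℤ) : I ⊕ J → Deg S :=
  Sum.elim (fun i => (1, -α i)) (fun j => (0, Pi.single (fac j) 1))

/-- A family of hypersurfaces of degree `N` (for `N = 3`: of plane cubics). The base `B` is the
closed subset, with the equations `E`, of the product over `t : S` of the projective spaces with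
homogeneous coordinates `y_j`, `fac j = t`. There are `c + N` fibre coordinates `x_i`, of degree
`(1, -α_i)` (coordinates on the projective bundle `P(⨁ O(α_i))` over `B`; if all `α_i` are zero this
is `P^(c+N-1) × B`), `c` equations `Λ_j` of degree one in `x`, of degree `(1, γ_j)`, and one
equation `F` of degree `N` in `x`, of degree `(N, β)`. -/
structure Fam (k J S : Type) [Field k] (c N : ℕ) where
  fac : J → S
  α : Fin (c + N) → S → ℤ
  γ : Fin c → S → ℤ
  β : S → ℤ
  E : Set (MvPolynomial J k)
  Λ : Fin c → MvPolynomial (Fin (c + N) ⊕ J) k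
  F : MvPolynomial (Fin (c + N) ⊕ J) k
  homE : ∀ e ∈ E, ∃ d : S → ℤ, IsWeightedHomogeneous (fun j => (Pi.single (fac j) 1 : S → ℤ)) e d
  homΛ : ∀ j, IsWeightedHomogeneous (wt fac α) (Λ j) ((1, γ j) : Deg S)
  homF : IsWeightedHomogeneous (wt fac α) F (((N : ℤ), β) : Deg S)

variable {k J S : Type} [Field k] {c N : ℕ}

/-- The value at the scalars `(l, m)` of the character of multidegree `D` of the torus
`(K^*)^(1 + S)`. -/
noncomputable def chi {K : Type} [Field K] [Fintype S] (l : K) (m : S → K) (D : Deg S) : K :=
  l ^ D.1 * ∏ t, m t ^ D.2 t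

/-- A point of the base with coordinates in `K`. -/
structure BPt (X : Fam k J S c N) (K : Type) [Field K] [Algebra k K] where
  y : J → K
  y_ne : ∀ t : S, ∃ j, X.fac j = t ∧ y j ≠ 0
  hE : ∀ e ∈ X.E, aeval y e = 0

/-- A point of `X` with coordinates in `K`: fibre coordinates `z (inl i)` and base coordinates
`z (inr j)`. -/
structure Pt (X : Fam k J S c N) (K : Type) [Field K] [Algebra k K] where
  z : Fin (c + N) ⊕ J → K
  x_ne : ∃ i, z (Sum.inl i) ≠ 0
  y_ne : ∀ t : S, ∃ j, X.fac j = t ∧ z (Sum.inr j) ≠ 0
  hE : ∀ e ∈ X.E, aeval (fun j => z (Sum.inr j)) e = 0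
  hΛ : ∀ j, aeval z (X.Λ j) = 0
  hF : aeval z X.F = 0

variable [Fintype S]

/-- Two sets of coordinates of the same point: they differ by the action of the torus. -/
def Eqv (X : Fam k J S c N) (p q : Pt X k) : Prop :=
  ∃ (l : k) (m : S → k), l ≠ 0 ∧ (∀ t, m t ≠ 0) ∧ ∀ i, q.z i = chi l m (wt X.fac X.α i) * p.z i

/-- The set of points of `X` over `k`. -/
abbrev XPt (X : Fam k J S c N) : Type := Quot (Eqv X)

/-- zero-cycles with rational coefficients -/
abbrev Cyc (X : Fam k J S c N) : Type := XPt X →₀ ℚ

/-- The zero-cycle of a point. -/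
noncomputable def pt {X : Fam k J S c N} (p : Pt X k) : Cyc X := Finsupp.single (Quot.mk _ p) 1

/-- The degree of a zero-cycle. -/
noncomputable def dg {X : Fam k J S c N} (a : Cyc X) : ℚ := a.sum fun _ q => q

/-- The value of the `K`-point `u` at the place `v` of `K` is `p`: after multiplication by the
scalars `(l, m)` the coordinates of `u` are regular at `v` and have the values `p`. -/
structure Sp {X : Fam k J S c N} {K : Type} [Field K] [Algebra k K] (v : Place k K) (u : Pt X K)
    (p : Pt X k) (l : K) (m : S → K) : Prop where
  l_ne : l ≠ 0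
  m_ne : ∀ t, m t ≠ 0
  val : ∀ i, v.Zer (chi l m (wt X.fac X.α i) * u.z i - algebraMap k K (p.z i))

/-- `a` is the push-forward of the divisor of a function `f` on a curve: `K` is a function field of
one variable over `k`, `u` is a `K`-point of `X` (a map from the curve of `K` to `X`), and `a` is
the sum over the places `v` of `K` of `ord_v f` times the value of `u` at `v`. -/
def IsDiv (X : Fam k J S c N) (a : Cyc X) : Prop :=
  ∃ (K : Type) (_ : Field K) (_ : Algebra k K) (u : Pt X K) (f : K) (A : Finset (Place k K))
    (p : Place k K → Pt X k),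
    IsFunctionField k K ∧ f ≠ 0 ∧ (∀ v, v.ord f ≠ 0 → v ∈ A) ∧
    (∀ v ∈ A, ∃ l m, Sp v u (p v) l m) ∧ a = ∑ v ∈ A, (v.ord f : ℚ) • pt (p v)

/-- The zero-cycles rationally equivalent to zero (with rational coefficients). -/
noncomputable def Rat (X : Fam k J S c N) : Submodule ℚ (Cyc X) := Submodule.span ℚ {a | IsDiv X a}

/-- The Chow group of zero-cycles of `X` with rational coefficients. -/
abbrev CH (X : Fam k J S c N) : Type := Cyc X ⧸ Rat X

/-- The class of a zero-cycle. -/
noncomputable def cl {X : Fam k J S c N} (a : Cyc X) : CH X := Submodule.Quotient.mk a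

/-- `a` is the zero-cycle `D · Γ`, where `Γ` is the curve of the function field `K` with the map to
`X` given by the `K`-point `u`, and `D` is (the line bundle of) a multidegree: the sum over the
places `v` of `K` of the order of `D` at `v` times the value of `u` at `v`. If the scalars
`(l_v, m_v)` make the coordinates of `u` regular and primitive at `v`, the order of `D` at `v` is
the order at `v` of the value of the character `D` at `(l_v, m_v)`: for the hyperplane class of one
of the projective spaces this is minus the minimum of the orders of the coordinates. -/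
def IsInt {X : Fam k J S c N} {K : Type} [Field K] [Algebra k K] (D : Deg S) (u : Pt X K)
    (a : Cyc X) : Prop :=
  ∃ (A : Finset (Place k K)) (p : Place k K → Pt X k) (l : Place k K → K)
    (m : Place k K → S → K),
    (∀ v, Sp v u (p v) (l v) (m v)) ∧ (∀ v, v ∉ A → v.ord (chi (l v) (m v) D) = 0) ∧
    a = ∑ v ∈ A, (v.ord (chi (l v) (m v) D) : ℚ) • pt (p v)

/-- Two points of the base are the values at `0` and `∞` of a map from the projective line to `B`,
given by polynomials `P_j` in one variable of degree at most `d_(fac j)`. -/
def Joined (X : Fam k J S c N) (y y' : BPt X k) : Prop :=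
  ∃ (d : S → ℕ) (P : J → Polynomial k), (∀ j, (P j).natDegree ≤ d (X.fac j)) ∧
    (∀ e ∈ X.E, aeval P e = 0) ∧ (∀ j, (P j).coeff 0 = y.y j) ∧
    ∀ j, (P j).coeff (d (X.fac j)) = y'.y j

/-- The base is rationally chain connected: any two points can be joined by a chain of rational
curves. -/
def RCC (X : Fam k J S c N) : Prop := ∀ y y' : BPt X k, Relation.EqvGen (Joined X) y y'

/-- the class `sum γ_j + sum α_i` -/
def sig (X : Fam k J S c N) : S → ℤ := ∑ j, X.γ j + ∑ i, X.α i

/-- The class `T = 3 h_0 + 3 β + 2 σ` (for `N = 3`). -/
def TT (X : Fam k J S c N) : Deg S := (3, 3 • X.β + 2 • sig X)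

/-- The class `L = β + σ`, the pull-back from the base of `K_X - K_B`. -/
def LL (X : Fam k J S c N) : Deg S := (0, X.β + sig X)

end Pool.Agent.LibPC60
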