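import Pool.Agent.LibPC60.Main

/-!
The degree is well defined on the Chow group.
-/

open scoped Classical
open MvPolynomial

set_option linter.unusedSectionVars false

namespace Pool.Agent.LibPC60

open Pool.Agent.LibBH2 Pool.Agent.LibQC8

variable {k J S : Type} [Field k] [IsAlgClosed k] {c N : ℕ} [Fintype J] [Fintype S]

/-- the degree as a linear map -/
noncomputable def dgL (X : Fam k J S c N) : Cyc X →ₗ[ℚ] ℚ :=
  Finsupp.linearCombination ℚ (fun _ : XPt X => (1 : ℚ))

theorem dgL_eq {X : Fam k J S c N} (a : Cyc X) : dgL X a = dg a := by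
  unfold dgL dg
  rw [Finsupp.linearCombination_apply]
  simp

theorem dg_isDiv {X : Fam k J S c N} (a : Cyc X) (h : IsDiv X a) : dg a = 0 := by
  obtain ⟨K, _, _, u, f, A, p, hK, hf, hA, _, rfl⟩ := h
  have h1 : ∑ v ∈ A, (v.ord f : ℚ) = 0 := by
    obtain ⟨_, h4⟩ := Pool.Agent.LibEnd77.Val8.sum_formula hK f
    rw [finsum_eq_sum_of_support_subset _ (s := A) (by
      intro v hv
      exact hA v hv)] at h4
    exact_mod_cast h4
  rw [← dgL_eq, map_sum, ← h1]
  refine Finset.sum_congr rfl fun v _ => ?_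
  rw [map_smul]
  unfold dgL pt
  rw [Finsupp.linearCombination_single]
  simp

/-- The degree vanishes on cycles rationally equivalent to zero. -/
theorem dg_of_cl {X : Fam k J S c N} (a : Cyc X) (h : cl a = 0) : dg a = 0 := by
  have h1 : a ∈ Rat X := (Submodule.Quotient.mk_eq_zero _).1 h
  have h2 : Rat X ≤ LinearMap.ker (dgL X) := by
    unfold Rat
    rw [Submodule.span_le]
    intro b hb
    rw [SetLike.mem_coe, LinearMap.mem_ker, dgL_eq]
    exact dg_isDiv b hb
  have h3 := h2 h1
  rw [LinearMap.mem_ker, dgL_eq] at h3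
  exact h3

end Pool.Agent.LibPC60
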