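import Pool.Agent.LibPC60.A2
import Pool.Agent.LibPC60.A3
import Pool.Agent.LibPC60.C2

/-!
[PC60 E1] order of the bordered Hessian. Plan:
`aeval_scale` with `HH_hom X`: the value of `HH X` at the scaled coordinates is `chi l m (TT X) * aeval u.z (HH X)`; by `zer_aeval` it has the value `aeval p.z
(HH X) ≠ 0` at `v`, so its order is zero (`Place.ord_eq_zero_of_val`); `Place.ord_mul`.
-/

open scoped Classical
open MvPolynomial

set_option linter.unusedSectionVars false

namespace Pool.Agent.LibPC60

open Pool.Agent.LibBH2 Pool.Agent.LibQC8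

variable {k J S : Type} [Field k] [IsAlgClosed k] [CharZero k] {c : ℕ} [Fintype J] [Fintype S]
  {K : Type} [Field K] [Algebra k K]

/-- [E1] order of the bordered Hessian -/
theorem ord_HH (X : Fam k J S c 3) (v : Place k K) (u : Pt X K) (p : Pt X k) (l : K) (m : S → K)
    (h : Sp v u p l m) (hu : aeval u.z (HH X) ≠ 0) (hp : aeval p.z (HH X) ≠ 0) :
    v.ord (chi l m (TT X)) + v.ord (aeval u.z (HH X)) = 0 := by
  have h1 := aeval_scale (wt X.fac X.α) (HH X) (TT X) (HH_hom X) l m h.l_ne h.m_ne u.z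
  have h2 := zer_aeval v (fun i => chi l m (wt X.fac X.α i) * u.z i) p.z h.val (HH X)
  have h3 := Place.ord_eq_zero_of_val h2 hp
  have h4 := Place.ne_zero_of_val h2 hp
  rw [h1] at h3 h4
  rw [← v.ord_mul _ _ (left_ne_zero_of_mul h4) hu]
  exact h3

end Pool.Agent.LibPC60
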