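import Pool.Agent.LibPC60.A1
import Pool.Agent.LibPC60.A2
import Pool.Agent.LibPC60.A3
import Pool.Agent.LibPC60.C3
import Pool.Agent.LibPC60.C13

/-!
[PC60 E2] order of the residual point. Plan:
notation: `x' a = chi l m (wt (inl a)) * u.z (inl a)`, `r' b = chi l' m (wt (inl b)) * r.z (inl b)`, `W a b = x' a * r' b - x' b * r' a`, `T a b = chi l m (LL X
+ wt a + wt b) * aeval u.z (tau X a b)`. By `chi_wt_inl`, `chi_add`: `W a b = θ * T a b` for all `a b` with `θ = l' / l * κ / chi l m (LL X)`. By `aeval_scale`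
with `tau_hom`
`T a b` is the value of `tau X a b` at the scaled coordinates of `u`, so it has the value `aeval p.z (tau X a b)` at `v` (`zer_aeval`), and `W a b` has the
value `p_a q_b - p_b q_a`. `tau_ne X p hp` gives `a, b` with `T a b` of order zero, so `θ` is regular; `hpq` gives `a, b` with `W a b` of order zero, and `T a
b` regular, so `v.ord θ ≤ 0`.
Hence `v.ord θ = 0`.
-/

open scoped Classical
open MvPolynomial

set_option linter.unusedSectionVars false

namespace Pool.Agent.LibPC60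

open Pool.Agent.LibBH2 Pool.Agent.LibQC8

variable {k J S : Type} [Field k] [IsAlgClosed k] [CharZero k] {c : ℕ} [Fintype J] [Fintype S]
  {K : Type} [Field K] [Algebra k K]

/-- [E2] order of the residual point -/
theorem ord_res (X : Fam k J S c 3) (v : Place k K) (u r : Pt X K) (p q : Pt X k) (l l' : K)
    (m : S → K) (h : Sp v u p l m) (h' : Sp v r q l' m)
    (κ : K) (hκ : κ ≠ 0)
    (hr : ∀ a b, u.z (Sum.inl a) * r.z (Sum.inl b) - u.z (Sum.inl b) * r.z (Sum.inl a) =
        κ * aeval u.z (tau X a b))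
    (hp : aeval p.z (HH X) ≠ 0)
    (hpq : ∃ a b, p.z (Sum.inl a) * q.z (Sum.inl b) - p.z (Sum.inl b) * q.z (Sum.inl a) ≠ 0) :
    v.ord l' - v.ord l + v.ord κ - v.ord (chi l m (LL X)) = 0 := by
  have hl := h.l_ne
  have hl' := h'.l_ne
  have hm := h.m_ne
  have hC : chi l m (LL X) ≠ 0 := chi_ne l m hl hm _
  set C : K := chi l m (LL X) with hCdef
  -- scaled coordinates
  set x : Fin (c + 3) ⊕ J → K := fun i => chi l m (wt X.fac X.α i) * u.z i with hx
  set y : Fin (c + 3) ⊕ J → K := fun i => chi l' m (wt X.fac X.α i) * r.z i with hy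
  have hxv : ∀ i, v.Zer (x i - algebraMap k K (p.z i)) := fun i => h.val i
  have hyv : ∀ i, v.Zer (y i - algebraMap k K (q.z i)) := fun i => h'.val i
  have hT : ∀ a b, aeval x (tau X a b) =
      C * (l * chi 1 m (wt X.fac X.α (Sum.inl a))) * (l * chi 1 m (wt X.fac X.α (Sum.inl b))) *
        aeval u.z (tau X a b) := by
    intro a b
    rw [hx, aeval_scale (wt X.fac X.α) (tau X a b) _ (tau_hom X a b) l m hl hm u.z,
      chi_add l m hl hm, chi_add l m hl hm, chi_wt_inl X.fac X.α l m a,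
      chi_wt_inl X.fac X.α l m b]
  have hxa : ∀ a, x (Sum.inl a) = l * chi 1 m (wt X.fac X.α (Sum.inl a)) * u.z (Sum.inl a) := by
    intro a
    simp only [hx]
    rw [chi_wt_inl X.fac X.α l m a]
  have hya : ∀ a, y (Sum.inl a) = l' * chi 1 m (wt X.fac X.α (Sum.inl a)) * r.z (Sum.inl a) := by
    intro a
    simp only [hy]
    rw [chi_wt_inl X.fac X.α l' m a]
  set θ : K := l' * κ / (l * C) with hθ
  have hlC : l * C ≠ 0 := mul_ne_zero hl hC
  have hθ0 : θ ≠ 0 := div_ne_zero (mul_ne_zero hl' hκ) hlC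
  have hθeq : θ * (l * C) = l' * κ := div_mul_cancel₀ _ hlC
  have hW : ∀ a b, x (Sum.inl a) * y (Sum.inl b) - x (Sum.inl b) * y (Sum.inl a) =
      θ * aeval x (tau X a b) := by
    intro a b
    rw [hT, hxa, hxa, hya, hya]
    have h1 := hr a b
    linear_combination (l * l' * chi 1 m (wt X.fac X.α (Sum.inl a)) *
      chi 1 m (wt X.fac X.α (Sum.inl b))) * h1 - (l * chi 1 m (wt X.fac X.α (Sum.inl a)) *
      chi 1 m (wt X.fac X.α (Sum.inl b)) * aeval u.z (tau X a b)) * hθeq
  have hTv : ∀ a b, v.Zer (aeval x (tau X a b) - algebraMap k K (aeval p.z (tau X a b))) :=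
    fun a b => zer_aeval v x p.z hxv (tau X a b)
  have hWv : ∀ a b, v.Zer (x (Sum.inl a) * y (Sum.inl b) - x (Sum.inl b) * y (Sum.inl a) -
      algebraMap k K (p.z (Sum.inl a) * q.z (Sum.inl b) - p.z (Sum.inl b) * q.z (Sum.inl a))) :=
    fun a b => Place.val_sub (Place.val_mul (hxv _) (hyv _)) (Place.val_mul (hxv _) (hyv _))
  have hord : v.ord θ = v.ord l' + v.ord κ - (v.ord l + v.ord C) := by
    rw [hθ, v.ord_div _ _ (mul_ne_zero hl' hκ) hlC, v.ord_mul _ _ hl' hκ, v.ord_mul _ _ hl hC]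
  -- lower bound
  have hlow : 0 ≤ v.ord θ := by
    obtain ⟨a, b, hab⟩ := tau_ne X p hp
    have hT0 := Place.ord_eq_zero_of_val (hTv a b) hab
    have hTne := Place.ne_zero_of_val (hTv a b) hab
    have hWr := Place.reg_of_val (hWv a b)
    rw [hW] at hWr
    rcases hWr with h0 | h0
    · exact absurd h0 (mul_ne_zero hθ0 hTne)
    · rw [v.ord_mul _ _ hθ0 hTne, hT0] at h0
      omega
  have hup : v.ord θ ≤ 0 := by
    obtain ⟨a, b, hab⟩ := hpq
    have hW0 := Place.ord_eq_zero_of_val (hWv a b) hab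
    have hWne := Place.ne_zero_of_val (hWv a b) hab
    rw [hW] at hW0 hWne
    have hTne : aeval x (tau X a b) ≠ 0 := right_ne_zero_of_mul hWne
    have hTr := (Place.reg_of_val (hTv a b)).resolve_left hTne
    rw [v.ord_mul _ _ hθ0 hTne] at hW0
    omega
  omega

end Pool.Agent.LibPC60
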