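import Pool.Agent.LibPC60.B7
import Pool.Agent.LibPC60.B9
import Pool.Agent.LibPC60.C9
import Pool.Agent.LibPC60.C14
import Pool.Agent.LibPC60.D4
import Pool.Agent.LibPC60.D5
import Pool.Agent.LibPC60.D15
import Pool.Agent.LibPC60.D16
import Pool.Agent.LibPC60.E1
import Pool.Agent.LibPC60.E2

/-!
Assembly: the main theorem of PC60.
-/

open scoped Classical
open MvPolynomial

set_option linter.unusedSectionVars false

namespace Pool.Agent.LibPC60

open Pool.Agent.LibBH2 Pool.Agent.LibQC8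

section final
set_option linter.unusedSectionVars false
variable {k J S : Type} [Field k] [IsAlgClosed k] [CharZero k] {c : ℕ} [Fintype J] [Fintype S]
  {K : Type} [Field K] [Algebra k K]

theorem cl_add {X : Fam k J S c 3} (a b : Cyc X) : cl (a + b) = cl a + cl b := rfl
theorem cl_smul {X : Fam k J S c 3} (q : ℚ) (a : Cyc X) : cl (q • a) = q • cl a := rfl
theorem cl_sum {X : Fam k J S c 3} {ι : Type} (A : Finset ι) (f : ι → Cyc X) :
    cl (∑ i ∈ A, f i) = ∑ i ∈ A, cl (f i) := by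
  have := map_sum (Submodule.mkQ (Rat X)) f A
  exact this

theorem dg_sum {X : Fam k J S c 3} {ι : Type} (A : Finset ι) (q : ι → ℚ) (p : ι → Pt X k) :
    dg (∑ i ∈ A, q i • pt (p i)) = ∑ i ∈ A, q i := by
  unfold dg
  induction A using Finset.induction_on with
  | empty => simp
  | insert a A ha ih =>
    rw [Finset.sum_insert ha, Finset.sum_insert ha, Finsupp.sum_add_index' (by simp) (by simp), ih]
    congr 1
    unfold pt
    rw [Finsupp.smul_single, Finsupp.sum_single_index rfl]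
    simp

/-- the class `3 [p] - ζ` -/
noncomputable def del {X : Fam k J S c 3} (ζ : Cyc X) (p : Pt X k) : CH X :=
  (3 : ℚ) • cl (pt p) - cl ζ

/-- [F1] `∑ ord_v(f) δ(p_v) = 0` -/
theorem sum_ord_del (X : Fam k J S c 3) (hK : IsFunctionField k K) (u : Pt X K)
    (p : Place k K → Pt X k) (h : ∀ v, ∃ l m, Sp v u (p v) l m) (ζ : Cyc X) (f : K) (hf : f ≠ 0)
    (A : Finset (Place k K)) (hA : ∀ v, v.ord f ≠ 0 → v ∈ A) :
    ∑ v ∈ A, (v.ord f : ℚ) • del ζ (p v) = 0 := by
  have h1 := div_rel X hK u p h f hf A hA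
  have h2 : ∑ v ∈ A, (v.ord f : ℚ) = 0 := by
    obtain ⟨h3, h4⟩ := Pool.Agent.LibEnd77.Val8.sum_formula hK f
    rw [finsum_eq_sum_of_support_subset _ (s := A) (by
      intro v hv
      exact hA v hv)] at h4
    exact_mod_cast h4
  unfold del
  simp_rw [smul_sub, Finset.sum_sub_distrib, ← Finset.sum_smul, h2, zero_smul, sub_zero]
  have h5 : ∀ v, (v.ord f : ℚ) • (3 : ℚ) • cl (pt (p v)) = (3 : ℚ) • ((v.ord f : ℚ) • cl (pt (p v))) :=
    fun v => smul_comm _ _ _
  simp_rw [h5, ← Finset.smul_sum, h1, smul_zero]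

/-- the main computation: for almost all finite sets of places `A`, both classes `TT`, `LL` -/
theorem main_sum (X : Fam k J S c 3) (hK : IsFunctionField k K) (u : Pt X K)
    (p : Place k K → Pt X k) (l : Place k K → K) (m : Place k K → S → K)
    (h : ∀ v, Sp v u (p v) (l v) (m v)) (ζ : Cyc X)
    (hζ : ∀ (y : BPt X k) (p : Fin 3 → Pt X k),
      (∀ n j, (p n).z (Sum.inr j) = y.y j) → Tri X y.y (fun n i => (p n).z (Sum.inl i)) →
      ∑ n, cl (pt (p n)) = cl ζ) :
    ∃ A₀ : Finset (Place k K), ∀ A : Finset (Place k K), A₀ ⊆ A →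
      ∑ v ∈ A, (v.ord (chi (l v) (m v) (TT X)) : ℚ) • del ζ (p v) = 0 ∧
      ∑ v ∈ A, (v.ord (chi (l v) (m v) (LL X)) : ℚ) • del ζ (p v) = 0 := by
  -- points with a line of contact three
  have hbad : ∀ q : Pt X k, Tri X (fun j => q.z (Sum.inr j)) (fun _ i => q.z (Sum.inl i)) →
      del ζ q = 0 := by
    intro q hq
    have h1 := hζ ⟨fun j => q.z (Sum.inr j), q.y_ne, q.hE⟩ (fun _ => q) (fun _ _ => rfl) hq
    rw [Fin.sum_univ_three] at h1
    unfold del
    rw [← h1]
    module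
  have hHbad : ∀ q : Pt X k, aeval q.z (HH X) = 0 → del ζ q = 0 := fun q hq =>
    hbad q (tri_of_HH X q hq)
  by_cases hall : ∀ v, del ζ (p v) = 0
  · refine ⟨∅, fun A _ => ⟨?_, ?_⟩⟩
    · exact Finset.sum_eq_zero fun v _ => by rw [hall v, smul_zero]
    · exact Finset.sum_eq_zero fun v _ => by rw [hall v, smul_zero]
  push Not at hall
  obtain ⟨v₀, hv₀⟩ := hall
  -- the Hessian does not vanish at `u`
  have hspz : ∀ (w : Pt X K) (v : Place k K) (q : Pt X k) (l : K) (m : S → K), Sp v w q l m →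
      ∀ (P : MvPolynomial (Fin (c + 3) ⊕ J) k) (D : Deg S),
      IsWeightedHomogeneous (wt X.fac X.α) P D → 
      v.Zer (chi l m D * aeval w.z P - algebraMap k K (aeval q.z P)) := by
    intro w v q l m hs P D hP
    rw [← aeval_scale (wt X.fac X.α) P D hP l m hs.l_ne hs.m_ne w.z]
    exact zer_aeval v _ _ hs.val P
  have hspz0 : ∀ (w : Pt X K) (v : Place k K) (q : Pt X k) (l : K) (m : S → K), Sp v w q l m →
      aeval w.z (HH X) = 0 → aeval q.z (HH X) = 0 := by
    intro w v q l m hs hw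
    have h1 := hspz w v q l m hs (HH X) (TT X) (HH_hom X)
    rw [hw, mul_zero, zero_sub] at h1
    have h2 := h1.neg
    rw [neg_neg] at h2
    exact (v.zer_const_iff _).1 h2
  have hu : aeval u.z (HH X) ≠ 0 := by
    intro hu
    exact hv₀ (hHbad _ (hspz0 u v₀ _ _ _ (h v₀) hu))
  -- the residual point
  obtain hT | ⟨r, κ, hκ, hry, hTri, hpl⟩ := residual X u hu
  · -- contact three: all points are bad
    exfalso
    apply hv₀
    apply hbad
    have h1 := h v₀
    refine tri_lim X hK v₀ _ _ hT (m v₀) h1.m_ne _ ?_ (fun _ => l v₀) (fun _ => h1.l_ne) _ ?_ ?_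
    · intro j
      have := h1.val (Sum.inr j)
      rwa [chi_wt_inr] at this
    · intro n hn
      obtain ⟨i, hi⟩ := (p v₀).x_ne
      exact hi (congrFun hn i)
    · intro n i
      exact h1.val (Sum.inl i)
  -- the values of the residual point
  have hex : ∀ v, ∃ (l' : K) (q : Pt X k), (∀ j, q.z (Sum.inr j) = (p v).z (Sum.inr j)) ∧
      Sp v r q l' (m v) := by
    intro v
    refine exists_normX X hK v r (m v) (h v).m_ne
      ⟨fun j => (p v).z (Sum.inr j), (p v).y_ne, (p v).hE⟩ ?_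
    intro j
    have := (h v).val (Sum.inr j)
    rw [chi_wt_inr] at this
    rw [hry j]
    exact this
  choose l' q hqy hq using hex
  -- `2 δ(p_v) + δ(q_v) = 0`
  have h2 : ∀ v, del ζ (q v) = -(2 : ℚ) • del ζ (p v) := by
    intro v
    have h1 : Tri X (fun j => (p v).z (Sum.inr j)) ![fun i => (p v).z (Sum.inl i),
        fun i => (p v).z (Sum.inl i), fun i => (q v).z (Sum.inl i)] := by
      refine tri_lim X hK v _ _ hTri (m v) (h v).m_ne _ ?_ ![l v, l v, l' v] ?_ _ ?_ ?_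
      · intro j
        have := (h v).val (Sum.inr j)
        rwa [chi_wt_inr] at this
      · intro n
        fin_cases n
        · exact (h v).l_ne
        · exact (h v).l_ne
        · exact (hq v).l_ne
      · intro n hn
        fin_cases n
        · obtain ⟨i, hi⟩ := (p v).x_ne
          exact hi (congrFun hn i)
        · obtain ⟨i, hi⟩ := (p v).x_ne
          exact hi (congrFun hn i)
        · obtain ⟨i, hi⟩ := (q v).x_ne
          exact hi (congrFun hn i)
      · intro n i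
        fin_cases n
        · exact (h v).val (Sum.inl i)
        · exact (h v).val (Sum.inl i)
        · exact (hq v).val (Sum.inl i)
    have h3 := hζ ⟨fun j => (p v).z (Sum.inr j), (p v).y_ne, (p v).hE⟩ ![p v, p v, q v] (by
      intro n j
      fin_cases n
      · rfl
      · rfl
      · exact hqy v j) (by
      convert h1 using 1
      ext n i
      fin_cases n <;> rfl)
    rw [Fin.sum_univ_three] at h3
    unfold del
    rw [← h3]
    simp only [Matrix.cons_val_zero, Matrix.cons_val_one, Matrix.cons_val_two, Matrix.head_cons,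
      Matrix.tail_cons, Matrix.cons_val]
    module
  have hv₀' : del ζ (q v₀) ≠ 0 := by
    rw [h2]
    intro h3
    rw [smul_eq_zero] at h3
    rcases h3 with h3 | h3
    · norm_num at h3
    · exact hv₀ h3
  have hur : aeval r.z (HH X) ≠ 0 := fun hr =>
    hv₀' (hHbad _ (hspz0 r v₀ _ _ _ (hq v₀) hr))
  -- the three local relations
  have r1 : ∀ v, ((v.ord (chi (l v) (m v) (TT X)) : ℚ) + (v.ord (aeval u.z (HH X)) : ℚ)) •
      del ζ (p v) = 0 := by
    intro v
    by_cases hb : aeval (p v).z (HH X) = 0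
    · rw [hHbad _ hb, smul_zero]
    · have := ord_HH X v u (p v) (l v) (m v) (h v) hu hb
      have h3 : ((v.ord (chi (l v) (m v) (TT X)) : ℚ) + (v.ord (aeval u.z (HH X)) : ℚ)) = 0 := by
        exact_mod_cast this
      rw [h3, zero_smul]
  have r2 : ∀ v, ((v.ord (chi (l' v) (m v) (TT X)) : ℚ) + (v.ord (aeval r.z (HH X)) : ℚ)) •
      del ζ (q v) = 0 := by
    intro v
    by_cases hb : aeval (q v).z (HH X) = 0
    · rw [hHbad _ hb, smul_zero]
    · have := ord_HH X v r (q v) (l' v) (m v) (hq v) hur hb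
      have h3 : ((v.ord (chi (l' v) (m v) (TT X)) : ℚ) + (v.ord (aeval r.z (HH X)) : ℚ)) = 0 := by
        exact_mod_cast this
      rw [h3, zero_smul]
  have r3 : ∀ v, ((v.ord (l' v) : ℚ) - v.ord (l v) + v.ord κ - v.ord (chi (l v) (m v) (LL X))) •
      del ζ (p v) = 0 := by
    intro v
    by_cases hb : aeval (p v).z (HH X) = 0
    · rw [hHbad _ hb, smul_zero]
    by_cases hpq : ∃ a b, (p v).z (Sum.inl a) * (q v).z (Sum.inl b) -
        (p v).z (Sum.inl b) * (q v).z (Sum.inl a) ≠ 0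
    · have := ord_res X v u r (p v) (q v) (l v) (l' v) (m v) (h v) (hq v) κ hκ hpl hb hpq
      have h3 : ((v.ord (l' v) : ℚ) - v.ord (l v) + v.ord κ - v.ord (chi (l v) (m v) (LL X))) = 0 := by
        exact_mod_cast this
      rw [h3, zero_smul]
    · push Not at hpq
      have h3 := pt_eq_of_prop X (p v) (q v) (fun j => (hqy v j).symm) hpq
      have h4 := h2 v
      have h5 : del ζ (q v) = del ζ (p v) := by unfold del; rw [h3]
      rw [h5] at h4
      have h6 : (3 : ℚ) • del ζ (p v) = 0 := by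
        have h7 : (3 : ℚ) • del ζ (p v) = del ζ (p v) - (-(2 : ℚ) • del ζ (p v)) := by module
        rw [h7, ← h4, sub_self]
      rw [smul_eq_zero] at h6
      rcases h6 with h6 | h6
      · norm_num at h6
      · rw [h6, smul_zero]
  -- the order of `TT` for the residual point
  have r4 : ∀ v : Place k K, (v.ord (chi (l' v) (m v) (TT X)) : ℚ) =
      v.ord (chi (l v) (m v) (TT X)) + 3 * (v.ord (l' v) - v.ord (l v)) := by
    intro v
    rw [ord_chi v (l' v) (m v) (hq v).l_ne (h v).m_ne, ord_chi v (l v) (m v) (h v).l_ne (h v).m_ne]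
    push_cast
    change ((3 : ℤ) : ℚ) * _ + _ = ((3 : ℤ) : ℚ) * _ + _ + _
    push_cast
    ring
  -- finite sets
  have f1 := finite_ord X hK u p l m h (TT X)
  have f2 := finite_ord X hK u p l m h (LL X)
  have f3 := finite_ord X hK r q l' m hq (TT X)
  have f4 := (Pool.Agent.LibEnd77.Val8.sum_formula hK (aeval u.z (HH X))).1
  have f5 := (Pool.Agent.LibEnd77.Val8.sum_formula hK (aeval r.z (HH X))).1
  have f6 := (Pool.Agent.LibEnd77.Val8.sum_formula hK κ).1
  refine ⟨f1.toFinset ∪ f2.toFinset ∪ f3.toFinset ∪ f4.toFinset ∪ f5.toFinset ∪ f6.toFinset, ?_⟩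
  intro A hA
  have hA4 : ∀ v : Place k K, v.ord (aeval u.z (HH X)) ≠ 0 → v ∈ A := fun v hv => hA (by
    simp only [Finset.mem_union, Set.Finite.mem_toFinset]
    exact Or.inl (Or.inl (Or.inr hv)))
  have hA5 : ∀ v : Place k K, v.ord (aeval r.z (HH X)) ≠ 0 → v ∈ A := fun v hv => hA (by
    simp only [Finset.mem_union, Set.Finite.mem_toFinset]
    exact Or.inl (Or.inr hv))
  have hA6 : ∀ v : Place k K, v.ord κ ≠ 0 → v ∈ A := fun v hv => hA (by
    simp only [Finset.mem_union, Set.Finite.mem_toFinset]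
    exact Or.inr hv)
  have s1 := sum_ord_del X hK u p (fun v => ⟨_, _, h v⟩) ζ _ hu A hA4
  have s2 := sum_ord_del X hK r q (fun v => ⟨_, _, hq v⟩) ζ _ hur A hA5
  have s3 := sum_ord_del X hK u p (fun v => ⟨_, _, h v⟩) ζ _ hκ A hA6
  have t1 : ∑ v ∈ A, (v.ord (chi (l v) (m v) (TT X)) : ℚ) • del ζ (p v) = 0 := by
    have h3 : ∑ v ∈ A, ((v.ord (chi (l v) (m v) (TT X)) : ℚ) + (v.ord (aeval u.z (HH X)) : ℚ)) •
      del ζ (p v) = 0 := Finset.sum_eq_zero fun v _ => r1 v
    simp_rw [add_smul, Finset.sum_add_distrib, s1, add_zero] at h3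
    exact h3
  have t2 : ∑ v ∈ A, (v.ord (chi (l' v) (m v) (TT X)) : ℚ) • del ζ (q v) = 0 := by
    have h3 : ∑ v ∈ A, ((v.ord (chi (l' v) (m v) (TT X)) : ℚ) + (v.ord (aeval r.z (HH X)) : ℚ)) •
      del ζ (q v) = 0 := Finset.sum_eq_zero fun v _ => r2 v
    simp_rw [add_smul, Finset.sum_add_distrib, s2, add_zero] at h3
    exact h3
  have t3 : ∑ v ∈ A, (v.ord (chi (l' v) (m v) (TT X)) : ℚ) • del ζ (p v) = 0 := by
    have h4 : ∑ v ∈ A, (v.ord (chi (l' v) (m v) (TT X)) : ℚ) • del ζ (q v) =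
        -(2 : ℚ) • ∑ v ∈ A, (v.ord (chi (l' v) (m v) (TT X)) : ℚ) • del ζ (p v) := by
      rw [Finset.smul_sum]
      refine Finset.sum_congr rfl fun v _ => ?_
      rw [h2 v, smul_comm]
    rw [h4, smul_eq_zero] at t2
    rcases t2 with t2 | t2
    · norm_num at t2
    · exact t2
  refine ⟨t1, ?_⟩
  have t4 : ∑ v ∈ A, (v.ord (chi (l v) (m v) (LL X)) : ℚ) • del ζ (p v) =
      (3 : ℚ)⁻¹ • (∑ v ∈ A, (v.ord (chi (l' v) (m v) (TT X)) : ℚ) • del ζ (p v) -
        ∑ v ∈ A, (v.ord (chi (l v) (m v) (TT X)) : ℚ) • del ζ (p v)) +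
      ∑ v ∈ A, (v.ord κ : ℚ) • del ζ (p v) := by
    rw [← Finset.sum_sub_distrib, Finset.smul_sum, ← Finset.sum_add_distrib]
    refine Finset.sum_congr rfl fun v _ => ?_
    have h5 := r3 v
    rw [r4 v]
    have h6 : (v.ord (chi (l v) (m v) (LL X)) : ℚ) • del ζ (p v) =
        (v.ord (chi (l v) (m v) (LL X)) : ℚ) • del ζ (p v) +
        ((v.ord (l' v) : ℚ) - v.ord (l v) + v.ord κ - v.ord (chi (l v) (m v) (LL X))) •
          del ζ (p v) := by rw [h5, add_zero]
    rw [h6]
    module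
  rw [t4, t3, t1, s3]
  simp

/-- The main theorem. -/
theorem main (X : Fam k J S c 3) (hB : RCC X) (y : BPt X k) :
    ∃ ζ : Cyc X, dg ζ = 3 ∧
      ∀ (K : Type) [Field K] [Algebra k K], IsFunctionField k K → ∀ (D : Deg S),
        (∃ n a b : ℤ, n ≠ 0 ∧ n • D = a • TT X + b • LL X) → ∀ (u : Pt X K),
        (∃ a, IsInt D u a) ∧ ∀ a, IsInt D u a → (3 : ℚ) • cl a = dg a • cl ζ := by
  obtain ⟨ζ, hζ3, hζ⟩ := zconst X (by norm_num) hB y
  refine ⟨ζ, by exact_mod_cast hζ3, ?_⟩
  intro K _ _ hK D hD u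
  refine ⟨exists_int X hK D u, ?_⟩
  rintro a ⟨A, p, l, m, hs, hA, rfl⟩
  obtain ⟨n, a, b, hn, hD⟩ := hD
  obtain ⟨A₀, hA₀⟩ := main_sum X hK u p l m hs ζ hζ
  obtain ⟨h1, h2⟩ := hA₀ (A₀ ∪ A) Finset.subset_union_left
  -- linearity
  have hlin : ∀ v : Place k K, (n : ℚ) * (v.ord (chi (l v) (m v) D) : ℚ) =
      a * v.ord (chi (l v) (m v) (TT X)) + b * v.ord (chi (l v) (m v) (LL X)) := by
    intro v
    have h3 : ∀ (n : ℤ) (D : Deg S), v.ord (chi (l v) (m v) (n • D)) =
        n * v.ord (chi (l v) (m v) D) := by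
      intro n D
      rw [ord_chi v _ _ (hs v).l_ne (hs v).m_ne, ord_chi v _ _ (hs v).l_ne (hs v).m_ne, mul_add,
        Finset.mul_sum]
      congr 1
      · change (n • D.1) * _ = _
        rw [smul_eq_mul]; ring
      · refine Finset.sum_congr rfl fun t _ => ?_
        change (n • D.2 t) * _ = _
        rw [smul_eq_mul]; ring
    have h4 : ∀ D E : Deg S, v.ord (chi (l v) (m v) (D + E)) =
        v.ord (chi (l v) (m v) D) + v.ord (chi (l v) (m v) E) := by
      intro D E
      rw [chi_add _ _ (hs v).l_ne (hs v).m_ne, v.ord_mul _ _ (chi_ne _ _ (hs v).l_ne (hs v).m_ne _)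
        (chi_ne _ _ (hs v).l_ne (hs v).m_ne _)]
    have h5 := h3 n D
    rw [hD, h4, h3, h3] at h5
    exact_mod_cast h5.symm
  have h3 : ∑ v ∈ A₀ ∪ A, (v.ord (chi (l v) (m v) D) : ℚ) • del ζ (p v) = 0 := by
    have h4 : (n : ℚ) • ∑ v ∈ A₀ ∪ A, (v.ord (chi (l v) (m v) D) : ℚ) • del ζ (p v) =
        (a : ℚ) • ∑ v ∈ A₀ ∪ A, (v.ord (chi (l v) (m v) (TT X)) : ℚ) • del ζ (p v) +
        (b : ℚ) • ∑ v ∈ A₀ ∪ A, (v.ord (chi (l v) (m v) (LL X)) : ℚ) • del ζ (p v) := by
      rw [Finset.smul_sum, Finset.smul_sum, Finset.smul_sum, ← Finset.sum_add_distrib]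
      refine Finset.sum_congr rfl fun v _ => ?_
      rw [smul_smul, smul_smul, smul_smul, ← add_smul, hlin v]
    rw [h1, h2, smul_zero, smul_zero, add_zero, smul_eq_zero] at h4
    rcases h4 with h4 | h4
    · exact absurd (by exact_mod_cast h4) hn
    · exact h4
  have h4 : ∑ v ∈ A, (v.ord (chi (l v) (m v) D) : ℚ) • del ζ (p v) = 0 := by
    rw [← h3]
    refine Finset.sum_subset Finset.subset_union_right ?_
    intro v _ hv
    rw [hA v hv]
    simp
  rw [dg_sum, cl_sum]
  unfold del at h4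
  simp_rw [smul_sub, Finset.sum_sub_distrib, ← Finset.sum_smul] at h4
  rw [sub_eq_zero] at h4
  rw [← h4, Finset.smul_sum]
  refine Finset.sum_congr rfl fun v _ => ?_
  rw [cl_smul, smul_comm]

end final

end Pool.Agent.LibPC60
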