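import Pool.Agent.LibPC60.Defs

/-!
Further definitions for the proof: triples of points on lines, the bordered Hessian, the equations
of the tangent line.
-/

open scoped Classical
open MvPolynomial

namespace Pool.Agent.LibPC60

open Pool.Agent.LibBH2 Pool.Agent.LibQC8

variable {k J S : Type} [Field k] {c N : ℕ} {K : Type} [Field K] [Algebra k K]

/-- `p` is an `N`-tuple of points on the line spanned by the vectors `e, f` of the fibre over `y`
such that `F` is on this line a constant (perhaps zero) times the product of linear forms with the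
zeros `p`. -/
def TriW (X : Fam k J S c N) (y : J → K) (e f : Fin (c + N) → K)
    (p : Fin N → (Fin (c + N) → K)) : Prop :=
  LinearIndependent K ![e, f] ∧
  (∀ j, aeval (Sum.elim e y) (X.Λ j) = 0) ∧ (∀ j, aeval (Sum.elim f y) (X.Λ j) = 0) ∧
  ∃ (α β : Fin N → K) (a : K), (∀ n, (α n ≠ 0 ∨ β n ≠ 0) ∧ p n = α n • e + β n • f) ∧
    ∀ s t : K, aeval (Sum.elim (s • e + t • f) y) X.F = a * ∏ n, (β n * s - α n * t)

/-- such an `N`-tuple of points, on some line -/
def Tri (X : Fam k J S c N) (y : J → K) (p : Fin N → (Fin (c + N) → K)) : Prop :=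
  ∃ e f, TriW X y e f p

/-- the gradient of `F` at `x`, applied to `q` -/
noncomputable def G1 (X : Fam k J S c N) (y : J → K) (x q : Fin (c + N) → K) : K :=
  ∑ i, q i * aeval (Sum.elim x y) (pderiv (Sum.inl i) X.F)

/-- the Hessian of `F` at `x` -/
noncomputable def G2 (X : Fam k J S c N) (y : J → K) (x q q' : Fin (c + N) → K) : K :=
  ∑ i, ∑ i', q i * q' i' * aeval (Sum.elim x y) (pderiv (Sum.inl i) (pderiv (Sum.inl i') X.F))

/-- the bordered Hessian matrix of `F` and the `Λ_j` with respect to the fibre coordinates -/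
noncomputable def HM (X : Fam k J S c N) :
    Matrix (Fin (c + N) ⊕ Fin c) (Fin (c + N) ⊕ Fin c) (MvPolynomial (Fin (c + N) ⊕ J) k) :=
  Matrix.fromBlocks (fun i i' => pderiv (Sum.inl i) (pderiv (Sum.inl i') X.F))
    (fun i j => pderiv (Sum.inl i) (X.Λ j)) (fun j i => pderiv (Sum.inl i) (X.Λ j)) 0

/-- the bordered Hessian -/
noncomputable def HH (X : Fam k J S c N) : MvPolynomial (Fin (c + N) ⊕ J) k := (HM X).det

/-- the matrix (for plane cubics) with the rows `∇ Λ_j`, `∇ F`, and the unit vectors `a`, `b` -/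
noncomputable def TM (X : Fam k J S c 3) (a b : Fin (c + 3)) :
    Matrix (Fin c ⊕ Fin 3) (Fin c ⊕ Fin 3) (MvPolynomial (Fin (c + 3) ⊕ J) k) :=
  fun r q => Sum.elim (fun j => pderiv (Sum.inl (finSumFinEquiv q)) (X.Λ j))
    ![pderiv (Sum.inl (finSumFinEquiv q)) X.F, if finSumFinEquiv q = a then 1 else 0,
      if finSumFinEquiv q = b then 1 else 0] r

/-- the Plücker coordinates of the tangent line -/
noncomputable def tau (X : Fam k J S c 3) (a b : Fin (c + 3)) :
    MvPolynomial (Fin (c + 3) ⊕ J) k := (TM X a b).det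

end Pool.Agent.LibPC60
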